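import Pool.Agent.H741R4.DH10

/-!
Derrida-Hilhorst singularity, part 11: general invariance and monotonicity in `a`.
-/

open MeasureTheory ProbabilityTheory Filter Topology Asymptotics

namespace Pool.Agent.H741R4.DH

noncomputable section

variable {Ω : Type*} [mΩ : MeasurableSpace Ω] {P : Measure Ω} {Z : ℕ → Ω → ℝ} {α : ℝ} {p : ℕ}

/-- Average over `Z`: `A f (v) = E f(Z v)`. -/
def Av (P : Measure Ω) (Z : ℕ → Ω → ℝ) (f : ℝ → ℝ) (v : ℝ) : ℝ := ∫ ω, f (Z 0 ω * v) ∂P

lemma w_mul_le {α z v : ℝ} (hα : 0 ≤ α) (hz : 0 ≤ z) (hv : 0 ≤ v) :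
    w α (z * v) ≤ w α z * w α v := by
  unfold w
  rw [← Real.mul_rpow (by linarith) (by linarith)]
  exact Real.rpow_le_rpow (by positivity) (by nlinarith) hα

namespace Setup

lemma measurable_Av (S : Setup P Z α) {f : ℝ → ℝ} (hf : Measurable f) : Measurable (Av P Z f) := by
  have hprob := S.prob
  have h : Measurable (fun q : ℝ × Ω => f (Z 0 q.2 * q.1)) :=
    hf.comp (((S.meas 0).comp measurable_snd).mul measurable_fst)
  exact (h.stronglyMeasurable.integral_prod_right' (ν := P)).measurable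

lemma int_Av (S : Setup P Z α) {f : ℝ → ℝ} (hf : Cl α f) {v : ℝ} (hv : 0 ≤ v) :
    Integrable (fun ω => f (Z 0 ω * v)) P := by
  obtain ⟨C, hC0, hC⟩ := hf.nonneg_bd S.α_pos.le
  refine Integrable.mono' (S.int_w.const_mul (C * w α v))
    (hf.meas.comp ((S.meas 0).mul_const v)).aestronglyMeasurable ?_
  filter_upwards [S.pos] with ω hω
  rw [Real.norm_eq_abs]
  have h1 := hC (Z 0 ω * v) (by positivity)
  have h2 := mul_le_mul_of_nonneg_left (w_mul_le (α := α) S.α_pos.le hω.le hv) hC0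
  linarith

lemma Av_bd (S : Setup P Z α) {f : ℝ → ℝ} {C : ℝ} (hC : ∀ x, 0 ≤ x → |f x| ≤ C * w α x)
    (hC0 : 0 ≤ C) {v : ℝ} (hv : 0 ≤ v) :
    |Av P Z f v| ≤ C * (∫ ω, w α (Z 0 ω) ∂P) * w α v := by
  have h : ‖∫ ω, f (Z 0 ω * v) ∂P‖ ≤ ∫ ω, C * w α v * w α (Z 0 ω) ∂P := by
    refine norm_integral_le_of_norm_le (S.int_w.const_mul (C * w α v)) ?_
    filter_upwards [S.pos] with ω hω
    rw [Real.norm_eq_abs]
    have h1 := hC (Z 0 ω * v) (by positivity)
    have h2 := mul_le_mul_of_nonneg_left (w_mul_le (α := α) S.α_pos.le hω.le hv) hC0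
    linarith
  rw [integral_const_mul] at h
  unfold Av
  rw [← Real.norm_eq_abs]
  linarith

lemma cl_AvW (S : Setup P Z α) {a : ℝ} (ha : 0 < a) {f : ℝ → ℝ} (hf : Cl α f) :
    Cl α (fun x => Av P Z f (W a x)) := by
  obtain ⟨C, hC0, hC⟩ := hf.nonneg_bd S.α_pos.le
  have hw0 : 0 ≤ ∫ ω, w α (Z 0 ω) ∂P := by
    apply integral_nonneg_of_ae
    filter_upwards [S.pos] with ω hω using w_nonneg hω.le
  refine ⟨(S.measurable_Av hf.meas).comp (measurable_W a),
    C * (∫ ω, w α (Z 0 ω) ∂P) * 2 ^ α, fun x hx => ?_⟩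
  have h1 := S.Av_bd hC hC0 (W_pos ha hx).le
  have hle : w α (W a x) ≤ 2 ^ α * w α x := by
    unfold w
    rw [← Real.mul_rpow (by norm_num) (by linarith)]
    exact Real.rpow_le_rpow (by linarith [W_pos ha hx]) (by linarith [W_le ha hx]) S.α_pos.le
  refine h1.trans ?_
  have := mul_le_mul_of_nonneg_left hle (mul_nonneg hC0 hw0)
  linarith

lemma E_succ (S : Setup P Z α) {a : ℝ} (ha : 0 < a) (ha1 : a ≤ 1) {f : ℝ → ℝ} (hf : Cl α f)
    (j : ℕ) : E P Z a f (j + 1) = E P Z a (fun x => Av P Z f (W a x)) j := by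
  have hprob := S.prob
  have hXm := S.measurable_X a j
  have hind := (S.indep_ZX a j).symm
  have hlaw := (indepFun_iff_map_prod_eq_prod_map_map hXm.aemeasurable
    (S.meas j).aemeasurable).1 hind
  have hFm : Measurable (fun q : ℝ × ℝ => f (q.2 * W a q.1)) :=
    hf.meas.comp (measurable_snd.mul ((measurable_W a).comp measurable_fst))
  have hpair : Measurable (fun ω => (X Z a j ω, Z j ω)) := hXm.prodMk (S.meas j)
  have hintF : Integrable (fun q : ℝ × ℝ => f (q.2 * W a q.1))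
      ((P.map (X Z a j)).prod (P.map (Z j))) := by
    rw [← hlaw]
    exact (integrable_map_measure hFm.aestronglyMeasurable hpair.aemeasurable).2
      (S.int_f ha ha1 hf (j + 1))
  have : IsProbabilityMeasure (P.map (X Z a j)) := Measure.isProbabilityMeasure_map hXm.aemeasurable
  have : IsProbabilityMeasure (P.map (Z j)) :=
    Measure.isProbabilityMeasure_map (S.meas j).aemeasurable
  unfold E
  have e1 : ∫ ω, f (X Z a (j + 1) ω) ∂P
      = ∫ q, f (q.2 * W a q.1) ∂((P.map (X Z a j)).prod (P.map (Z j))) := by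
    rw [← hlaw, integral_map hpair.aemeasurable hFm.aestronglyMeasurable]
    rfl
  rw [e1, integral_prod _ hintF]
  have e2 : ∀ x : ℝ, ∫ z, f (z * W a x) ∂(P.map (Z j)) = Av P Z f (W a x) := by
    intro x
    have hm : Measurable (fun z : ℝ => f (z * W a x)) := hf.meas.comp (measurable_id.mul_const _)
    rw [integral_map (S.meas j).aemeasurable hm.aestronglyMeasurable]
    exact ((S.ident j).comp hm).integral_eq
  simp only [e2]
  exact integral_map hXm.aemeasurable
    ((S.measurable_Av hf.meas).comp (measurable_W a)).aestronglyMeasurable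

/-- General invariance. -/
lemma Lam_inv (S : Setup P Z α) {a : ℝ} (ha : 0 < a) (ha1 : a ≤ 1) {f : ℝ → ℝ} (hf : Cl α f) :
    Lam P Z a f = Lam P Z a (fun x => Av P Z f (W a x)) := by
  unfold Lam
  rw [← Lm_shift (S.bdd_E ha ha1 hf)]
  congr 1
  funext j
  exact S.E_succ ha ha1 hf j

lemma W_mono_x {a x y : ℝ} (ha : 0 < a) (ha1 : a ≤ 1) (hx : 0 ≤ x) (hxy : x ≤ y) :
    W a x ≤ W a y := by
  unfold W
  rw [div_le_div_iff₀ (H_pos ha hx) (H_pos ha (hx.trans hxy))]
  nlinarith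

lemma W_anti_a {a b x : ℝ} (ha : 0 < a) (hab : a ≤ b) (hx : 0 ≤ x) :
    W b x ≤ W a x := by
  unfold W
  apply div_le_div_of_nonneg_left (by linarith) (H_pos ha hx)
  nlinarith

lemma X_anti (S : Setup P Z α) {a b : ℝ} (ha : 0 < a) (hab : a ≤ b) (hb1 : b ≤ 1) :
    ∀ᵐ ω ∂P, ∀ n, X Z b n ω ≤ X Z a n ω := by
  have hb : 0 < b := lt_of_lt_of_le ha hab
  filter_upwards [S.pos_all, S.X_nonneg ha, S.X_nonneg hb] with ω h1 h2 h3 n
  induction n with
  | zero => exact le_rfl
  | succ n ih =>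
    change Z n ω * W b (X Z b n ω) ≤ Z n ω * W a (X Z a n ω)
    apply mul_le_mul_of_nonneg_left _ (h1 n).le
    exact (W_anti_a ha hab (h3 n)).trans (W_mono_x ha (hab.trans hb1) (h3 n) ih)

lemma Lam_anti (S : Setup P Z α) {a b : ℝ} (ha : 0 < a) (hab : a ≤ b) (hb1 : b ≤ 1)
    {f : ℝ → ℝ} (hf : Cl α f) (hmono : ∀ x y, 0 ≤ x → x ≤ y → f x ≤ f y) :
    Lam P Z b f ≤ Lam P Z a f := by
  have hb : 0 < b := lt_of_lt_of_le ha hab
  have ha1 := hab.trans hb1
  apply Lm_mono (S.bdd_E hb hb1 hf) (S.bdd_E ha ha1 hf)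
  intro j
  refine integral_mono_ae (S.int_f hb hb1 hf j) (S.int_f ha ha1 hf j) ?_
  filter_upwards [S.X_anti ha hab hb1, S.X_nonneg hb] with ω h1 h2
  exact hmono _ _ (h2 j) (h1 j)

lemma V_sub_x_mono (hα : 1 ≤ α) {x y : ℝ} (hx : 0 ≤ x) (hxy : x ≤ y) :
    (1 + x) ^ α - x ^ α ≤ (1 + y) ^ α - y ^ α := by
  have hder : ∀ x : ℝ, 0 < x → HasDerivAt (fun x : ℝ => (1 + x) ^ α - x ^ α)
      (α * (1 + x) ^ (α - 1) - α * x ^ (α - 1)) x := by
    intro x hx
    have h1 : HasDerivAt (fun x : ℝ => (1 + x) ^ α) (α * (1 + x) ^ (α - 1)) x := by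
      have h := ((hasDerivAt_id x).const_add 1).rpow_const (p := α)
        (Or.inl (by simp only [id]; linarith))
      simpa [mul_comm, mul_left_comm] using h
    have h2 : HasDerivAt (fun x : ℝ => x ^ α) (α * x ^ (α - 1)) x :=
      Real.hasDerivAt_rpow_const (Or.inl hx.ne')
    exact h1.sub h2
  have hmono : MonotoneOn (fun x : ℝ => (1 + x) ^ α - x ^ α) (Set.Ici 0) := by
    apply monotoneOn_of_deriv_nonneg (convex_Ici 0)
    · apply ContinuousOn.sub
      · apply ContinuousOn.rpow_const (by fun_prop)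
        intro x hx
        left
        have : 0 ≤ x := hx
        linarith
      · exact (continuous_id.rpow_const fun x => Or.inr (by linarith)).continuousOn
    · intro x hx
      rw [interior_Ici] at hx
      exact (hder x hx).differentiableAt.differentiableWithinAt
    · intro x hx
      rw [interior_Ici] at hx
      have hx0 : 0 < x := hx
      rw [(hder x hx).deriv]
      have : x ^ (α - 1) ≤ (1 + x) ^ (α - 1) :=
        Real.rpow_le_rpow hx0.le (by linarith) (by linarith)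
      have := mul_le_mul_of_nonneg_left this (by linarith : 0 ≤ α)
      linarith
  exact hmono (Set.mem_Ici.2 hx) (Set.mem_Ici.2 (hx.trans hxy)) hxy

/-- `G(a)` converges as `a → 0+`, by monotone coupling. -/
lemma G_conv (S : Setup P Z α) : ∃ l, 1 ≤ l ∧ Tendsto (G P Z α) (𝓝[>] 0) (𝓝 l) := by
  have hα := S.α_pos.le
  have hcl : Cl α (fun x => (1 + x) ^ α - x ^ α) := (cl_V le_rfl).sub (cl_pow hα le_rfl)
  obtain ⟨C, hC0, hC⟩ := S.G_bound
  set G' : ℝ → ℝ := fun a => -(G P Z α (min a 1)) with hG'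
  have hanti : ∀ a b : ℝ, 0 < a → a ≤ b → G' a ≤ G' b := by
    intro a b ha hab
    have h := S.Lam_anti (a := min a 1) (b := min b 1) (lt_min ha one_pos)
      (min_le_min_right 1 hab) (min_le_right _ _) hcl
      (fun x y hx hxy => V_sub_x_mono S.hα hx hxy)
    simp only [hG']
    exact neg_le_neg h
  have hmono : MonotoneOn G' (Set.Ioi 0) := fun a ha b _ hab => hanti a b ha hab
  have hbdd : BddBelow (G' '' Set.Ioi 0) := by
    refine ⟨-C, ?_⟩
    rintro _ ⟨a, ha, rfl⟩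
    exact neg_le_neg (hC _ (lt_min ha one_pos) (min_le_right _ _))
  have ht := hmono.tendsto_nhdsGT hbdd
  have ht2 : Tendsto (G P Z α) (𝓝[>] 0) (𝓝 (-sInf (G' '' Set.Ioi 0))) := by
    refine ht.neg.congr' ?_
    filter_upwards [ev_Ioc] with a ha
    simp only [hG', neg_neg]
    rw [min_eq_left ha.2]
  refine ⟨_, ?_, ht2⟩
  apply ge_of_tendsto ht2
  filter_upwards [ev_Ioc] with a ha using S.one_le_G ha.1 ha.2

end Setup

end

end Pool.Agent.H741R4.DH
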