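import Pool.Agent.H741R4.DH11

/-!
Derrida-Hilhorst singularity, part 12: a Lyapunov function on all scales.
-/

open MeasureTheory ProbabilityTheory Filter Topology Asymptotics

namespace Pool.Agent.H741R4.DH

noncomputable section

variable {Ω : Type*} [mΩ : MeasurableSpace Ω] {P : Measure Ω} {Z : ℕ → Ω → ℝ} {α δ : ℝ} {p : ℕ}

/-- Profile. -/
def kk (S : ℝ) : ℝ := if S ≤ 1 then S - S ^ 2 / 2 else 1 / 2

lemma kk_zero : kk 0 = 0 := by unfold kk; norm_num

lemma kk_nonneg {S : ℝ} (hS : 0 ≤ S) : 0 ≤ kk S := by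
  unfold kk; split_ifs with h
  · nlinarith
  · norm_num

lemma kk_le_half (S : ℝ) : kk S ≤ 1 / 2 := by
  unfold kk; split_ifs with h
  · nlinarith [sq_nonneg (S - 1)]
  · norm_num

lemma kk_mono {S T : ℝ} (hST : S ≤ T) : kk S ≤ kk T := by
  unfold kk; split_ifs with h1 h2 h2
  · nlinarith
  · nlinarith [sq_nonneg (S - 1)]
  · linarith
  · exact le_rfl

lemma kk_id_nonneg (S : ℝ) : 0 ≤ S - kk S := by
  unfold kk; split_ifs with h1
  · nlinarith [sq_nonneg S]
  · linarith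

lemma kk_id_mono {S T : ℝ} (hS : 0 ≤ S) (hST : S ≤ T) : S - kk S ≤ T - kk T := by
  unfold kk; split_ifs with h1 h2 h2
  · nlinarith
  · nlinarith
  · linarith
  · linarith

/-- The key inequality. -/
lemma kk_key {s S : ℝ} (hs : 0 < s) (hS : 0 ≤ S) :
    kk (s * S) ≤ s * kk S - 1 / 2 * min (S ^ 2) 1 * (s - 1) := by
  unfold kk
  split_ifs with h1 h2 h2
  · have hm : min (S ^ 2) 1 = S ^ 2 := min_eq_left (by nlinarith)
    rw [hm]
    nlinarith [mul_nonneg (sq_nonneg S) (sq_nonneg (s - 1))]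
  · push Not at h2
    have hm : min (S ^ 2) 1 = 1 := min_eq_right (by nlinarith)
    rw [hm]
    nlinarith [sq_nonneg (s * S - 1)]
  · push Not at h1
    have hm : min (S ^ 2) 1 = S ^ 2 := min_eq_left (by nlinarith)
    rw [hm]
    nlinarith [mul_nonneg (by linarith : 0 ≤ s * S - 1) (by linarith : 0 ≤ 1 - S),
      sq_nonneg (1 - S)]
  · push Not at h2
    have hm : min (S ^ 2) 1 = 1 := min_eq_right (by nlinarith)
    rw [hm]
    linarith

/-- The Lyapunov function. -/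
def hh (α δ y : ℝ) : ℝ := y ^ (α - δ) * kk (y ^ δ)

/-- The gain. -/
def ff (α δ y : ℝ) : ℝ := y ^ (α - δ) * min ((y ^ δ) ^ 2) 1

lemma measurable_kk : Measurable kk := by
  unfold kk
  exact Measurable.ite measurableSet_Iic (measurable_id.sub ((measurable_id.pow_const 2).div_const 2))
    measurable_const

lemma measurable_hh (α δ : ℝ) : Measurable (hh α δ) := by
  unfold hh
  exact (measurable_id.pow_const _).mul (measurable_kk.comp (measurable_id.pow_const _))

lemma measurable_ff (α δ : ℝ) : Measurable (ff α δ) := by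
  unfold ff
  exact (measurable_id.pow_const _).mul
    (((measurable_id.pow_const δ).pow_const 2).min measurable_const)

lemma hh_nonneg {y : ℝ} (hy : 0 ≤ y) : 0 ≤ hh α δ y :=
  mul_nonneg (Real.rpow_nonneg hy _) (kk_nonneg (Real.rpow_nonneg hy _))

lemma ff_nonneg {y : ℝ} (hy : 0 ≤ y) : 0 ≤ ff α δ y :=
  mul_nonneg (Real.rpow_nonneg hy _) (le_min (sq_nonneg _) zero_le_one)

lemma rpow_split {y : ℝ} (hy : 0 ≤ y) (hδα : δ < α) (hδ : 0 < δ) :
    y ^ (α - δ) * y ^ δ = y ^ α := by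
  rw [← Real.rpow_add' hy (by linarith)]
  congr 1; ring

lemma hh_mono (hδα : δ ≤ α) (hδ : 0 ≤ δ) {x y : ℝ} (hx : 0 ≤ x) (hxy : x ≤ y) :
    hh α δ x ≤ hh α δ y := by
  unfold hh
  exact mul_le_mul (Real.rpow_le_rpow hx hxy (by linarith))
    (kk_mono (Real.rpow_le_rpow hx hxy hδ)) (kk_nonneg (Real.rpow_nonneg hx _))
    (Real.rpow_nonneg (hx.trans hxy) _)

lemma hh_diff (hδα : δ < α) (hδ : 0 < δ) {x y : ℝ} (hx : 0 ≤ x) (hxy : x ≤ y) :
    hh α δ y - hh α δ x ≤ y ^ α - x ^ α := by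
  have hy := hx.trans hxy
  have e : ∀ t : ℝ, 0 ≤ t → t ^ α - hh α δ t = t ^ (α - δ) * (t ^ δ - kk (t ^ δ)) := by
    intro t ht
    rw [← rpow_split ht hδα hδ]; unfold hh; ring
  have h1 : x ^ (α - δ) * (x ^ δ - kk (x ^ δ)) ≤ y ^ (α - δ) * (y ^ δ - kk (y ^ δ)) :=
    mul_le_mul (Real.rpow_le_rpow hx hxy (by linarith))
      (kk_id_mono (Real.rpow_nonneg hx _) (Real.rpow_le_rpow hx hxy hδ.le))
      (kk_id_nonneg _) (Real.rpow_nonneg hy _)
  have e1 := e x hx
  have e2 := e y hy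
  linarith

lemma hh_le (hδα : δ < α) (hδ : 0 < δ) {y : ℝ} (hy : 0 ≤ y) : hh α δ y ≤ y ^ α := by
  rw [← rpow_split hy hδα hδ]
  unfold hh
  apply mul_le_mul_of_nonneg_left _ (Real.rpow_nonneg hy _)
  linarith [kk_id_nonneg (y ^ δ)]

lemma hh_le' {y : ℝ} (hy : 0 ≤ y) : hh α δ y ≤ y ^ (α - δ) * (1 / 2) := by
  unfold hh
  exact mul_le_mul_of_nonneg_left (kk_le_half _) (Real.rpow_nonneg hy _)

lemma ff_le {y : ℝ} (hy : 0 ≤ y) : ff α δ y ≤ y ^ (α - δ) := by
  unfold ff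
  calc y ^ (α - δ) * min ((y ^ δ) ^ 2) 1 ≤ y ^ (α - δ) * 1 :=
        mul_le_mul_of_nonneg_left (min_le_right _ _) (Real.rpow_nonneg hy _)
    _ = _ := mul_one _

lemma hh_step {y z : ℝ} (hδα : δ < α) (hδ : 0 < δ) (hy : 0 ≤ y) (hz : 0 < z) :
    hh α δ (z * y) ≤ z ^ α * hh α δ y - 1 / 2 * ff α δ y * (z ^ α - z ^ (α - δ)) := by
  have h1 := kk_key (Real.rpow_pos_of_pos hz δ) (Real.rpow_nonneg hy δ)
  have h2 : 0 ≤ z ^ (α - δ) * y ^ (α - δ) :=
    mul_nonneg (Real.rpow_nonneg hz.le _) (Real.rpow_nonneg hy _)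
  have h3 := mul_le_mul_of_nonneg_left h1 h2
  unfold hh ff
  rw [Real.mul_rpow hz.le hy, Real.mul_rpow hz.le hy, ← rpow_split hz.le hδα hδ]
  refine h3.trans (le_of_eq ?_)
  ring

/-- `q = E[Z^(α-δ)]`. -/
def qd (P : Measure Ω) (Z : ℕ → Ω → ℝ) (s : ℝ) : ℝ := ∫ ω, (Z 0 ω) ^ s ∂P

namespace Setup

lemma cl_hh_scale (S : Setup P Z α) (hδα : δ < α) (hδ : 0 < δ) {c : ℝ} (hc : 0 ≤ c) :
    Cl α (fun x => hh α δ (c * x)) := by
  refine ((cl_pow S.α_pos.le le_rfl).const_mul (c ^ α)).of_le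
    ((measurable_hh α δ).comp (measurable_const.mul measurable_id)) fun x hx => ?_
  rw [abs_of_nonneg (hh_nonneg (by positivity)), ← Real.mul_rpow hc hx]
  exact hh_le hδα hδ (by positivity)

lemma Av_hh (S : Setup P Z α) (hδα : δ < α) (hδ : 0 < δ) {v : ℝ} (hv : 0 ≤ v) :
    Av P Z (hh α δ) v ≤ hh α δ v - 1 / 2 * (1 - qd P Z (α - δ)) * ff α δ v := by
  have hi1 := S.int_α
  have hi2 := S.int_rpow (s := α - δ) (by linarith) (by linarith)
  have hcl : Cl α (hh α δ) := by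
    have := S.cl_hh_scale hδα hδ (c := 1) zero_le_one
    simpa using this
  have h : Av P Z (hh α δ) v
      ≤ ∫ ω, ((Z 0 ω) ^ α * hh α δ v
        - 1 / 2 * ff α δ v * ((Z 0 ω) ^ α - (Z 0 ω) ^ (α - δ))) ∂P := by
    refine integral_mono_ae (S.int_Av hcl hv)
      ((hi1.mul_const _).sub ((hi1.sub hi2).const_mul _)) ?_
    filter_upwards [S.pos] with ω hω using hh_step hδα hδ hv hω
  have hi3 : Integrable (fun ω => (Z 0 ω) ^ α * hh α δ v) P := hi1.mul_const _
  have hi4 : Integrable (fun ω => 1 / 2 * ff α δ v * ((Z 0 ω) ^ α - (Z 0 ω) ^ (α - δ))) P :=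
    (hi1.sub hi2).const_mul _
  rw [integral_sub hi3 hi4, integral_mul_const, integral_const_mul, integral_sub hi1 hi2,
    S.one] at h
  unfold qd
  linarith

/-- Uniform scale bound. -/
lemma scale_bound (S : Setup P Z α) (hδα : δ < α) (hδ : 0 < δ) {a lam : ℝ} (ha : 0 < a)
    (ha1 : a ≤ 1) (hlam : 0 < lam) :
    1 / 2 * (1 - qd P Z (α - δ)) * Lam P Z a (fun x => ff α δ (lam * W a x))
      ≤ lam ^ α * G P Z α a := by
  have hα := S.α_pos.le
  have hq : 0 ≤ 1 / 2 * (1 - qd P Z (α - δ)) := by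
    have := S.q_lt_one (s := α - δ) (by linarith) (by linarith)
    unfold qd
    linarith
  have hclx := S.cl_hh_scale hδα hδ hlam.le
  have hclW : Cl α (fun x => hh α δ (lam * W a x)) := by
    refine ((cl_W ha hα le_rfl).const_mul (lam ^ α)).of_le
      ((measurable_hh α δ).comp (measurable_const.mul (measurable_W a))) fun x hx => ?_
    have hW := (W_pos ha hx).le
    rw [abs_of_nonneg (hh_nonneg (by positivity)), ← Real.mul_rpow hlam.le hW]
    exact hh_le hδα hδ (by positivity)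
  have hclf : Cl α (fun x => ff α δ (lam * W a x)) := by
    refine ((cl_W ha (by linarith : 0 ≤ α - δ) (by linarith)).const_mul (lam ^ (α - δ))).of_le
      ((measurable_ff α δ).comp (measurable_const.mul (measurable_W a))) fun x hx => ?_
    have hW := (W_pos ha hx).le
    rw [abs_of_nonneg (ff_nonneg (by positivity)), ← Real.mul_rpow hlam.le hW]
    exact ff_le (by positivity)
  have hclA : Cl α (fun x => Av P Z (fun t => hh α δ (lam * t)) (W a x)) := S.cl_AvW ha hclx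
  have hinv := S.Lam_inv ha ha1 hclx
  -- pointwise
  have h1 : Lam P Z a (fun x => 1 / 2 * (1 - qd P Z (α - δ)) * ff α δ (lam * W a x))
      ≤ Lam P Z a (fun x => hh α δ (lam * W a x)
        - Av P Z (fun t => hh α δ (lam * t)) (W a x)) := by
    apply S.Lam_mono ha ha1 (hclf.const_mul _) (hclW.sub hclA)
    intro x hx
    have hW := (W_pos ha hx).le
    have h := S.Av_hh hδα hδ (v := lam * W a x) (by positivity)
    have e : Av P Z (fun t => hh α δ (lam * t)) (W a x) = Av P Z (hh α δ) (lam * W a x) := by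
      unfold Av
      congr 1
      funext ω
      congr 1
      ring
    rw [e]
    linarith
  rw [S.Lam_const_mul ha ha1 hclf, S.Lam_sub ha ha1 hclW hclA, ← hinv,
    ← S.Lam_sub ha ha1 hclW hclx] at h1
  refine h1.trans ?_
  have hclG : Cl α (fun x => (1 + x) ^ α - x ^ α) := (cl_V le_rfl).sub (cl_pow hα le_rfl)
  unfold G
  rw [← S.Lam_const_mul ha ha1 hclG]
  apply S.Lam_mono ha ha1 (hclW.sub hclx) (hclG.const_mul _)
  intro x hx
  have hW := (W_pos ha hx).le
  have h2 : hh α δ (lam * W a x) ≤ hh α δ (lam * (1 + x)) :=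
    hh_mono hδα.le hδ.le (by positivity) (mul_le_mul_of_nonneg_left (W_le ha hx) hlam.le)
  have h3 := hh_diff (α := α) (δ := δ) hδα hδ (x := lam * x) (y := lam * (1 + x))
    (by positivity) (by nlinarith)
  rw [Real.mul_rpow hlam.le (by linarith), Real.mul_rpow hlam.le hx] at h3
  linarith

end Setup

end

end Pool.Agent.H741R4.DH
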