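import Pool.Agent.H741R4.DH12

/-!
Derrida-Hilhorst singularity, part 13: the moment recursion for non-integer exponent.
-/

open MeasureTheory ProbabilityTheory Filter Topology Asymptotics

namespace Pool.Agent.H741R4.DH

noncomputable section

variable {Ω : Type*} [mΩ : MeasurableSpace Ω] {P : Measure Ω} {Z : ℕ → Ω → ℝ} {α δ : ℝ} {m : ℕ}

/-- Test functions for the singular part. -/
structure NN (m : ℕ) (ψ : ℝ → ℝ) : Prop where
  meas : Measurable ψ
  nonneg : ∀ y, 0 ≤ y → 0 ≤ ψ y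
  bd : ∃ C, 0 ≤ C ∧ ∀ y, 0 ≤ y → ψ y ≤ C * (y ^ (m + 1) / (1 + y))
  mono : ∀ x y, 0 ≤ x → x ≤ y → ψ x ≤ ψ y
  scale : ∀ l y, 1 ≤ l → 0 ≤ y → ψ (l * y) ≤ l ^ (m + 1) * ψ y

lemma NN.zero : NN m (fun _ => 0) :=
  ⟨measurable_const, fun _ _ => le_rfl, ⟨0, le_rfl, fun y _ => by simp⟩,
    fun _ _ _ _ => le_rfl, fun _ _ _ _ => by simp⟩

lemma NN.add {ψ χ : ℝ → ℝ} (h1 : NN m ψ) (h2 : NN m χ) : NN m (fun y => ψ y + χ y) := by
  obtain ⟨C, hC0, hC⟩ := h1.bd
  obtain ⟨D, hD0, hD⟩ := h2.bd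
  refine ⟨h1.meas.add h2.meas, fun y hy => add_nonneg (h1.nonneg y hy) (h2.nonneg y hy),
    ⟨C + D, add_nonneg hC0 hD0, fun y hy => ?_⟩,
    fun x y hx hxy => add_le_add (h1.mono x y hx hxy) (h2.mono x y hx hxy), fun l y hl hy => ?_⟩
  · rw [add_mul]; exact add_le_add (hC y hy) (hD y hy)
  · rw [mul_add]; exact add_le_add (h1.scale l y hl hy) (h2.scale l y hl hy)

lemma NN.smul {ψ : ℝ → ℝ} (h1 : NN m ψ) {c : ℝ} (hc : 0 ≤ c) : NN m (fun y => c * ψ y) := by
  obtain ⟨C, hC0, hC⟩ := h1.bd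
  refine ⟨h1.meas.const_mul c, fun y hy => mul_nonneg hc (h1.nonneg y hy),
    ⟨c * C, mul_nonneg hc hC0, fun y hy => ?_⟩,
    fun x y hx hxy => mul_le_mul_of_nonneg_left (h1.mono x y hx hxy) hc, fun l y hl hy => ?_⟩
  · rw [mul_assoc]; exact mul_le_mul_of_nonneg_left (hC y hy) hc
  · have := mul_le_mul_of_nonneg_left (h1.scale l y hl hy) hc
    linarith

lemma NN.sum {ι : Type*} (s : Finset ι) {ψ : ι → ℝ → ℝ} (h : ∀ i ∈ s, NN m (ψ i)) :
    NN m (fun y => ∑ i ∈ s, ψ i y) := by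
  classical
  induction s using Finset.induction_on with
  | empty => simpa using NN.zero
  | insert i s hi ih =>
    have h1 := (h i (Finset.mem_insert_self i s)).add
      (ih fun j hj => h j (Finset.mem_insert_of_mem hj))
    simpa only [Finset.sum_insert hi] using h1

/-- The basic test functions. -/
lemma NN.basic {i : ℕ} (hi : i + 1 ≤ m + 1) :
    NN m (fun y => y ^ (m + 1) * ((1 + y) ^ (i + 1))⁻¹) := by
  have hmeas : Measurable (fun y : ℝ => y ^ (m + 1) * ((1 + y) ^ (i + 1))⁻¹) :=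
    (measurable_id.pow_const _).mul
      (((measurable_const.add measurable_id).pow_const _).inv)
  refine ⟨hmeas, fun y hy => by positivity, ⟨1, zero_le_one, fun y hy => ?_⟩,
    fun x y hx hxy => ?_, fun l y hl hy => ?_⟩
  · rw [one_mul, div_eq_mul_inv]
    apply mul_le_mul_of_nonneg_left _ (by positivity)
    apply inv_anti₀ (by positivity)
    calc 1 + y = (1 + y) ^ 1 := (pow_one _).symm
      _ ≤ (1 + y) ^ (i + 1) := pow_le_pow_right₀ (by linarith) (by omega)
  · have e : ∀ t : ℝ, 0 ≤ t → t ^ (m + 1) * ((1 + t) ^ (i + 1))⁻¹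
        = (t / (1 + t)) ^ (i + 1) * t ^ (m - i) := by
      intro t ht
      have h1 : t ^ (m + 1) = t ^ (i + 1) * t ^ (m - i) := by
        rw [← pow_add]; congr 1; omega
      rw [h1, div_pow]
      field_simp
    rw [e x hx, e y (hx.trans hxy)]
    have hy := hx.trans hxy
    have h2 : x / (1 + x) ≤ y / (1 + y) := by
      rw [div_le_div_iff₀ (by linarith) (by linarith)]; nlinarith
    exact mul_le_mul (pow_le_pow_left₀ (by positivity) h2 _) (pow_le_pow_left₀ hx hxy _)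
      (by positivity) (by positivity)
  · have hly : y ≤ l * y := by nlinarith
    have h1 : ((1 + l * y) ^ (i + 1))⁻¹ ≤ ((1 + y) ^ (i + 1))⁻¹ := by
      apply inv_anti₀ (by positivity)
      exact pow_le_pow_left₀ (by linarith) (by linarith) _
    rw [mul_pow, mul_assoc, ← mul_assoc]
    rw [mul_assoc]
    apply mul_le_mul_of_nonneg_left _ (by positivity)
    exact mul_le_mul_of_nonneg_left h1 (by positivity)

lemma inv_expand2 (k : ℕ) (hk : 1 ≤ k) : ∃ b : ℕ → ℝ, b 0 = 1 ∧ (∀ j, 0 ≤ b j) ∧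
    ∀ N, ∃ c : ℕ → ℝ, (∀ i, 0 ≤ c i) ∧ ∀ y : ℝ, 0 ≤ y →
      ((1 + y) ^ k)⁻¹ - ∑ j ∈ Finset.range N, b j * (-y) ^ j
        = (-y) ^ N * ∑ i ∈ Finset.range k, c i * ((1 + y) ^ (i + 1))⁻¹ := by
  induction k, hk using Nat.le_induction with
  | base =>
    refine ⟨fun _ => 1, rfl, fun _ => zero_le_one, fun N => ⟨fun _ => 1, fun _ => zero_le_one,
      fun y hy => ?_⟩⟩
    have h := geom_one y N
    have hy1 : 0 < 1 + y := by linarith
    rw [Finset.sum_range_one]
    have h2 : ((1 + y) ^ 1)⁻¹ - ∑ j ∈ Finset.range N, (1 : ℝ) * (-y) ^ j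
        = (-y) ^ N / (1 + y) := by
      rw [eq_div_iff hy1.ne', sub_mul, mul_comm _ (1 + y), mul_comm _ (1 + y), h, pow_one,
        mul_inv_cancel₀ hy1.ne']
      ring
    rw [h2]
    simp [div_eq_mul_inv]
  | succ k hk ih =>
    obtain ⟨b, hb0, hb, hN⟩ := ih
    refine ⟨fun n => ∑ j ∈ Finset.range (n + 1), b j, by simp [hb0],
      fun n => Finset.sum_nonneg fun j _ => hb j, fun N => ?_⟩
    obtain ⟨c, hc, h⟩ := hN N
    have hB : 0 ≤ ∑ j ∈ Finset.range N, b j := Finset.sum_nonneg fun j _ => hb j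
    refine ⟨fun i => Nat.casesOn i (∑ j ∈ Finset.range N, b j) c, fun i => ?_, fun y hy => ?_⟩
    · cases i with
      | zero => exact hB
      | succ i => exact hc i
    have hy1 : 0 < 1 + y := by linarith
    have h1 := h y hy
    have h2 := geom_mul b y N
    set S' := ∑ n ∈ Finset.range N, (∑ j ∈ Finset.range (n + 1), b j) * (-y) ^ n with hS'
    set T := ∑ n ∈ Finset.range N, b n * (-y) ^ n with hT
    set B := ∑ j ∈ Finset.range N, b j with hBdef
    have h3 : ((1 + y) ^ (k + 1))⁻¹ - S'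
        = ((((1 + y) ^ k)⁻¹ - T) + B * (-y) ^ N) / (1 + y) := by
      rw [eq_div_iff hy1.ne', sub_mul, mul_comm S', h2, pow_succ, mul_inv, mul_assoc,
        inv_mul_cancel₀ hy1.ne']
      ring
    rw [h3, h1, Finset.sum_range_succ']
    have e : ∑ i ∈ Finset.range k, c i * ((1 + y) ^ (i + 1 + 1))⁻¹
        = (∑ i ∈ Finset.range k, c i * ((1 + y) ^ (i + 1))⁻¹) / (1 + y) := by
      rw [Finset.sum_div]
      apply Finset.sum_congr rfl
      intro i _
      rw [pow_succ, mul_inv, div_eq_mul_inv, mul_assoc]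
    change _ = (-y) ^ N * (∑ i ∈ Finset.range k, c i * ((1 + y) ^ (i + 1 + 1))⁻¹
      + B * ((1 + y) ^ (0 + 1))⁻¹)
    rw [e, zero_add, pow_one, div_eq_mul_inv, div_eq_mul_inv]
    ring

/-! ### the logarithmic remainder -/

/-- `|E_m|`. -/
def ee (m : ℕ) (y : ℝ) : ℝ := (-1) ^ m * logE m y

lemma hasDerivAt_ee {y : ℝ} (hy : 0 ≤ y) : HasDerivAt (ee m) (y ^ m / (1 + y)) y := by
  have h := (hasDerivAt_logE m hy).const_mul ((-1 : ℝ) ^ m)
  refine h.congr_deriv ?_
  rw [neg_pow y m, mul_div_assoc', ← mul_assoc, ← mul_pow]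
  norm_num

lemma ee_zero : ee m 0 = 0 := by simp [ee, logE]

lemma mono_of_deriv {F F' : ℝ → ℝ} (h : ∀ x, 0 ≤ x → HasDerivAt F (F' x) x)
    (hF : ∀ x, 0 ≤ x → 0 ≤ F' x) {x y : ℝ} (hx : 0 ≤ x) (hxy : x ≤ y) : F x ≤ F y := by
  have hmono : MonotoneOn F (Set.Ici 0) := by
    apply monotoneOn_of_deriv_nonneg (convex_Ici 0)
    · exact fun x hx => (h x hx).continuousAt.continuousWithinAt
    · intro x hx
      rw [interior_Ici] at hx
      exact (h x (le_of_lt hx)).differentiableAt.differentiableWithinAt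
    · intro x hx
      rw [interior_Ici] at hx
      rw [(h x (le_of_lt hx)).deriv]
      exact hF x (le_of_lt hx)
  exact hmono (Set.mem_Ici.2 hx) (Set.mem_Ici.2 (hx.trans hxy)) hxy

lemma ee_mono {x y : ℝ} (hx : 0 ≤ x) (hxy : x ≤ y) : ee m x ≤ ee m y :=
  mono_of_deriv (fun x hx => hasDerivAt_ee hx) (fun x hx => by positivity) hx hxy

lemma ee_nonneg {y : ℝ} (hy : 0 ≤ y) : 0 ≤ ee m y := by
  have := ee_mono (m := m) le_rfl hy
  rwa [ee_zero] at this

lemma ee_scale {l y : ℝ} (hl : 1 ≤ l) (hy : 0 ≤ y) : ee m (l * y) ≤ l ^ (m + 1) * ee m y := by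
  have hl0 : 0 ≤ l := by linarith
  have h := mono_of_deriv (F := fun y => l ^ (m + 1) * ee m y - ee m (l * y))
    (F' := fun y => l ^ (m + 1) * (y ^ m / (1 + y)) - (l * y) ^ m / (1 + l * y) * l)
    (fun x hx => by
      have h1 := (hasDerivAt_ee (m := m) hx).const_mul (l ^ (m + 1))
      have h2 : HasDerivAt (fun y : ℝ => l * y) l x := by
        simpa using (hasDerivAt_id x).const_mul l
      have h3 := (hasDerivAt_ee (m := m) (y := l * x) (by positivity)).comp x h2
      exact h1.sub h3)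
    (fun x hx => by
      have e : l ^ (m + 1) * (x ^ m / (1 + x)) - (l * x) ^ m / (1 + l * x) * l
          = l ^ (m + 1) * x ^ m * (1 / (1 + x) - 1 / (1 + l * x)) := by
        rw [mul_pow, pow_succ]; ring
      rw [e]
      have : 1 / (1 + l * x) ≤ 1 / (1 + x) :=
        one_div_le_one_div_of_le (by linarith) (by nlinarith)
      have h0 : 0 ≤ l ^ (m + 1) * x ^ m := by positivity
      exact mul_nonneg h0 (by linarith))
    (le_refl (0 : ℝ)) hy
  simp only [mul_zero, ee_zero, sub_zero] at h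
  linarith

lemma ee_ge {y : ℝ} (hy : 0 ≤ y) : y ^ (m + 1) / (1 + y) ≤ ((m : ℝ) + 1) * ee m y := by
  have h := mono_of_deriv (F := fun y => ((m : ℝ) + 1) * ee m y - y ^ (m + 1) / (1 + y))
    (F' := fun y => ((m : ℝ) + 1) * (y ^ m / (1 + y))
      - ((((m : ℝ) + 1) * y ^ m * (1 + y) - y ^ (m + 1)) / (1 + y) ^ 2))
    (fun x hx => by
      have h1 := (hasDerivAt_ee (m := m) hx).const_mul ((m : ℝ) + 1)
      have hx1 : 0 < 1 + x := by linarith
      have h2 := ((hasDerivAt_id x).pow (m + 1)).div ((hasDerivAt_id x).const_add 1) hx1.ne'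
      have h3 : HasDerivAt (fun x : ℝ => x ^ (m + 1) / (1 + x))
          ((((m : ℝ) + 1) * x ^ m * (1 + x) - x ^ (m + 1)) / (1 + x) ^ 2) x := by
        refine h2.congr_deriv ?_
        simp
      exact h1.sub h3)
    (fun x hx => by
      have hx1 : 0 < 1 + x := by linarith
      have e : ((m : ℝ) + 1) * (x ^ m / (1 + x))
          - ((((m : ℝ) + 1) * x ^ m * (1 + x) - x ^ (m + 1)) / (1 + x) ^ 2)
          = x ^ (m + 1) / (1 + x) ^ 2 := by
        field_simp
        ring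
      rw [e]
      positivity)
    (le_refl (0 : ℝ)) hy
  simp only [ee_zero, mul_zero] at h
  rw [zero_pow (Nat.succ_ne_zero m), zero_div, sub_zero] at h
  linarith

lemma NN.ee (hm : 1 ≤ m) : NN m (ee m) := by
  refine ⟨?_, fun y hy => ee_nonneg hy, ⟨1, zero_le_one, fun y hy => ?_⟩,
    fun x y hx hxy => ee_mono hx hxy, fun l y hl hy => ee_scale hl hy⟩
  · unfold DH.ee logE
    apply Measurable.const_mul
    apply Measurable.add
    · exact Real.measurable_log.comp (measurable_const.add measurable_id)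
    · apply Finset.measurable_sum
      intro k _
      exact (measurable_id.neg.pow_const _).div_const _
  · rw [one_mul]
    refine le_trans ?_ (logE_le m hm hy)
    unfold DH.ee
    calc (-1 : ℝ) ^ m * logE m y ≤ |(-1 : ℝ) ^ m * logE m y| := le_abs_self _
      _ = |logE m y| := by rw [abs_mul, abs_pow, abs_neg, abs_one, one_pow, one_mul]

end

end Pool.Agent.H741R4.DH
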