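import Pool.Agent.H741R4.DH13

/-!
Derrida-Hilhorst singularity, part 14: reduction of the exponent to a singular functional.
-/

open MeasureTheory ProbabilityTheory Filter Topology Asymptotics

namespace Pool.Agent.H741R4.DH

noncomputable section

variable {Ω : Type*} [mΩ : MeasurableSpace Ω] {P : Measure Ω} {Z : ℕ → Ω → ℝ} {α δ : ℝ} {m : ℕ}

/-- `Λ(ψ(a x))`. -/
def Sg (P : Measure Ω) (Z : ℕ → Ω → ℝ) (ψ : ℝ → ℝ) (a : ℝ) : ℝ := Lam P Z a (fun x => ψ (a * x))

lemma NN.le_pow {ψ : ℝ → ℝ} (h : NN m ψ) : ∃ C, 0 ≤ C ∧ ∀ a x, 0 < a → 0 ≤ x →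
    |ψ (a * x)| ≤ C * a ^ m * (1 + x) ^ m := by
  obtain ⟨C, hC0, hC⟩ := h.bd
  refine ⟨C, hC0, fun a x ha hx => ?_⟩
  have hax : 0 ≤ a * x := by positivity
  rw [abs_of_nonneg (h.nonneg _ hax)]
  have h1 : (a * x) ^ (m + 1) / (1 + a * x) ≤ (a * x) ^ m := by
    rw [div_le_iff₀ (by positivity), pow_succ]
    have : 0 ≤ (a * x) ^ m := by positivity
    nlinarith
  have h2 : (a * x) ^ m ≤ a ^ m * (1 + x) ^ m := by
    rw [mul_pow]
    exact mul_le_mul_of_nonneg_left (pow_le_pow_left₀ hx (by linarith) m) (by positivity)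
  calc ψ (a * x) ≤ C * ((a * x) ^ (m + 1) / (1 + a * x)) := hC _ hax
    _ ≤ C * (a ^ m * (1 + x) ^ m) := mul_le_mul_of_nonneg_left (h1.trans h2) hC0
    _ = _ := by ring

lemma NN.cl {ψ : ℝ → ℝ} (h : NN m ψ) (hm : (m : ℝ) ≤ α) {a : ℝ} (ha : 0 < a) :
    Cl α (fun x => ψ (a * x)) := by
  obtain ⟨C, hC0, hC⟩ := h.le_pow
  exact ((cl_nV hm).const_mul (C * a ^ m)).of_le
    (h.meas.comp (measurable_const.mul measurable_id)) fun x hx => hC a x ha hx

namespace Setup

lemma Vm_bound (S : Setup P Z α) (hm : (m : ℝ) < α) :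
    ∃ C, 0 ≤ C ∧ ∀ a, 0 < a → a ≤ 1 → Lam P Z a (fun x => (1 + x) ^ m) ≤ C := by
  rcases Nat.eq_zero_or_pos m with rfl | h
  · refine ⟨1, zero_le_one, fun a ha ha1 => ?_⟩
    simp only [pow_zero]
    rw [S.Lam_const]
  · have h1 := S.V_bound (s := m) (by exact_mod_cast h) hm
    simpa only [Real.rpow_natCast] using h1

lemma Sg_add (S : Setup P Z α) (hm : (m : ℝ) ≤ α) {a : ℝ} (ha : 0 < a) (ha1 : a ≤ 1)
    {ψ χ : ℝ → ℝ} (hψ : NN m ψ) (hχ : NN m χ) :
    Sg P Z (fun y => ψ y + χ y) a = Sg P Z ψ a + Sg P Z χ a :=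
  S.Lam_add ha ha1 (hψ.cl hm ha) (hχ.cl hm ha)

lemma Sg_smul (S : Setup P Z α) (hm : (m : ℝ) ≤ α) {a : ℝ} (ha : 0 < a) (ha1 : a ≤ 1)
    {ψ : ℝ → ℝ} (hψ : NN m ψ) (c : ℝ) : Sg P Z (fun y => c * ψ y) a = c * Sg P Z ψ a :=
  S.Lam_const_mul ha ha1 (hψ.cl hm ha) c

lemma Sg_sum (S : Setup P Z α) (hm : (m : ℝ) ≤ α) {a : ℝ} (ha : 0 < a) (ha1 : a ≤ 1)
    {ι : Type*} (s : Finset ι) {ψ : ι → ℝ → ℝ} (hψ : ∀ i ∈ s, NN m (ψ i)) :
    Sg P Z (fun y => ∑ i ∈ s, ψ i y) a = ∑ i ∈ s, Sg P Z (ψ i) a :=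
  S.Lam_sum ha ha1 s (f := fun i x => ψ i (a * x)) (fun i hi => (hψ i hi).cl hm ha)

/-- The relation for `M_k`. -/
lemma relN (S : Setup P Z α) (hm : (m : ℝ) < α) {k : ℕ} (hk1 : 1 ≤ k) (hkm : k ≤ m) :
    ∃ b : ℕ → ℝ, (∀ j, 0 ≤ b j) ∧ ∃ χ : ℝ → ℝ, NN m χ ∧ ∃ D : ℝ → ℝ,
      (D =O[𝓝[>] 0] (fun a : ℝ => a ^ (m - k))) ∧
      ((fun a => (-a) ^ k * D a - (-1) ^ (m + 1) * Sg P Z χ a)
        =O[𝓝[>] 0] (fun a : ℝ => a ^ (m + 1))) ∧
      ∀ a, 0 < a → a ≤ 1 → Mk P Z k a
        = rk P Z k * ∑ i ∈ Finset.range k, (k.choose i : ℝ) * Mk P Z i a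
          + ∑ j ∈ Finset.range (m - k), rk P Z k * b j * ((-a) ^ (j + 1) *
            ∑ i ∈ Finset.range (k + 1), (k.choose i : ℝ) * Mk P Z (i + (j + 1)) a)
          + rk P Z k * D a := by
  obtain ⟨b, hb0, hb, hN⟩ := inv_expand2 k hk1
  obtain ⟨c, hc0, hc⟩ := hN (m - k + 1)
  obtain ⟨C, hC0, hC⟩ := S.Vm_bound hm
  have hkm' : (k : ℝ) ≤ m := by exact_mod_cast hkm
  have hkα : (k : ℝ) < α := lt_of_le_of_lt hkm' hm
  set g : ℝ → ℝ := fun y => ∑ i ∈ Finset.range k, c i * ((1 + y) ^ (i + 1))⁻¹ with hg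
  set Cg : ℝ := ∑ i ∈ Finset.range k, c i with hCg
  have hCg0 : 0 ≤ Cg := Finset.sum_nonneg fun i _ => hc0 i
  have hg0 : ∀ y, 0 ≤ y → 0 ≤ g y := fun y hy =>
    Finset.sum_nonneg fun i _ => mul_nonneg (hc0 i) (by positivity)
  have hg1 : ∀ y, 0 ≤ y → g y ≤ Cg * (1 / (1 + y)) := by
    intro y hy
    rw [hg, hCg, Finset.sum_mul]
    apply Finset.sum_le_sum
    intro i _
    apply mul_le_mul_of_nonneg_left _ (hc0 i)
    rw [one_div]
    apply inv_anti₀ (by positivity)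
    calc 1 + y = (1 + y) ^ 1 := (pow_one _).symm
      _ ≤ (1 + y) ^ (i + 1) := pow_le_pow_right₀ (by linarith) (by omega)
  have hgm : Measurable g := by
    rw [hg]
    apply Finset.measurable_sum
    intro i _
    exact (((measurable_const.add measurable_id).pow_const _).inv).const_mul _
  -- the singular test function
  set χ : ℝ → ℝ := fun y => ∑ i ∈ Finset.range k, c i * (y ^ (m + 1) * ((1 + y) ^ (i + 1))⁻¹)
    with hχ
  have hχN : NN m χ := NN.sum _ fun i hi =>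
    (NN.basic (by have := Finset.mem_range.1 hi; omega)).smul (hc0 i)
  have hχg : ∀ y, χ y = y ^ (m + 1) * g y := by
    intro y
    simp only [hχ, hg, Finset.mul_sum]
    apply Finset.sum_congr rfl
    intro i _
    ring
  -- the remainder
  set ρ : ℝ → ℝ → ℝ := fun a x => (1 + x) ^ k * ((-(a * x)) ^ (m - k + 1) * g (a * x)) with hρ
  set D : ℝ → ℝ := fun a => Lam P Z a (ρ a) with hD
  have hρm : ∀ a, Measurable (ρ a) := by
    intro a
    exact ((measurable_const.add measurable_id).pow_const _).mul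
      (((measurable_const.mul measurable_id).neg.pow_const _).mul
        (hgm.comp (measurable_const.mul measurable_id)))
  have hρb : ∀ a x, 0 < a → 0 ≤ x → |ρ a x| ≤ Cg * a ^ (m - k) * (1 + x) ^ m := by
    intro a x ha hx
    have hax : 0 ≤ a * x := by positivity
    simp only [hρ]
    rw [abs_mul, abs_mul, abs_of_nonneg (by positivity : 0 ≤ (1 + x) ^ k), abs_pow, abs_neg,
      abs_of_nonneg hax, abs_of_nonneg (hg0 _ hax)]
    have h1 := hg1 (a * x) hax
    have h2 : (a * x) ^ (m - k + 1) * g (a * x) ≤ Cg * (a * x) ^ (m - k) := by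
      have h3 : (a * x) ^ (m - k + 1) * g (a * x)
          ≤ (a * x) ^ (m - k + 1) * (Cg * (1 / (1 + a * x))) :=
        mul_le_mul_of_nonneg_left h1 (by positivity)
      refine h3.trans ?_
      have e : (a * x) ^ (m - k + 1) * (Cg * (1 / (1 + a * x)))
          = Cg * (a * x) ^ (m - k) * ((a * x) / (1 + a * x)) := by
        rw [pow_succ]; ring
      rw [e]
      have h4 : (a * x) / (1 + a * x) ≤ 1 := by
        rw [div_le_one (by positivity)]; linarith
      have h5 : 0 ≤ Cg * (a * x) ^ (m - k) := by positivity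
      nlinarith
    have hpk : (1 + x) ^ m = (1 + x) ^ k * (1 + x) ^ (m - k) := by
      rw [← pow_add]; congr 1; omega
    calc (1 + x) ^ k * ((a * x) ^ (m - k + 1) * g (a * x))
        ≤ (1 + x) ^ k * (Cg * (a * x) ^ (m - k)) := mul_le_mul_of_nonneg_left h2 (by positivity)
      _ = (1 + x) ^ k * Cg * a ^ (m - k) * x ^ (m - k) := by rw [mul_pow]; ring
      _ ≤ (1 + x) ^ k * Cg * a ^ (m - k) * (1 + x) ^ (m - k) := by
          apply mul_le_mul_of_nonneg_left (pow_le_pow_left₀ hx (by linarith) _) (by positivity)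
      _ = _ := by rw [hpk]; ring
  have hρcl : ∀ a, 0 < a → Cl α (ρ a) := fun a ha =>
    ((cl_nV hm.le).const_mul (Cg * a ^ (m - k))).of_le (hρm a) fun x hx => hρb a x ha hx
  refine ⟨fun j => b (j + 1), fun j => hb _, χ, hχN, D, ?_, ?_, ?_⟩
  · refine IsBigO.of_bound (Cg * C) ?_
    filter_upwards [ev_Ioc] with a ha
    have h1 := S.Lam_abs_le ha.1 ha.2 (hρcl a ha.1)
      ((cl_nV hm.le).const_mul (Cg * a ^ (m - k))) (fun x hx => hρb a x ha.1 hx)
    rw [S.Lam_const_mul ha.1 ha.2 (cl_nV hm.le)] at h1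
    have ha0 := ha.1
    rw [Real.norm_eq_abs, Real.norm_eq_abs, abs_of_nonneg (by positivity : 0 ≤ a ^ (m - k))]
    refine h1.trans ?_
    have := mul_le_mul_of_nonneg_left (hC a ha.1 ha.2)
      (by positivity : 0 ≤ Cg * a ^ (m - k))
    linarith
  · refine IsBigO.of_bound (k * Cg * C) ?_
    filter_upwards [ev_Ioc] with a ha
    have ha0 := ha.1
    have hcl1 := hρcl a ha.1
    have hcl2 := hχN.cl hm.le ha.1
    have e1 : (-a) ^ k * D a - (-1) ^ (m + 1) * Sg P Z χ a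
        = Lam P Z a (fun x => (-a) ^ k * ρ a x - (-1) ^ (m + 1) * χ (a * x)) := by
      rw [S.Lam_sub ha.1 ha.2 (hcl1.const_mul _) (hcl2.const_mul _),
        S.Lam_const_mul ha.1 ha.2 hcl1, S.Lam_const_mul ha.1 ha.2 hcl2]
      rfl
    have hpt : ∀ x : ℝ, 0 ≤ x → |(-a) ^ k * ρ a x - (-1) ^ (m + 1) * χ (a * x)|
        ≤ (k * Cg * a ^ (m + 1)) * (1 + x) ^ m := by
      intro x hx
      have hax : 0 ≤ a * x := by positivity
      have e2 : (-a) ^ k * ρ a x - (-1) ^ (m + 1) * χ (a * x)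
          = (-a) ^ k * (-(a * x)) ^ (m - k + 1) * g (a * x) * ((1 + x) ^ k - x ^ k) := by
        rw [hχg]
        simp only [hρ]
        have e3 : (-1 : ℝ) ^ (m + 1) * ((a * x) ^ (m + 1) * g (a * x))
            = (-a) ^ k * x ^ k * (-(a * x)) ^ (m - k + 1) * g (a * x) := by
          have h1 : (-1 : ℝ) ^ (m + 1) * (a * x) ^ (m + 1) = (-(a * x)) ^ (m + 1) := by
            rw [← mul_pow]; ring_nf
          have h2 : (-(a * x)) ^ (m + 1) = (-(a * x)) ^ k * (-(a * x)) ^ (m - k + 1) := by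
            rw [← pow_add]; congr 1; omega
          have h3 : (-(a * x)) ^ k = (-a) ^ k * x ^ k := by
            rw [← mul_pow]; ring_nf
          rw [← mul_assoc, h1, h2, h3]
        rw [e3]
        ring
      have hdiff : 0 ≤ (1 + x) ^ k - x ^ k ∧ (1 + x) ^ k - x ^ k ≤ k * (1 + x) ^ (k - 1) := by
        constructor
        · have := pow_le_pow_left₀ hx (by linarith : x ≤ 1 + x) k
          linarith
        · have h := V_sub_x_le (α := (k : ℝ)) (by exact_mod_cast hk1) hx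
          have e4 : (k : ℝ) - 1 = ((k - 1 : ℕ) : ℝ) := by
            rw [Nat.cast_sub hk1, Nat.cast_one]
          rw [e4] at h
          simpa only [Real.rpow_natCast] using h
      rw [e2, abs_mul, abs_mul, abs_mul, abs_pow, abs_pow, abs_neg, abs_neg, abs_of_pos ha0,
        abs_of_nonneg hax, abs_of_nonneg (hg0 _ hax), abs_of_nonneg hdiff.1]
      have h1 : g (a * x) ≤ Cg := by
        refine (hg1 _ hax).trans ?_
        have : 1 / (1 + a * x) ≤ 1 := by
          rw [div_le_one (by positivity)]; linarith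
        nlinarith
      have hpk : (1 + x) ^ m = (1 + x) ^ (k - 1) * (1 + x) ^ (m - k + 1) := by
        rw [← pow_add]; congr 1; omega
      have hak : a ^ (m + 1) = a ^ k * a ^ (m - k + 1) := by
        rw [← pow_add]; congr 1; omega
      have hx1 : x ^ (m - k + 1) ≤ (1 + x) ^ (m - k + 1) := pow_le_pow_left₀ hx (by linarith) _
      calc a ^ k * (a * x) ^ (m - k + 1) * g (a * x) * ((1 + x) ^ k - x ^ k)
          ≤ a ^ k * (a * x) ^ (m - k + 1) * Cg * (k * (1 + x) ^ (k - 1)) := by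
            apply mul_le_mul _ hdiff.2 hdiff.1 (by positivity)
            exact mul_le_mul_of_nonneg_left h1 (by positivity)
        _ = (k * Cg * (a ^ k * a ^ (m - k + 1)) * (1 + x) ^ (k - 1)) * x ^ (m - k + 1) := by
            rw [mul_pow]; ring
        _ ≤ (k * Cg * (a ^ k * a ^ (m - k + 1)) * (1 + x) ^ (k - 1)) * (1 + x) ^ (m - k + 1) :=
            mul_le_mul_of_nonneg_left hx1 (by positivity)
        _ = _ := by rw [hpk, hak]; ring
    rw [e1, Real.norm_eq_abs, Real.norm_eq_abs, abs_of_nonneg (by positivity : 0 ≤ a ^ (m + 1))]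
    have h1 := S.Lam_abs_le ha.1 ha.2 ((hcl1.const_mul _).sub (hcl2.const_mul _))
      ((cl_nV hm.le).const_mul (k * Cg * a ^ (m + 1))) hpt
    rw [S.Lam_const_mul ha.1 ha.2 (cl_nV hm.le)] at h1
    refine h1.trans ?_
    have := mul_le_mul_of_nonneg_left (hC a ha.1 ha.2)
      (by positivity : 0 ≤ k * Cg * a ^ (m + 1))
    linarith
  · intro a ha ha1
    have hcl : ∀ j ∈ Finset.range (m - k + 1), Cl α (fun x : ℝ => x ^ j * (1 + x) ^ k) := by
      intro j hj
      apply cl_xV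
      have := Finset.mem_range.1 hj
      exact le_trans (by exact_mod_cast (by omega : j + k ≤ m)) hm.le
    have hclS := cl_sum S.α_pos.le (Finset.range (m - k + 1))
      (fun j hj => (hcl j hj).const_mul (b j * (-a) ^ j))
    have hW : Lam P Z a (fun x => (W a x) ^ k)
        = ∑ j ∈ Finset.range (m - k + 1), b j * (-a) ^ j *
          ∑ i ∈ Finset.range (k + 1), (k.choose i : ℝ) * Mk P Z (i + j) a + D a := by
      have hsum : ∑ j ∈ Finset.range (m - k + 1), b j * (-a) ^ j *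
            ∑ i ∈ Finset.range (k + 1), (k.choose i : ℝ) * Mk P Z (i + j) a
          = Lam P Z a (fun x => ∑ j ∈ Finset.range (m - k + 1),
              b j * (-a) ^ j * (x ^ j * (1 + x) ^ k)) := by
        rw [S.Lam_sum ha ha1 _ (fun j hj => (hcl j hj).const_mul _)]
        apply Finset.sum_congr rfl
        intro j hj
        have hjk : ((j + k : ℕ) : ℝ) ≤ α := by
          have := Finset.mem_range.1 hj
          exact le_trans (by exact_mod_cast (by omega : j + k ≤ m)) hm.le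
        rw [S.Lam_const_mul ha ha1 (hcl j hj), S.Lam_xV ha ha1 hjk]
      rw [hsum, ← S.Lam_add ha ha1 hclS (hρcl a ha)]
      apply S.Lam_congr ha ha1 (cl_nW ha hkα.le) (hclS.add (hρcl a ha))
      intro x hx
      have hax : 0 ≤ a * x := by positivity
      have h1 := hc (a * x) hax
      have e1 : (W a x) ^ k = (1 + x) ^ k * ((1 + a * x) ^ k)⁻¹ := by
        unfold W; rw [div_pow, div_eq_mul_inv]
      have e2 : ∑ j ∈ Finset.range (m - k + 1), b j * (-a) ^ j * (x ^ j * (1 + x) ^ k)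
          = (1 + x) ^ k * ∑ j ∈ Finset.range (m - k + 1), b j * (-(a * x)) ^ j := by
        rw [Finset.mul_sum]
        apply Finset.sum_congr rfl
        intro j _
        have : (-(a * x)) ^ j = (-a) ^ j * x ^ j := by rw [← mul_pow]; ring_nf
        rw [this]; ring
      rw [e1, e2]
      simp only [hρ, hg]
      rw [← h1]
      ring
    have hq : qk P Z k < 1 := S.qk_lt_one hk1 hkα
    have h1q : 1 - qk P Z k ≠ 0 := by linarith
    have hM := S.Mk_eq ha ha1 hkα.le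
    rw [hW, Finset.sum_range_succ', Finset.sum_range_succ] at hM
    simp only [add_zero, pow_zero, mul_one, hb0, one_mul, Nat.choose_self, Nat.cast_one] at hM
    have e : ∑ j ∈ Finset.range (m - k), rk P Z k * b (j + 1) * ((-a) ^ (j + 1) *
            ∑ i ∈ Finset.range (k + 1), (k.choose i : ℝ) * Mk P Z (i + (j + 1)) a)
        = rk P Z k * ∑ j ∈ Finset.range (m - k), b (j + 1) * (-a) ^ (j + 1) *
            ∑ i ∈ Finset.range (k + 1), (k.choose i : ℝ) * Mk P Z (i + (j + 1)) a := by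
      rw [Finset.mul_sum]
      apply Finset.sum_congr rfl
      intro j _
      ring
    rw [e]
    unfold rk
    field_simp
    linarith

end Setup

end

end Pool.Agent.H741R4.DH
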