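import Pool.Agent.H741R4.DH14

/-!
Derrida-Hilhorst singularity, part 15: the expansion up to the singular functional.
-/

open MeasureTheory ProbabilityTheory Filter Topology Asymptotics

namespace Pool.Agent.H741R4.DH

noncomputable section

variable {Ω : Type*} [mΩ : MeasurableSpace Ω] {P : Measure Ω} {Z : ℕ → Ω → ℝ} {α δ : ℝ} {m : ℕ}

namespace Setup

lemma Mk_bdd (S : Setup P Z α) (hm : (m : ℝ) < α) {k : ℕ} (hk : k ≤ m) : AE 0 (Mk P Z k) := by
  obtain ⟨C, hC0, hC⟩ := S.Vm_bound hm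
  refine AE.of_isBigO (IsBigO.of_bound C ?_)
  filter_upwards [ev_Ioc] with a ha
  have hk' : (k : ℝ) ≤ m := by exact_mod_cast hk
  have hkα : (k : ℝ) ≤ α := hk'.trans hm.le
  rw [Real.norm_eq_abs, abs_of_nonneg (S.Mk_nonneg ha.1 ha.2 hkα), pow_zero, norm_one, mul_one]
  refine le_trans ?_ (hC a ha.1 ha.2)
  apply S.Lam_mono ha.1 ha.2 (cl_npow hkα) (cl_nV hm.le)
  intro x hx
  calc x ^ k ≤ (1 + x) ^ k := pow_le_pow_left₀ hx (by linarith) k
    _ ≤ (1 + x) ^ m := pow_le_pow_right₀ (by linarith) hk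

/-- Lower moments have expansions. -/
lemma exp1n (S : Setup P Z α) (hm : (m : ℝ) < α) : ∀ N k, k + N ≤ m → AE N (Mk P Z k) := by
  intro N
  induction N using Nat.strong_induction_on with
  | _ N ihN =>
  intro k
  induction k using Nat.strong_induction_on with
  | _ k ihk =>
  intro hkN
  rcases Nat.eq_zero_or_pos k with rfl | hk
  · exact (AE.const N zero_le_one).congr (Eventually.of_forall fun a => (S.Mk_zero a).symm)
  · obtain ⟨b, hb, χ, hχ, D, hD, _, hrel⟩ := S.relN hm hk (by omega : k ≤ m)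
    have hkα : (k : ℝ) < α := lt_of_le_of_lt (by exact_mod_cast (by omega : k ≤ m)) hm
    have hr : 0 ≤ rk P Z k := (S.rk_pos hk hkα).le
    have h1 := (AE.of_isBigO (hD.trans (isBigO_pow_le (by omega : N ≤ m - k)))).smul hr
    have h2 : AE N (fun a => rk P Z k * ∑ i ∈ Finset.range k,
        (k.choose i : ℝ) * Mk P Z i a) :=
      (AE.sum _ fun i hi => (ihk i (Finset.mem_range.1 hi)
        (by have := Finset.mem_range.1 hi; omega)).smul (Nat.cast_nonneg _)).smul hr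
    have h3 : AE N (fun a => ∑ j ∈ Finset.range (m - k), rk P Z k * b j * ((-a) ^ (j + 1) *
          ∑ i ∈ Finset.range (k + 1), (k.choose i : ℝ) * Mk P Z (i + (j + 1)) a)) := by
      refine AE.sum _ fun j hj => AE.smul ?_ (mul_nonneg hr (hb j))
      have hj' := Finset.mem_range.1 hj
      have h4 : AE N (fun a => ∑ i ∈ Finset.range (k + 1),
          (k.choose i : ℝ) * ((-a) ^ (j + 1) * Mk P Z (i + (j + 1)) a)) := by
        refine AE.sum _ fun i hi => AE.smul ?_ (Nat.cast_nonneg _)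
        have hi' := Finset.mem_range.1 hi
        by_cases hjN : j + 1 ≤ N
        · have h5 := (ihN (N - (j + 1)) (by omega) (i + (j + 1)) (by omega)).shift (j + 1)
          rwa [Nat.sub_add_cancel hjN] at h5
        · exact ((S.Mk_bdd hm (k := i + (j + 1)) (by omega)).shift (j + 1)).mono
            (by omega : N ≤ 0 + (j + 1))
      refine h4.congr (Eventually.of_forall fun a => ?_)
      simp only [Finset.mul_sum]
      apply Finset.sum_congr rfl
      intro i _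
      ring
    refine ((h2.add h3).add h1).congr ?_
    filter_upwards [ev_Ioc] with a ha
    rw [hrel a ha.1 ha.2]

/-- The moments up to the singular part. -/
lemma expS (S : Setup P Z α) (hm : (m : ℝ) < α) : ∀ d k, 1 ≤ k → k + d = m →
    ∃ ψ, NN m ψ ∧ AE (m + 1) (fun a => (-a) ^ k * (Mk P Z k a - rk P Z k)
      - (-1) ^ (m + 1) * Sg P Z ψ a) := by
  intro d
  induction d using Nat.strong_induction_on with
  | _ d ih =>
  intro k hk hkd
  have hkm : k ≤ m := by omega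
  have hmk : m - k = d := by omega
  have hkα : (k : ℝ) < α := lt_of_le_of_lt (by exact_mod_cast hkm) hm
  obtain ⟨b, hb, χ, hχ, D, _, hD, hrel⟩ := S.relN hm hk hkm
  rw [hmk] at hrel
  have hr : 0 ≤ rk P Z k := (S.rk_pos hk hkα).le
  have hψ' : ∀ j, ∃ ψ, NN m ψ ∧ (j < d → AE (m + 1) (fun a =>
      (-a) ^ (k + (j + 1)) * (Mk P Z (k + (j + 1)) a - rk P Z (k + (j + 1)))
        - (-1) ^ (m + 1) * Sg P Z ψ a)) := by
    intro j
    by_cases hj : j < d
    · obtain ⟨ψ, hψ, h⟩ := ih (d - (j + 1)) (by omega) (k + (j + 1)) (by omega) (by omega)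
      exact ⟨ψ, hψ, fun _ => h⟩
    · exact ⟨fun _ => 0, NN.zero, fun h => absurd h hj⟩
  choose ψ hψN hψ using hψ'
  refine ⟨fun y => ∑ j ∈ Finset.range d, rk P Z k * b j * ψ j y + rk P Z k * χ y,
    (NN.sum _ fun j _ => (hψN j).smul (mul_nonneg hr (hb j))).add (hχ.smul hr), ?_⟩
  obtain ⟨k', rfl⟩ : ∃ k', k = k' + 1 := ⟨k - 1, by omega⟩
  have h1 := (AE.of_isBigO hD).smul hr
  have h2 : AE (m + 1) (fun a => rk P Z (k' + 1) * ∑ i ∈ Finset.range k',
      ((k' + 1).choose (i + 1) : ℝ) * ((-a) ^ (k' + 1) * Mk P Z (i + 1) a)) := by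
    refine (AE.sum _ fun i hi => AE.smul ?_ (Nat.cast_nonneg _)).smul hr
    have hi' := Finset.mem_range.1 hi
    have h5 := (S.exp1n hm (m - k') (i + 1) (by omega)).shift (k' + 1)
    have e : m - k' + (k' + 1) = m + 1 := by omega
    rwa [e] at h5
  have h3 : AE (m + 1) (fun a => ∑ j ∈ Finset.range d, rk P Z (k' + 1) * b j *
      (∑ i ∈ Finset.range (k' + 1), ((k' + 1).choose i : ℝ)
          * ((-a) ^ (k' + 1 + (j + 1)) * Mk P Z (i + (j + 1)) a)
        + (((-a) ^ (k' + 1 + (j + 1)) * (Mk P Z (k' + 1 + (j + 1)) a - rk P Z (k' + 1 + (j + 1)))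
            - (-1) ^ (m + 1) * Sg P Z (ψ j) a)
          + (-a) ^ (k' + 1 + (j + 1)) * rk P Z (k' + 1 + (j + 1))))) := by
    refine AE.sum _ fun j hj => AE.smul ?_ (mul_nonneg hr (hb j))
    have hj' := Finset.mem_range.1 hj
    refine AE.add (AE.sum _ fun i hi => AE.smul ?_ (Nat.cast_nonneg _)) (AE.add ?_ ?_)
    · have hi' := Finset.mem_range.1 hi
      have h5 := (S.exp1n hm (d - j) (i + (j + 1)) (by omega)).shift (k' + 1 + (j + 1))
      have e : d - j + (k' + 1 + (j + 1)) = m + 1 := by omega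
      rwa [e] at h5
    · exact hψ j hj'
    · have hr2 : 0 ≤ rk P Z (k' + 1 + (j + 1)) :=
        (S.rk_pos (by omega) (lt_of_le_of_lt
          (by exact_mod_cast (by omega : k' + 1 + (j + 1) ≤ m)) hm)).le
      exact ((AE.const (m + 1) hr2).shift (k' + 1 + (j + 1))).mono (by omega)
  refine ((h1.add h2).add h3).congr ?_
  filter_upwards [ev_Ioc] with a ha
  have hS1 : Sg P Z (fun y => ∑ j ∈ Finset.range d, rk P Z (k' + 1) * b j * ψ j y
      + rk P Z (k' + 1) * χ y) a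
      = ∑ j ∈ Finset.range d, rk P Z (k' + 1) * b j * Sg P Z (ψ j) a
        + rk P Z (k' + 1) * Sg P Z χ a := by
    rw [S.Sg_add hm.le ha.1 ha.2 (NN.sum _ fun j _ => (hψN j).smul (mul_nonneg hr (hb j)))
      (hχ.smul hr), S.Sg_sum hm.le ha.1 ha.2 _ (fun j _ => (hψN j).smul (mul_nonneg hr (hb j))),
      S.Sg_smul hm.le ha.1 ha.2 hχ]
    congr 1
    apply Finset.sum_congr rfl
    intro j _
    rw [S.Sg_smul hm.le ha.1 ha.2 (hψN j)]
  have hM := hrel a ha.1 ha.2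
  have e1 : ∑ i ∈ Finset.range (k' + 1), ((k' + 1).choose i : ℝ) * Mk P Z i a
      = ∑ i ∈ Finset.range k', ((k' + 1).choose (i + 1) : ℝ) * Mk P Z (i + 1) a + 1 := by
    rw [Finset.sum_range_succ', Nat.choose_zero_right, S.Mk_zero]; simp
  have e2 : ∀ j ∈ Finset.range d, rk P Z (k' + 1) * b j *
      (∑ i ∈ Finset.range (k' + 1), ((k' + 1).choose i : ℝ)
          * ((-a) ^ (k' + 1 + (j + 1)) * Mk P Z (i + (j + 1)) a)
        + (((-a) ^ (k' + 1 + (j + 1)) * (Mk P Z (k' + 1 + (j + 1)) a - rk P Z (k' + 1 + (j + 1)))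
            - (-1) ^ (m + 1) * Sg P Z (ψ j) a)
          + (-a) ^ (k' + 1 + (j + 1)) * rk P Z (k' + 1 + (j + 1))))
      = (-a) ^ (k' + 1) * (rk P Z (k' + 1) * b j * ((-a) ^ (j + 1) *
        ∑ i ∈ Finset.range (k' + 1 + 1), ((k' + 1).choose i : ℝ) * Mk P Z (i + (j + 1)) a))
        - (-1) ^ (m + 1) * (rk P Z (k' + 1) * b j * Sg P Z (ψ j) a) := by
    intro j hj
    rw [Finset.sum_range_succ _ (k' + 1), Nat.choose_self, pow_add (-a) (k' + 1) (j + 1)]
    have e3 : ∑ i ∈ Finset.range (k' + 1), ((k' + 1).choose i : ℝ)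
          * ((-a) ^ (k' + 1) * (-a) ^ (j + 1) * Mk P Z (i + (j + 1)) a)
        = (-a) ^ (k' + 1) * (-a) ^ (j + 1) * ∑ i ∈ Finset.range (k' + 1),
          ((k' + 1).choose i : ℝ) * Mk P Z (i + (j + 1)) a := by
      rw [Finset.mul_sum]
      apply Finset.sum_congr rfl
      intro i _
      ring
    rw [e3]
    push_cast
    ring
  have e4 : ∑ i ∈ Finset.range k', ((k' + 1).choose (i + 1) : ℝ)
        * ((-a) ^ (k' + 1) * Mk P Z (i + 1) a)
      = (-a) ^ (k' + 1) * ∑ i ∈ Finset.range k', ((k' + 1).choose (i + 1) : ℝ)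
        * Mk P Z (i + 1) a := by
    rw [Finset.mul_sum]
    apply Finset.sum_congr rfl
    intro i _
    ring
  rw [Finset.sum_congr rfl e2, Finset.sum_sub_distrib, ← Finset.mul_sum, ← Finset.mul_sum, hS1,
    hM, e1, e4]
  ring

lemma L_exact (S : Setup P Z α) (hm1 : 1 ≤ m) (hm : (m : ℝ) < α) {a : ℝ} (ha : 0 < a)
    (ha1 : a ≤ 1) :
    -Lf P Z a = ∑ k ∈ Finset.range m, (1 / ((k : ℝ) + 1)) * ((-a) ^ (k + 1) * Mk P Z (k + 1) a)
      + (-1) ^ (m + 1) * Sg P Z (ee m) a := by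
  have hcl : ∀ k ∈ Finset.range m, Cl α (fun x : ℝ => x ^ (k + 1)) := by
    intro k hk
    apply cl_npow
    have := Finset.mem_range.1 hk
    exact le_trans (by exact_mod_cast (by omega : k + 1 ≤ m)) hm.le
  have hlog := cl_log (α := α) ha S.hα
  have hee := (NN.ee hm1).cl hm.le ha
  have hclS := cl_sum S.α_pos.le (Finset.range m)
    (fun k hk => (hcl k hk).const_mul ((1 / ((k : ℝ) + 1)) * (-a) ^ (k + 1)))
  have hsum : ∑ k ∈ Finset.range m, (1 / ((k : ℝ) + 1)) * ((-a) ^ (k + 1) * Mk P Z (k + 1) a)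
      = Lam P Z a (fun x => ∑ k ∈ Finset.range m,
          (1 / ((k : ℝ) + 1)) * (-a) ^ (k + 1) * x ^ (k + 1)) := by
    rw [S.Lam_sum ha ha1 _ (fun k hk => (hcl k hk).const_mul _)]
    apply Finset.sum_congr rfl
    intro k hk
    rw [S.Lam_const_mul ha ha1 (hcl k hk)]
    unfold Mk
    ring
  have h1 : Lf P Z a = Lam P Z a (fun x => (-1) ^ m * ee m (a * x)
      - ∑ k ∈ Finset.range m, (1 / ((k : ℝ) + 1)) * (-a) ^ (k + 1) * x ^ (k + 1)) := by
    unfold Lf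
    apply S.Lam_congr ha ha1 hlog ((hee.const_mul _).sub hclS)
    intro x hx
    have e1 : (-1 : ℝ) ^ m * ee m (a * x) = logE m (a * x) := by
      unfold ee
      rw [← mul_assoc, ← mul_pow]; norm_num
    rw [e1]
    unfold logE
    have e2 : ∑ k ∈ Finset.range m, (1 / ((k : ℝ) + 1)) * (-a) ^ (k + 1) * x ^ (k + 1)
        = ∑ k ∈ Finset.range m, (-(a * x)) ^ (k + 1) / ((k : ℝ) + 1) := by
      apply Finset.sum_congr rfl
      intro k _
      have : (-(a * x)) ^ (k + 1) = (-a) ^ (k + 1) * x ^ (k + 1) := by rw [← mul_pow]; ring_nf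
      rw [this]
      ring
    rw [e2]
    ring
  rw [h1, S.Lam_sub ha ha1 (hee.const_mul _) hclS, S.Lam_const_mul ha ha1 hee, hsum]
  unfold Sg
  rw [pow_succ]
  ring

/-- `-L` up to the singular part. -/
lemma expL (S : Setup P Z α) (hm1 : 1 ≤ m) (hm : (m : ℝ) < α) :
    ∃ ψ, NN m ψ ∧ (∀ y, 0 ≤ y → ee m y ≤ ψ y) ∧ AE (m + 1) (fun a => -Lf P Z a
      - ∑ k ∈ Finset.range m, (rk P Z (k + 1) / ((k : ℝ) + 1)) * (-a) ^ (k + 1)
      - (-1) ^ (m + 1) * Sg P Z ψ a) := by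
  have hψ' : ∀ k, ∃ ψ, NN m ψ ∧ (k < m → AE (m + 1) (fun a =>
      (-a) ^ (k + 1) * (Mk P Z (k + 1) a - rk P Z (k + 1)) - (-1) ^ (m + 1) * Sg P Z ψ a)) := by
    intro k
    by_cases hk : k < m
    · obtain ⟨ψ, hψ, h⟩ := S.expS hm (m - (k + 1)) (k + 1) (by omega) (by omega)
      exact ⟨ψ, hψ, fun _ => h⟩
    · exact ⟨fun _ => 0, NN.zero, fun h => absurd h hk⟩
  choose ψ hψN hψ using hψ'
  have hc0 : ∀ k : ℕ, (0 : ℝ) ≤ 1 / ((k : ℝ) + 1) := fun k => by positivity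
  have hsumN : NN m (fun y => ∑ k ∈ Finset.range m, (1 / ((k : ℝ) + 1)) * ψ k y) :=
    NN.sum _ fun k _ => (hψN k).smul (hc0 k)
  refine ⟨fun y => ∑ k ∈ Finset.range m, (1 / ((k : ℝ) + 1)) * ψ k y + ee m y,
    hsumN.add (NN.ee hm1), fun y hy => ?_, ?_⟩
  · have := hsumN.nonneg y hy
    linarith
  · have h2 : AE (m + 1) (fun a => ∑ k ∈ Finset.range m, (1 / ((k : ℝ) + 1)) *
        ((-a) ^ (k + 1) * (Mk P Z (k + 1) a - rk P Z (k + 1))
          - (-1) ^ (m + 1) * Sg P Z (ψ k) a)) :=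
      AE.sum _ fun k hk => AE.smul (hψ k (Finset.mem_range.1 hk)) (hc0 k)
    refine h2.congr ?_
    filter_upwards [ev_Ioc] with a ha
    have hS1 : Sg P Z (fun y => ∑ k ∈ Finset.range m, (1 / ((k : ℝ) + 1)) * ψ k y + ee m y) a
        = ∑ k ∈ Finset.range m, (1 / ((k : ℝ) + 1)) * Sg P Z (ψ k) a + Sg P Z (ee m) a := by
      rw [S.Sg_add hm.le ha.1 ha.2 hsumN (NN.ee hm1),
        S.Sg_sum hm.le ha.1 ha.2 _ (fun k _ => (hψN k).smul (hc0 k))]
      congr 1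
      apply Finset.sum_congr rfl
      intro k _
      rw [S.Sg_smul hm.le ha.1 ha.2 (hψN k)]
    rw [hS1, S.L_exact hm1 hm ha.1 ha.2]
    have e2 : ∀ k ∈ Finset.range m, (1 / ((k : ℝ) + 1)) *
        ((-a) ^ (k + 1) * (Mk P Z (k + 1) a - rk P Z (k + 1))
          - (-1) ^ (m + 1) * Sg P Z (ψ k) a)
        = (1 / ((k : ℝ) + 1)) * ((-a) ^ (k + 1) * Mk P Z (k + 1) a)
          - (rk P Z (k + 1) / ((k : ℝ) + 1)) * (-a) ^ (k + 1)
          - (-1) ^ (m + 1) * ((1 / ((k : ℝ) + 1)) * Sg P Z (ψ k) a) := by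
      intro k _
      ring
    rw [Finset.sum_congr rfl e2, Finset.sum_sub_distrib, Finset.sum_sub_distrib, ← Finset.mul_sum]
    ring

lemma Lf_tendsto' (S : Setup P Z α) (hm1 : 1 ≤ m) (hm : (m : ℝ) < α) :
    Tendsto (Lf P Z) (𝓝[>] 0) (𝓝 0) := by
  obtain ⟨C, hC0, hC⟩ := S.Vm_bound hm
  have h1 : Tendsto (fun a : ℝ => C * a) (𝓝[>] 0) (𝓝 0) := by
    have h2 : Tendsto (fun a : ℝ => a) (𝓝[>] 0) (𝓝 0) :=
      tendsto_id.mono_left nhdsWithin_le_nhds
    have := h2.const_mul C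
    rwa [mul_zero] at this
  refine squeeze_zero' ?_ ?_ h1
  · filter_upwards [ev_Ioc] with a ha
    exact S.Lam_nonneg ha.1 ha.2 (cl_log ha.1 S.hα) fun x hx =>
      Real.log_nonneg (by nlinarith [ha.1])
  · filter_upwards [ev_Ioc] with a ha
    have h := S.Lam_mono ha.1 ha.2 (cl_log ha.1 S.hα) ((cl_nV hm.le).const_mul a) fun x hx => by
      have hax : 0 ≤ a * x := mul_nonneg ha.1.le hx
      have h3 := Real.log_le_sub_one_of_pos (by linarith : 0 < 1 + a * x)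
      have h4 : x ≤ (1 + x) ^ m := by
        calc x ≤ 1 + x := by linarith
          _ = (1 + x) ^ 1 := (pow_one _).symm
          _ ≤ (1 + x) ^ m := pow_le_pow_right₀ (by linarith) hm1
      have h5 := mul_le_mul_of_nonneg_left h4 ha.1.le
      linarith
    rw [S.Lam_const_mul ha.1 ha.2 (cl_nV hm.le)] at h
    have h6 := mul_le_mul_of_nonneg_left (hC a ha.1 ha.2) ha.1.le
    have h7 : Lf P Z a ≤ a * Lam P Z a (fun x => (1 + x) ^ m) := h
    linarith

/-- Final expansion, given the asymptotics of the singular functional. -/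
theorem main_n (S : Setup P Z α) (hm1 : 1 ≤ m) (hm : (m : ℝ) < α) (hm2 : α < (m : ℝ) + 1)
    (hlim : ∀ ψ, NN m ψ → ∃ c, Tendsto (fun a => Sg P Z ψ a / a ^ α) (𝓝[>] 0) (𝓝 c)) :
    ∃ ψ, NN m ψ ∧ (∀ y, 0 ≤ y → ee m y ≤ ψ y) ∧
    ∃ l : ℕ → ℝ, (∀ k, 1 ≤ k → k ≤ m → 0 < l k) ∧ ∃ C,
      Tendsto (fun a => Sg P Z ψ a / a ^ α) (𝓝[>] 0) (𝓝 C) ∧
      (fun a => Lf P Z a - ∑ k ∈ Finset.Icc 1 m, (-1) ^ (k + 1) * l k * a ^ k
        - (-1) ^ m * C * a ^ α) =o[𝓝[>] 0] (fun a => a ^ α) := by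
  obtain ⟨ψ, hψN, hψe, μ, hμ, hO⟩ := S.expL hm1 hm
  obtain ⟨C, hC⟩ := hlim ψ hψN
  refine ⟨ψ, hψN, hψe, fun k => μ k + rk P Z k / k, ?_, C, hC, ?_⟩
  · intro k hk1 hkm
    have h1 : 0 < rk P Z k := S.rk_pos hk1 (lt_of_le_of_lt (by exact_mod_cast hkm) hm)
    have h2 : (0 : ℝ) < k := by exact_mod_cast hk1
    have := hμ k
    have := div_pos h1 h2
    linarith
  -- `a^(m+1) = o(a^α)`
  have hpow : (fun a : ℝ => a ^ (m + 1)) =o[𝓝[>] 0] (fun a : ℝ => a ^ α) := by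
    have h1 : Tendsto (fun a : ℝ => a ^ ((m : ℝ) + 1 - α)) (𝓝[>] 0) (𝓝 0) :=
      tendsto_rpow_zero (by linarith)
    have h2 := (isBigO_refl (fun a : ℝ => a ^ α) (𝓝[>] 0)).mul_isLittleO
      ((isLittleO_one_iff ℝ).2 h1)
    refine h2.congr' ?_ ?_
    · filter_upwards [ev_Ioc] with a ha
      rw [← Real.rpow_add ha.1, ← Real.rpow_natCast]
      congr 1
      push_cast
      ring
    · exact Eventually.of_forall fun a => mul_one _
  -- the constant coefficient vanishes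
  have hμ0 : μ 0 = 0 := by
    have t1 : Tendsto (fun a => -Lf P Z a
      - ∑ k ∈ Finset.range m, (rk P Z (k + 1) / ((k : ℝ) + 1)) * (-a) ^ (k + 1)
      - (-1) ^ (m + 1) * Sg P Z ψ a - ∑ n ∈ Finset.range (m + 1), μ n * (-a) ^ n)
      (𝓝[>] 0) (𝓝 0) := hO.trans_tendsto (tendsto_pow_zero m)
    have t2 : Tendsto (fun a : ℝ => ∑ k ∈ Finset.range m,
        (rk P Z (k + 1) / ((k : ℝ) + 1)) * (-a) ^ (k + 1)) (𝓝[>] 0) (𝓝 0) := by
      have hc : Continuous (fun a : ℝ => ∑ k ∈ Finset.range m,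
        (rk P Z (k + 1) / ((k : ℝ) + 1)) * (-a) ^ (k + 1)) := by fun_prop
      have h := (hc.tendsto 0).mono_left (nhdsWithin_le_nhds (s := Set.Ioi 0))
      have e : ∑ k ∈ Finset.range m,
        (rk P Z (k + 1) / ((k : ℝ) + 1)) * (-(0 : ℝ)) ^ (k + 1) = 0 := by
        apply Finset.sum_eq_zero
        intro k _
        rw [neg_zero, zero_pow (Nat.succ_ne_zero k), mul_zero]
      rwa [e] at h
    have t3 : Tendsto (fun a => (-1) ^ (m + 1) * Sg P Z ψ a) (𝓝[>] 0) (𝓝 0) := by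
      have h1 := (hC.mul (tendsto_rpow_zero S.α_pos)).const_mul ((-1 : ℝ) ^ (m + 1))
      rw [mul_zero, mul_zero] at h1
      refine h1.congr' ?_
      filter_upwards [ev_Ioc] with a ha
      have : a ^ α ≠ 0 := (Real.rpow_pos_of_pos ha.1 _).ne'
      field_simp
    have t4 := tendsto_poly μ m
    have t5 := (((S.Lf_tendsto' hm1 hm).neg.sub t2).sub t3).sub t4
    have h := tendsto_nhds_unique t1 t5
    linarith
  have h2 := (hO.trans_isLittleO hpow).neg_left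
  have h3 : (fun a : ℝ => a ^ α * ((-1) ^ m * (Sg P Z ψ a / a ^ α - C)))
      =o[𝓝[>] 0] (fun a => a ^ α) := by
    have h4 : Tendsto (fun a => (-1 : ℝ) ^ m * (Sg P Z ψ a / a ^ α - C)) (𝓝[>] 0) (𝓝 0) := by
      have h := (hC.sub_const C).const_mul ((-1 : ℝ) ^ m)
      rwa [sub_self, mul_zero] at h
    have h5 := (isBigO_refl (fun a : ℝ => a ^ α) (𝓝[>] 0)).mul_isLittleO
      ((isLittleO_one_iff ℝ).2 h4)
    simpa using h5
  refine (h2.add h3).congr' ?_ EventuallyEq.rfl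
  filter_upwards [ev_Ioc] with a ha
  have ha0 : a ^ α ≠ 0 := (Real.rpow_pos_of_pos ha.1 _).ne'
  have hrk : ∑ k ∈ Finset.range m, (rk P Z (k + 1) / ((k : ℝ) + 1)) * (-a) ^ (k + 1)
      = ∑ k ∈ Finset.Icc 1 m, (rk P Z k / (k : ℝ)) * (-a) ^ k := by
    rw [← sum_range_Icc]
    apply Finset.sum_congr rfl
    intro k _
    push_cast
    ring
  rw [hrk, sum_shift (fun n => μ n * (-a) ^ n) (m + 1) (by omega), hμ0, Nat.add_sub_cancel]
  have e1 : ∑ k ∈ Finset.Icc 1 m, (-1 : ℝ) ^ (k + 1) * (μ k + rk P Z k / k) * a ^ k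
      = - (∑ k ∈ Finset.Icc 1 m, (rk P Z k / (k : ℝ)) * (-a) ^ k)
        - ∑ k ∈ Finset.Icc 1 m, μ k * (-a) ^ k := by
    rw [← Finset.sum_neg_distrib, ← Finset.sum_sub_distrib]
    apply Finset.sum_congr rfl
    intro k _
    rw [neg_pow a k, pow_succ]
    ring
  have e3 : a ^ α * ((-1) ^ m * (Sg P Z ψ a / a ^ α - C))
      = (-1) ^ m * Sg P Z ψ a - (-1) ^ m * C * a ^ α := by
    field_simp
  rw [e3, e1, pow_succ]
  ring

end Setup

end

end Pool.Agent.H741R4.DH
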