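import Pool.Agent.H741R4.DH15

/-!
Derrida-Hilhorst singularity, part 16: the Poisson equation.
-/

open MeasureTheory ProbabilityTheory Filter Topology Asymptotics

namespace Pool.Agent.H741R4.DH

noncomputable section

variable {Ω : Type*} [mΩ : MeasurableSpace Ω] {P : Measure Ω} {Z : ℕ → Ω → ℝ} {α δ : ℝ} {m : ℕ}

/-- Iterates for the Poisson equation. -/
def PhiN (P : Measure Ω) (Z : ℕ → Ω → ℝ) (ψ : ℝ → ℝ) : ℕ → ℝ → ℝ
  | 0, _ => 0
  | n + 1, y => ψ y + Av P Z (PhiN P Z ψ n) (y / (1 + y))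

lemma PhiN_succ (ψ : ℝ → ℝ) (n : ℕ) (y : ℝ) :
    PhiN P Z ψ (n + 1) y = ψ y + Av P Z (PhiN P Z ψ n) (y / (1 + y)) := rfl

lemma basic_le_ff (hδ1 : δ ≤ α - m) (hδ2 : δ ≤ (m : ℝ) + 1 - α) (hδ : 0 < δ) (hδα : δ < α)
    {y : ℝ} (hy : 0 ≤ y) : y ^ (m + 1) / (1 + y) ≤ ff α δ y := by
  rcases hy.eq_or_lt with rfl | hy0
  · rw [zero_pow (Nat.succ_ne_zero m), zero_div]
    exact ff_nonneg le_rfl
  unfold ff
  rcases le_total y 1 with h | h
  · have h1 : y ^ δ ≤ 1 := Real.rpow_le_one hy h hδ.le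
    have h0 : 0 ≤ y ^ δ := Real.rpow_nonneg hy _
    have h2 : min ((y ^ δ) ^ 2) 1 = (y ^ δ) ^ 2 := min_eq_left (by nlinarith)
    have h3 : y ^ (α - δ) * (y ^ δ) ^ 2 = y ^ (α + δ) := by
      rw [pow_two, ← Real.rpow_add hy0, ← Real.rpow_add hy0]
      congr 1; ring
    rw [h2, h3]
    have h4 : y ^ (m + 1) / (1 + y) ≤ y ^ (m + 1) := div_le_self (by positivity) (by linarith)
    refine h4.trans ?_
    rw [← Real.rpow_natCast]
    apply Real.rpow_le_rpow_of_exponent_ge hy0 h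
    push_cast; linarith
  · have h1 : 1 ≤ y ^ δ := Real.one_le_rpow h hδ.le
    have h2 : min ((y ^ δ) ^ 2) 1 = 1 := min_eq_right (by nlinarith)
    rw [h2, mul_one]
    have h4 : y ^ (m + 1) / (1 + y) ≤ y ^ m := by
      rw [div_le_iff₀ (by positivity), pow_succ]
      have : 0 ≤ y ^ m := by positivity
      nlinarith
    refine h4.trans ?_
    rw [← Real.rpow_natCast]
    apply Real.rpow_le_rpow_of_exponent_le h
    linarith

namespace Setup

lemma int_dom (S : Setup P Z α) {f : ℝ → ℝ} (hf : Measurable f) {B : ℝ} 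
    (hδα : δ < α) (hδ : 0 < δ)
    (h0 : ∀ y, 0 ≤ y → 0 ≤ f y) (h : ∀ y, 0 ≤ y → f y ≤ B * hh α δ y) (hB : 0 ≤ B)
    {v : ℝ} (hv : 0 ≤ v) : Integrable (fun ω => f (Z 0 ω * v)) P := by
  refine Integrable.mono' ((S.int_α.mul_const (v ^ α)).const_mul B)
    (hf.comp ((S.meas 0).mul_const v)).aestronglyMeasurable ?_
  filter_upwards [S.pos] with ω hω
  have hzv : 0 ≤ Z 0 ω * v := by positivity
  rw [Real.norm_eq_abs, abs_of_nonneg (h0 _ hzv), ← Real.mul_rpow hω.le hv]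
  exact (h _ hzv).trans (mul_le_mul_of_nonneg_left (hh_le hδα hδ hzv) hB)

lemma Av_mono (S : Setup P Z α) {f g : ℝ → ℝ} {v : ℝ} (hv : 0 ≤ v)
    (hf : Integrable (fun ω => f (Z 0 ω * v)) P) (hg : Integrable (fun ω => g (Z 0 ω * v)) P)
    (h : ∀ y, 0 ≤ y → f y ≤ g y) : Av P Z f v ≤ Av P Z g v := by
  refine integral_mono_ae hf hg ?_
  filter_upwards [S.pos] with ω hω
  exact h _ (by positivity)

lemma Av_mono_v (S : Setup P Z α) {f : ℝ → ℝ} {u v : ℝ} (hu : 0 ≤ u) (huv : u ≤ v)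
    (hfu : Integrable (fun ω => f (Z 0 ω * u)) P) (hfv : Integrable (fun ω => f (Z 0 ω * v)) P)
    (h : ∀ x y, 0 ≤ x → x ≤ y → f x ≤ f y) : Av P Z f u ≤ Av P Z f v := by
  refine integral_mono_ae hfu hfv ?_
  filter_upwards [S.pos] with ω hω
  exact h _ _ (by positivity) (mul_le_mul_of_nonneg_left huv hω.le)

lemma Av_nonneg (S : Setup P Z α) {f : ℝ → ℝ} {v : ℝ} (hv : 0 ≤ v)
    (h : ∀ y, 0 ≤ y → 0 ≤ f y) : 0 ≤ Av P Z f v := by
  apply integral_nonneg_of_ae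
  filter_upwards [S.pos] with ω hω
  exact h _ (by positivity)

lemma int_hh (S : Setup P Z α) (hδα : δ < α) (hδ : 0 < δ) {v : ℝ} (hv : 0 ≤ v) :
    Integrable (fun ω => hh α δ (Z 0 ω * v)) P :=
  S.int_dom (measurable_hh α δ) hδα hδ (fun _ hy => hh_nonneg hy) (B := 1)
    (fun y _ => by rw [one_mul]) zero_le_one hv

/-- Properties of the iterates. -/
lemma PhiN_prop (S : Setup P Z α) (hm1 : 1 ≤ m) (hδ1 : δ ≤ α - m) (hδ2 : δ ≤ (m : ℝ) + 1 - α)
    (hδ : 0 < δ) {ψ : ℝ → ℝ} (hψ : NN m ψ) {C : ℝ} (hC0 : 0 ≤ C)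
    (hC : ∀ y, 0 ≤ y → ψ y ≤ C * (y ^ (m + 1) / (1 + y))) (n : ℕ) :
    Measurable (PhiN P Z ψ n) ∧ (∀ y, 0 ≤ y → 0 ≤ PhiN P Z ψ n y) ∧
    (∀ y, 0 ≤ y → PhiN P Z ψ n y
      ≤ C / (1 / 2 * (1 - qd P Z (α - δ))) * hh α δ y) ∧
    (∀ x y, 0 ≤ x → x ≤ y → PhiN P Z ψ n x ≤ PhiN P Z ψ n y) ∧
    (∀ l y, 1 ≤ l → 0 ≤ y → PhiN P Z ψ n (l * y) ≤ l ^ (m + 1) * PhiN P Z ψ n y) := by
  have hm0 : (1 : ℝ) ≤ m := by exact_mod_cast hm1
  have hδα : δ < α := by linarith
  have hq : 0 < 1 / 2 * (1 - qd P Z (α - δ)) := by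
    have := S.q_lt_one (s := α - δ) (by linarith) (by linarith)
    unfold qd
    linarith
  set c0 := 1 / 2 * (1 - qd P Z (α - δ)) with hc0
  set B := C / c0 with hB
  have hB0 : 0 ≤ B := div_nonneg hC0 hq.le
  have hBc : B * c0 = C := by rw [hB]; field_simp
  induction n with
  | zero =>
    refine ⟨measurable_const, fun _ _ => le_rfl, fun y hy => ?_, fun _ _ _ _ => le_rfl,
      fun l y _ _ => ?_⟩
    · exact mul_nonneg hB0 (hh_nonneg hy)
    · change (0 : ℝ) ≤ l ^ (m + 1) * 0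
      rw [mul_zero]
  | succ n ih =>
    obtain ⟨i1, i2, i3, i4, i5⟩ := ih
    have hint : ∀ v, 0 ≤ v → Integrable (fun ω => PhiN P Z ψ n (Z 0 ω * v)) P := fun v hv =>
      S.int_dom i1 hδα hδ i2 i3 hB0 hv
    have hκ : ∀ y : ℝ, 0 ≤ y → 0 ≤ y / (1 + y) := fun y hy => by positivity
    have hκ2 : ∀ y : ℝ, 0 ≤ y → y / (1 + y) ≤ y := fun y hy => div_le_self hy (by linarith)
    refine ⟨?_, fun y hy => ?_, fun y hy => ?_, fun x y hx hxy => ?_, fun l y hl hy => ?_⟩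
    · have hκm : Measurable (fun y : ℝ => y / (1 + y)) :=
        measurable_id.div (measurable_const.add measurable_id)
      exact hψ.meas.add ((S.measurable_Av i1).comp hκm)
    · rw [PhiN_succ]
      exact add_nonneg (hψ.nonneg y hy) (S.Av_nonneg (hκ y hy) i2)
    · rw [PhiN_succ]
      have h1 : Av P Z (PhiN P Z ψ n) (y / (1 + y)) ≤ B * Av P Z (hh α δ) y := by
        have h2 : Av P Z (PhiN P Z ψ n) (y / (1 + y))
            ≤ Av P Z (fun t => B * hh α δ t) (y / (1 + y)) :=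
          S.Av_mono (hκ y hy) (hint _ (hκ y hy)) ((S.int_hh hδα hδ (hκ y hy)).const_mul B) i3
        have h3 : Av P Z (fun t => B * hh α δ t) (y / (1 + y))
            = B * Av P Z (hh α δ) (y / (1 + y)) := integral_const_mul _ _
        have h4 : Av P Z (hh α δ) (y / (1 + y)) ≤ Av P Z (hh α δ) y :=
          S.Av_mono_v (hκ y hy) (hκ2 y hy) (S.int_hh hδα hδ (hκ y hy)) (S.int_hh hδα hδ hy)
            (fun x y hx hxy => hh_mono hδα.le hδ.le hx hxy)
        rw [h3] at h2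
        exact h2.trans (mul_le_mul_of_nonneg_left h4 hB0)
      have h5 := S.Av_hh hδα hδ hy
      have h6 := mul_le_mul_of_nonneg_left h5 hB0
      have h7 : ψ y ≤ C * ff α δ y :=
        (hC y hy).trans (mul_le_mul_of_nonneg_left (basic_le_ff hδ1 hδ2 hδ hδα hy) hC0)
      have h8 : B * (hh α δ y - c0 * ff α δ y) = B * hh α δ y - C * ff α δ y := by
        rw [← hBc]; ring
      rw [← hc0] at h6
      linarith
    · rw [PhiN_succ, PhiN_succ]
      have hy := hx.trans hxy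
      apply add_le_add (hψ.mono x y hx hxy)
      apply S.Av_mono_v (hκ x hx) _ (hint _ (hκ x hx)) (hint _ (hκ y hy)) i4
      rw [div_le_div_iff₀ (by linarith) (by linarith)]
      nlinarith
    · rw [PhiN_succ, PhiN_succ, mul_add]
      have hly : 0 ≤ l * y := by positivity
      apply add_le_add (hψ.scale l y hl hy)
      -- l y / (1 + l y) = l' (y / (1 + y)), 1 ≤ l' ≤ l
      set l' := l * (1 + y) / (1 + l * y) with hl'
      have hl'1 : 1 ≤ l' := by
        rw [hl', le_div_iff₀ (by positivity)]; nlinarith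
      have hl'l : l' ≤ l := by
        rw [hl', div_le_iff₀ (by positivity)]
        apply mul_le_mul_of_nonneg_left _ (by linarith)
        nlinarith
      have e : l * y / (1 + l * y) = l' * (y / (1 + y)) := by
        rw [hl']; field_simp
      rw [e]
      have h1 : Av P Z (PhiN P Z ψ n) (l' * (y / (1 + y)))
          ≤ ∫ ω, l' ^ (m + 1) * PhiN P Z ψ n (Z 0 ω * (y / (1 + y))) ∂P := by
        refine integral_mono_ae (hint _ (by positivity)) ((hint _ (hκ y hy)).const_mul _) ?_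
        filter_upwards [S.pos] with ω hω
        have h2 := i5 l' (Z 0 ω * (y / (1 + y))) hl'1 (by positivity)
        have e2 : Z 0 ω * (l' * (y / (1 + y))) = l' * (Z 0 ω * (y / (1 + y))) := by ring
        rw [e2]
        exact h2
      rw [integral_const_mul] at h1
      refine h1.trans ?_
      apply mul_le_mul_of_nonneg_right _ (S.Av_nonneg (hκ y hy) i2)
      exact pow_le_pow_left₀ (by linarith) hl'l _

/-- Solution of the Poisson equation. -/
theorem poisson (S : Setup P Z α) (hm1 : 1 ≤ m) (hδ1 : δ ≤ α - m) (hδ2 : δ ≤ (m : ℝ) + 1 - α)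
    (hδ : 0 < δ) {ψ : ℝ → ℝ} (hψ : NN m ψ) :
    ∃ Φ : ℝ → ℝ, ∃ B : ℝ, 0 ≤ B ∧ Measurable Φ ∧ (∀ y, 0 ≤ y → 0 ≤ Φ y) ∧
    (∀ y, 0 ≤ y → Φ y ≤ B * hh α δ y) ∧
    (∀ x y, 0 ≤ x → x ≤ y → Φ x ≤ Φ y) ∧
    (∀ l y, 1 ≤ l → 0 ≤ y → Φ (l * y) ≤ l ^ (m + 1) * Φ y) ∧
    (∀ y, 0 ≤ y → Φ y = ψ y + Av P Z Φ (y / (1 + y))) := by
  obtain ⟨C, hC0, hC⟩ := hψ.bd
  have hm0 : (1 : ℝ) ≤ m := by exact_mod_cast hm1
  have hδα : δ < α := by linarith
  have hq : 0 < 1 / 2 * (1 - qd P Z (α - δ)) := by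
    have := S.q_lt_one (s := α - δ) (by linarith) (by linarith)
    unfold qd
    linarith
  have hprop := fun n => S.PhiN_prop hm1 hδ1 hδ2 hδ hψ hC0 hC n
  set B := C / (1 / 2 * (1 - qd P Z (α - δ))) with hB
  have hB0 : 0 ≤ B := div_nonneg hC0 hq.le
  have hint : ∀ n v, 0 ≤ v → Integrable (fun ω => PhiN P Z ψ n (Z 0 ω * v)) P := fun n v hv =>
    S.int_dom (hprop n).1 hδα hδ (hprop n).2.1 (hprop n).2.2.1 hB0 hv
  have hκ : ∀ y : ℝ, 0 ≤ y → 0 ≤ y / (1 + y) := fun y hy => by positivity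
  -- monotone in n
  have hmn : ∀ n, ∀ y, 0 ≤ y → PhiN P Z ψ n y ≤ PhiN P Z ψ (n + 1) y := by
    intro n
    induction n with
    | zero => intro y hy; exact (hprop 1).2.1 y hy
    | succ n ih =>
      intro y hy
      rw [PhiN_succ, PhiN_succ (n := n + 1)]
      have := S.Av_mono (hκ y hy) (hint n _ (hκ y hy)) (hint (n + 1) _ (hκ y hy)) ih
      linarith
  have hmono : ∀ y, 0 ≤ y → Monotone (fun n => PhiN P Z ψ n y) := fun y hy =>
    monotone_nat_of_le_succ fun n => hmn n y hy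
  set Φ : ℝ → ℝ := fun y => ⨆ n, PhiN P Z ψ n (max y 0) with hΦ
  have hlim' : ∀ y, Tendsto (fun n => PhiN P Z ψ n (max y 0)) atTop (𝓝 (Φ y)) := by
    intro y
    have hy : 0 ≤ max y 0 := le_max_right _ _
    apply tendsto_atTop_ciSup (hmono _ hy)
    refine ⟨B * hh α δ (max y 0), ?_⟩
    rintro _ ⟨n, rfl⟩
    exact (hprop n).2.2.1 _ hy
  have hlim : ∀ y, 0 ≤ y → Tendsto (fun n => PhiN P Z ψ n y) atTop (𝓝 (Φ y)) := by
    intro y hy
    have := hlim' y
    rwa [max_eq_left hy] at this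
  have hΦm : Measurable Φ := by
    refine measurable_of_tendsto_metrizable (f := fun n y => PhiN P Z ψ n (max y 0))
      (fun n => (hprop n).1.comp (measurable_id.max measurable_const)) ?_
    rw [tendsto_pi_nhds]
    exact hlim'
  have hΦ0 : ∀ y, 0 ≤ y → 0 ≤ Φ y := fun y hy =>
    ge_of_tendsto' (hlim y hy) fun n => (hprop n).2.1 y hy
  have hΦB : ∀ y, 0 ≤ y → Φ y ≤ B * hh α δ y := fun y hy =>
    le_of_tendsto' (hlim y hy) fun n => (hprop n).2.2.1 y hy
  refine ⟨Φ, B, hB0, hΦm, hΦ0, hΦB, fun x y hx hxy => ?_, fun l y hl hy => ?_, fun y hy => ?_⟩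
  · exact le_of_tendsto_of_tendsto' (hlim x hx) (hlim y (hx.trans hxy))
      fun n => (hprop n).2.2.2.1 x y hx hxy
  · exact le_of_tendsto_of_tendsto' (hlim (l * y) (by positivity))
      ((hlim y hy).const_mul _) fun n => (hprop n).2.2.2.2 l y hl hy
  · have h1 : Tendsto (fun n => PhiN P Z ψ (n + 1) y) atTop (𝓝 (Φ y)) :=
      (hlim y hy).comp (tendsto_add_atTop_nat 1)
    have h2 : Tendsto (fun n => Av P Z (PhiN P Z ψ n) (y / (1 + y))) atTop
        (𝓝 (Av P Z Φ (y / (1 + y)))) := by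
      have hk := hκ y hy
      refine tendsto_integral_filter_of_dominated_convergence
        (fun ω => B * ((Z 0 ω) ^ α * (y / (1 + y)) ^ α))
        (Eventually.of_forall fun n =>
          ((hprop n).1.comp ((S.meas 0).mul_const _)).aestronglyMeasurable)
        (Eventually.of_forall fun n => ?_) ((S.int_α.mul_const _).const_mul B) ?_
      · filter_upwards [S.pos] with ω hω
        have hzv : 0 ≤ Z 0 ω * (y / (1 + y)) := by positivity
        rw [Real.norm_eq_abs, abs_of_nonneg ((hprop n).2.1 _ hzv), ← Real.mul_rpow hω.le hk]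
        exact ((hprop n).2.2.1 _ hzv).trans
          (mul_le_mul_of_nonneg_left (hh_le hδα hδ hzv) hB0)
      · filter_upwards [S.pos] with ω hω
        exact hlim _ (by positivity)
    exact tendsto_nhds_unique h1 (h2.const_add (ψ y))

end Setup

end

end Pool.Agent.H741R4.DH
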