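import Pool.Agent.H741R4.DH16
import Pool.Agent.H662R3.CD
import Pool.Agent.H594.DHID

/-!
Derrida-Hilhorst singularity, part 17: the limit at zero of the solution of the Poisson equation.
-/

open MeasureTheory ProbabilityTheory Filter Topology Asymptotics

namespace Pool.Agent.H741R4.DH

noncomputable section

variable {Ω : Type*} [mΩ : MeasurableSpace Ω] {P : Measure Ω} {Z : ℕ → Ω → ℝ} {α δ : ℝ} {m : ℕ}

/-- The law of `log Z` under the tilted measure. -/
def tilt (P : Measure Ω) (Z : ℕ → Ω → ℝ) (α : ℝ) : Measure ℝ :=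
  (P.withDensity (fun ω => ENNReal.ofReal ((Z 0 ω) ^ α))).map (fun ω => Real.log (Z 0 ω))

lemma pow_sub_one_le (n : ℕ) {y : ℝ} (hy : 0 ≤ y) (hy1 : y ≤ 1) :
    (1 + y) ^ n - 1 ≤ (2 ^ n - 1) * y := by
  induction n with
  | zero => simp
  | succ n ih =>
    have h2 : (1 : ℝ) ≤ 2 ^ n := one_le_pow₀ (by norm_num)
    have h0 : (1 : ℝ) ≤ (1 + y) ^ n := one_le_pow₀ (by linarith)
    rw [pow_succ, pow_succ]
    nlinarith [mul_nonneg (by linarith : (0 : ℝ) ≤ 2 ^ n - 1) hy]

namespace Setup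

lemma meas_log (S : Setup P Z α) : Measurable (fun ω => Real.log (Z 0 ω)) :=
  Real.measurable_log.comp (S.meas 0)

lemma meas_dens (S : Setup P Z α) : Measurable (fun ω => ENNReal.ofReal ((Z 0 ω) ^ α)) :=
  ((S.meas 0).pow_const α).ennreal_ofReal

lemma tilt_prob (S : Setup P Z α) : IsProbabilityMeasure (tilt P Z α) := by
  have h1 : IsProbabilityMeasure (P.withDensity (fun ω => ENNReal.ofReal ((Z 0 ω) ^ α))) := by
    constructor
    rw [withDensity_apply _ MeasurableSet.univ, setLIntegral_univ,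
      ← ofReal_integral_eq_lintegral_ofReal S.int_α, S.one, ENNReal.ofReal_one]
    filter_upwards [S.pos] with ω hω using Real.rpow_nonneg hω.le _
  exact Measure.isProbabilityMeasure_map S.meas_log.aemeasurable

lemma tilt_integral (S : Setup P Z α) {F : ℝ → ℝ} (hF : Measurable F) :
    ∫ s, F s ∂(tilt P Z α) = ∫ ω, (Z 0 ω) ^ α * F (Real.log (Z 0 ω)) ∂P := by
  unfold tilt
  rw [integral_map S.meas_log.aemeasurable hF.aestronglyMeasurable,
    integral_withDensity_eq_integral_toReal_smul S.meas_dens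
      (Eventually.of_forall fun ω => ENNReal.ofReal_lt_top)]
  apply integral_congr_ae
  filter_upwards [S.pos] with ω hω
  rw [ENNReal.toReal_ofReal (Real.rpow_nonneg hω.le _), smul_eq_mul]

lemma tilt_integrable (S : Setup P Z α) {F : ℝ → ℝ} (hF : Measurable F) :
    Integrable F (tilt P Z α)
      ↔ Integrable (fun ω => (Z 0 ω) ^ α * F (Real.log (Z 0 ω))) P := by
  unfold tilt
  rw [integrable_map_measure hF.aestronglyMeasurable S.meas_log.aemeasurable,
    integrable_withDensity_iff_integrable_smul' S.meas_dens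
      (Eventually.of_forall fun ω => ENNReal.ofReal_lt_top)]
  apply integrable_congr
  filter_upwards [S.pos] with ω hω
  rw [ENNReal.toReal_ofReal (Real.rpow_nonneg hω.le _), smul_eq_mul]
  rfl

lemma tilt_ae (S : Setup P Z α) {p : ℝ → Prop} (h : ∀ᵐ s ∂(tilt P Z α), p s) :
    ∀ᵐ ω ∂P, p (Real.log (Z 0 ω)) := by
  unfold tilt at h
  have h1 := ae_of_ae_map S.meas_log.aemeasurable h
  rw [ae_withDensity_iff S.meas_dens] at h1
  filter_upwards [h1, S.pos] with ω h2 hω
  apply h2
  have := Real.rpow_pos_of_pos hω α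
  exact (ENNReal.ofReal_pos.2 this).ne'

/-- The limit at zero. -/
theorem phi_limit (S : Setup P Z α) (hm1 : 1 ≤ m) (hδ1 : δ ≤ α - m) (hδ2 : δ ≤ (m : ℝ) + 1 - α)
    (hδ : 0 < δ) {ψ : ℝ → ℝ} (hψ : NN m ψ)
    (hna : ¬ ∃ c : ℝ, 0 < c ∧ ∀ᵐ ω ∂P, ∃ n : ℤ, c * Real.log (Z 0 ω) = n)
    {Φ : ℝ → ℝ} {B : ℝ} (hB0 : 0 ≤ B) (hΦm : Measurable Φ) (hΦ0 : ∀ y, 0 ≤ y → 0 ≤ Φ y)
    (hΦB : ∀ y, 0 ≤ y → Φ y ≤ B * hh α δ y)
    (hΦmono : ∀ x y, 0 ≤ x → x ≤ y → Φ x ≤ Φ y)
    (hΦs : ∀ l y, 1 ≤ l → 0 ≤ y → Φ (l * y) ≤ l ^ (m + 1) * Φ y)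
    (hΦe : ∀ y, 0 ≤ y → Φ y = ψ y + Av P Z Φ (y / (1 + y))) :
    ∃ c, (¬ Integrable (fun ω => (Z 0 ω) ^ α * Real.log (Z 0 ω)) P → c = 0) ∧
      Tendsto (fun v => Av P Z Φ v / v ^ α) (𝓝[>] 0) (𝓝 c) := by
  obtain ⟨C, hC0, hC⟩ := hψ.bd
  have hm0 : (1 : ℝ) ≤ m := by exact_mod_cast hm1
  have hδα : δ < α := by linarith
  have hα := S.α_pos
  have hprob := S.tilt_prob
  have hP := S.prob
  have hint : ∀ v, 0 ≤ v → Integrable (fun ω => Φ (Z 0 ω * v)) P := fun v hv =>
    S.int_dom hΦm hδα hδ hΦ0 hΦB hB0 hv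
  -- bounds for Av Φ
  have hAv0 : ∀ v, 0 ≤ v → 0 ≤ Av P Z Φ v := fun v hv => S.Av_nonneg hv hΦ0
  have hAv1 : ∀ v, 0 ≤ v → Av P Z Φ v ≤ B * v ^ α := by
    intro v hv
    have h1 : Av P Z Φ v ≤ ∫ ω, B * ((Z 0 ω) ^ α * v ^ α) ∂P := by
      refine integral_mono_ae (hint v hv) ((S.int_α.mul_const _).const_mul B) ?_
      filter_upwards [S.pos] with ω hω
      have hzv : 0 ≤ Z 0 ω * v := by positivity
      rw [← Real.mul_rpow hω.le hv]
      exact (hΦB _ hzv).trans (mul_le_mul_of_nonneg_left (hh_le hδα hδ hzv) hB0)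
    rwa [integral_const_mul, integral_mul_const, S.one, one_mul] at h1
  have hq1 : ∫ ω, (Z 0 ω) ^ (α - δ) ∂P < 1 := S.q_lt_one (by linarith) (by linarith)
  have hAv2 : ∀ v, 0 ≤ v → Av P Z Φ v ≤ B * v ^ (α - δ) := by
    intro v hv
    have hi := S.int_rpow (s := α - δ) (by linarith) (by linarith)
    have h1 : Av P Z Φ v ≤ ∫ ω, B * ((Z 0 ω) ^ (α - δ) * v ^ (α - δ)) ∂P := by
      refine integral_mono_ae (hint v hv) ((hi.mul_const _).const_mul B) ?_
      filter_upwards [S.pos] with ω hω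
      have hzv : 0 ≤ Z 0 ω * v := by positivity
      rw [← Real.mul_rpow hω.le hv]
      have h0 : 0 ≤ (Z 0 ω * v) ^ (α - δ) := Real.rpow_nonneg hzv _
      refine (hΦB _ hzv).trans (mul_le_mul_of_nonneg_left ?_ hB0)
      have := hh_le' (α := α) (δ := δ) hzv
      linarith
    rw [integral_const_mul, integral_mul_const] at h1
    refine h1.trans (mul_le_mul_of_nonneg_left ?_ hB0)
    have h0 : 0 ≤ v ^ (α - δ) := Real.rpow_nonneg hv _
    nlinarith
  -- the function g
  set g : ℝ → ℝ := fun t => Φ (Real.exp t) / (Real.exp t) ^ α with hg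
  have hyα : ∀ t : ℝ, 0 < (Real.exp t) ^ α := fun t => Real.rpow_pos_of_pos (Real.exp_pos t) _
  have hgm : Measurable g := (hΦm.comp Real.measurable_exp).div
    (Real.measurable_exp.pow_const α)
  have hg0 : ∀ t, 0 ≤ g t := fun t => div_nonneg (hΦ0 _ (Real.exp_pos t).le) (hyα t).le
  have hgB : ∀ t, g t ≤ B := by
    intro t
    rw [hg]
    simp only
    rw [div_le_iff₀ (hyα t)]
    exact (hΦB _ (Real.exp_pos t).le).trans
      (mul_le_mul_of_nonneg_left (hh_le hδα hδ (Real.exp_pos t).le) hB0)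
  have hexpd : ∀ t : ℝ, (Real.exp t) ^ (α - δ) = (Real.exp t) ^ α * Real.exp (-δ * t) := by
    intro t
    rw [Real.rpow_sub (Real.exp_pos t), ← Real.exp_mul t δ, div_eq_mul_inv, ← Real.exp_neg]
    congr 2; ring
  have hgd : ∀ t, g t ≤ B * Real.exp (-δ * t) := by
    intro t
    rw [hg]
    simp only
    rw [div_le_iff₀ (hyα t)]
    have h1 := hΦB _ (Real.exp_pos t).le
    have h2 := hh_le' (α := α) (δ := δ) (Real.exp_pos t).le
    have h3 : 0 ≤ (Real.exp t) ^ (α - δ) := Real.rpow_nonneg (Real.exp_pos t).le _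
    have h4 := mul_le_mul_of_nonneg_left (h2.trans (by linarith :
      (Real.exp t) ^ (α - δ) * (1 / 2) ≤ (Real.exp t) ^ (α - δ))) hB0
    rw [hexpd t] at h4
    linarith
  -- modulus of continuity
  have hgs : ∀ t s, 0 ≤ s → |g (t + s) - g t| ≤ B * (Real.exp (α * s) - 1) := by
    intro t s hs
    have es : 1 ≤ Real.exp s := Real.one_le_exp hs
    have e1 : Real.exp (t + s) = Real.exp s * Real.exp t := by rw [Real.exp_add]; ring
    have e2 : (Real.exp (t + s)) ^ α = Real.exp (α * s) * (Real.exp t) ^ α := by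
      rw [e1, Real.mul_rpow (Real.exp_pos s).le (Real.exp_pos t).le, ← Real.exp_mul s α]
      congr 2; ring
    have hE : 1 ≤ Real.exp (α * s) := Real.one_le_exp (by positivity)
    have h1 : Φ (Real.exp (t + s)) ≤ (Real.exp s) ^ (m + 1) * Φ (Real.exp t) := by
      rw [e1]; exact hΦs _ _ es (Real.exp_pos t).le
    have h2 : Φ (Real.exp t) ≤ Φ (Real.exp (t + s)) :=
      hΦmono _ _ (Real.exp_pos t).le (Real.exp_le_exp.2 (by linarith))
    have h3 : (Real.exp s) ^ (m + 1) ≤ Real.exp (α * s) * Real.exp (α * s) := by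
      rw [← Real.exp_add, ← Real.exp_nat_mul]
      apply Real.exp_le_exp.2
      push_cast
      have : (m : ℝ) + 1 ≤ α + α := by linarith
      nlinarith
    have hgt := hg0 t
    have hgtB := hgB t
    have hg1 : g (t + s) ≤ Real.exp (α * s) * g t := by
      rw [hg]
      simp only
      rw [e2, div_le_iff₀ (by positivity)]
      have h4 : Real.exp (α * s) * (Φ (Real.exp t) / (Real.exp t) ^ α)
          * (Real.exp (α * s) * (Real.exp t) ^ α)
          = Real.exp (α * s) * Real.exp (α * s) * Φ (Real.exp t) := by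
        have := (hyα t).ne'
        field_simp
      rw [h4]
      exact h1.trans (mul_le_mul_of_nonneg_right h3 (hΦ0 _ (Real.exp_pos t).le))
    have hg2 : g t ≤ Real.exp (α * s) * g (t + s) := by
      rw [hg]
      simp only
      rw [e2, div_le_iff₀ (hyα t)]
      have h4 : Real.exp (α * s) * (Φ (Real.exp (t + s)) / (Real.exp (α * s) * (Real.exp t) ^ α))
          * (Real.exp t) ^ α = Φ (Real.exp (t + s)) := by
        have := (hyα t).ne'
        have := (Real.exp_pos (α * s)).ne'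
        field_simp
      rw [h4]
      exact h2
    rw [abs_le]
    constructor
    · have h5 := hg0 (t + s)
      have h6 := hgB (t + s)
      nlinarith
    · nlinarith
  have hguc : UniformContinuous g := by
    rw [Metric.uniformContinuous_iff]
    intro η hη
    have ht : Tendsto (fun s : ℝ => B * (Real.exp (α * s) - 1)) (𝓝 0) (𝓝 0) := by
      have hc : Continuous (fun s : ℝ => B * (Real.exp (α * s) - 1)) := by fun_prop
      have h := hc.tendsto 0
      simpa using h
    obtain ⟨ρ, hρ, hρ2⟩ := Metric.eventually_nhds_iff.1 (ht.eventually_lt_const hη)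
    refine ⟨ρ, hρ, fun {x y} hxy => ?_⟩
    rcases le_total x y with h | h
    · have h1 := hgs x (y - x) (by linarith)
      have h2 : dist (y - x) 0 < ρ := by
        rw [Real.dist_0_eq_abs, ← Real.dist_eq, dist_comm]; exact hxy
      rw [add_sub_cancel] at h1
      rw [Real.dist_eq, abs_sub_comm]
      exact lt_of_le_of_lt h1 (hρ2 h2)
    · have h1 := hgs y (x - y) (by linarith)
      have h2 : dist (x - y) 0 < ρ := by
        rw [Real.dist_0_eq_abs, ← Real.dist_eq]; exact hxy
      rw [add_sub_cancel] at h1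
      rw [Real.dist_eq]
      exact lt_of_le_of_lt h1 (hρ2 h2)
  -- the defect
  have hdef : ∀ t, ∫ s, g (t + s) ∂(tilt P Z α) = Av P Z Φ (Real.exp t) / (Real.exp t) ^ α := by
    intro t
    rw [S.tilt_integral (F := fun s => g (t + s)) (hgm.comp (measurable_const.add measurable_id))]
    unfold Av
    rw [← integral_div]
    apply integral_congr_ae
    filter_upwards [S.pos] with ω hω
    rw [hg]
    simp only
    rw [Real.exp_add, Real.exp_log hω, Real.mul_rpow (Real.exp_pos t).le hω.le,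
      mul_comm (Real.exp t) (Z 0 ω)]
    have h1 := (hyα t).ne'
    have h2 := (Real.rpow_pos_of_pos hω α).ne'
    field_simp
  set C' : ℝ := C + (2 ^ (m + 1) - 1) * B + 2 * B with hC'
  have h2m : (0 : ℝ) ≤ 2 ^ (m + 1) - 1 := by
    have : (1 : ℝ) ≤ 2 ^ (m + 1) := one_le_pow₀ (by norm_num)
    linarith
  have hC'0 : 0 ≤ C' := by positivity
  have hR : ∀ t, |g t - ∫ s, g (t + s) ∂(tilt P Z α)| ≤ C' * Real.exp (-δ * |t|) := by
    intro t
    rw [hdef t, hg]
    simp only
    rw [← sub_div, abs_div, abs_of_pos (hyα t), div_le_iff₀ (hyα t)]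
    set y := Real.exp t with hy
    have hy0 : 0 < y := Real.exp_pos t
    rcases le_total t 0 with ht | ht
    · have hy1 : y ≤ 1 := Real.exp_le_one_iff.2 ht
      have e1 : Real.exp (-δ * |t|) = y ^ δ := by
        rw [abs_of_nonpos ht, hy, ← Real.exp_mul]; congr 1; ring
      rw [e1, hΦe y hy0.le]
      have hκ : 0 ≤ y / (1 + y) := by positivity
      have hκ2 : y / (1 + y) ≤ y := div_le_self hy0.le (by linarith)
      have h1 : Av P Z Φ (y / (1 + y)) ≤ Av P Z Φ y :=
        S.Av_mono_v hκ hκ2 (hint _ hκ) (hint _ hy0.le) hΦmono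
      have h2 : Av P Z Φ y ≤ (1 + y) ^ (m + 1) * Av P Z Φ (y / (1 + y)) := by
        have h3 : Av P Z Φ y ≤ ∫ ω, (1 + y) ^ (m + 1) * Φ (Z 0 ω * (y / (1 + y))) ∂P := by
          refine integral_mono_ae (hint _ hy0.le) ((hint _ hκ).const_mul _) ?_
          filter_upwards [S.pos] with ω hω
          have h4 := hΦs (1 + y) (Z 0 ω * (y / (1 + y))) (by linarith) (by positivity)
          have e2 : (1 + y) * (Z 0 ω * (y / (1 + y))) = Z 0 ω * y := by field_simp
          rwa [e2] at h4
        rwa [integral_const_mul] at h3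
      have h3 := pow_sub_one_le (m + 1) hy0.le hy1
      have h4 : Av P Z Φ (y / (1 + y)) ≤ B * y ^ α := by
        refine (hAv1 _ hκ).trans (mul_le_mul_of_nonneg_left ?_ hB0)
        exact Real.rpow_le_rpow hκ hκ2 hα.le
      have h5 := hAv0 _ hκ
      have h6 : Av P Z Φ y - Av P Z Φ (y / (1 + y)) ≤ (2 ^ (m + 1) - 1) * y * (B * y ^ α) := by
        calc Av P Z Φ y - Av P Z Φ (y / (1 + y))
            ≤ ((1 + y) ^ (m + 1) - 1) * Av P Z Φ (y / (1 + y)) := by linarith
          _ ≤ ((2 ^ (m + 1) - 1) * y) * Av P Z Φ (y / (1 + y)) :=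
              mul_le_mul_of_nonneg_right h3 h5
          _ ≤ _ := mul_le_mul_of_nonneg_left h4 (by positivity)
      have hyd : y ≤ y ^ δ := by
        have := Real.rpow_le_rpow_of_exponent_ge hy0 hy1 (by linarith : δ ≤ 1)
        rwa [Real.rpow_one] at this
      have h7 : ψ y ≤ C * (y ^ δ * y ^ α) := by
        have h8 := hC y hy0.le
        have h9 : y ^ (m + 1) / (1 + y) ≤ y ^ δ * y ^ α := by
          have h10 : y ^ (m + 1) / (1 + y) ≤ y ^ (m + 1) :=
            div_le_self (by positivity) (by linarith)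
          refine h10.trans ?_
          rw [← Real.rpow_add hy0, ← Real.rpow_natCast]
          apply Real.rpow_le_rpow_of_exponent_ge hy0 hy1
          push_cast; linarith
        exact h8.trans (mul_le_mul_of_nonneg_left h9 hC0)
      have h8 := hψ.nonneg y hy0.le
      have hyαy := Real.rpow_pos_of_pos hy0 α
      have hyδ := Real.rpow_pos_of_pos hy0 δ
      have h9 : (2 ^ (m + 1) - 1) * y * (B * y ^ α) ≤ (2 ^ (m + 1) - 1) * B * (y ^ δ * y ^ α) := by
        have h10 : 0 ≤ (2 ^ (m + 1) - 1) * (B * y ^ α) := by positivity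
        nlinarith [mul_le_mul_of_nonneg_left hyd h10]
      have h10 : 0 ≤ 2 * B * (y ^ δ * y ^ α) := by positivity
      have h11 : 0 ≤ C * (y ^ δ * y ^ α) := by positivity
      have h12 : 0 ≤ (2 ^ (m + 1) - 1) * B * (y ^ δ * y ^ α) := by positivity
      have e3 : C' * y ^ δ * y ^ α = C * (y ^ δ * y ^ α)
          + (2 ^ (m + 1) - 1) * B * (y ^ δ * y ^ α) + 2 * B * (y ^ δ * y ^ α) := by
        rw [hC']; ring
      rw [e3, abs_le]
      constructor <;> linarith
    · have e1 : Real.exp (-δ * |t|) = Real.exp (-δ * t) := by rw [abs_of_nonneg ht]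
      have h1 := hAv2 y hy0.le
      have h2 := hAv0 y hy0.le
      have h3 := hΦ0 y hy0.le
      have h4 : Φ y ≤ B * y ^ (α - δ) := by
        have h5 := hh_le' (α := α) (δ := δ) hy0.le
        have h6 : 0 ≤ y ^ (α - δ) := Real.rpow_nonneg hy0.le _
        exact (hΦB y hy0.le).trans (mul_le_mul_of_nonneg_left (by linarith) hB0)
      rw [hy, hexpd t, ← hy] at h1 h4
      rw [e1]
      have hyαy := Real.rpow_pos_of_pos hy0 α
      have hE := Real.exp_pos (-δ * t)
      have h11 : 0 ≤ C * (y ^ α * Real.exp (-δ * t)) := by positivity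
      have h12 : 0 ≤ (2 ^ (m + 1) - 1) * B * (y ^ α * Real.exp (-δ * t)) := by positivity
      have h13 : 0 ≤ B * (y ^ α * Real.exp (-δ * t)) := by positivity
      have e3 : C' * Real.exp (-δ * t) * y ^ α = C * (y ^ α * Real.exp (-δ * t))
          + (2 ^ (m + 1) - 1) * B * (y ^ α * Real.exp (-δ * t))
          + 2 * (B * (y ^ α * Real.exp (-δ * t))) := by
        rw [hC']; ring
      rw [e3, abs_le]
      constructor <;> linarith
  have hBC' : B ≤ C' := by
    have : 0 ≤ (2 ^ (m + 1) - 1) * B := by positivity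
    rw [hC']; linarith
  have hR0 : Tendsto (fun t => g t - ∫ s, g (t + s) ∂(tilt P Z α)) atBot (𝓝 0) := by
    have h1 : Tendsto (fun t : ℝ => C' * Real.exp (-δ * |t|)) atBot (𝓝 0) := by
      have h2 : Tendsto (fun t : ℝ => δ * |t|) atBot atTop :=
        tendsto_abs_atBot_atTop.const_mul_atTop hδ
      have h3 := (Real.tendsto_exp_neg_atTop_nhds_zero.comp h2).const_mul C'
      rw [mul_zero] at h3
      refine h3.congr fun t => ?_
      simp only [Function.comp]
      congr 2; ring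
    rw [tendsto_zero_iff_norm_tendsto_zero]
    exact squeeze_zero (fun t => norm_nonneg _) (fun t => hR t) h1
  have hna' : ¬ ∃ c : ℝ, ∀ᵐ s ∂(tilt P Z α), ∃ n : ℤ, s = n * c := by
    rintro ⟨c, hc⟩
    have h1 := S.tilt_ae hc
    apply hna
    rcases eq_or_ne c 0 with rfl | hc0
    · refine ⟨1, one_pos, ?_⟩
      filter_upwards [h1] with ω hω
      obtain ⟨n, hn⟩ := hω
      exact ⟨0, by rw [hn]; simp⟩
    · refine ⟨|c|⁻¹, by positivity, ?_⟩
      filter_upwards [h1] with ω hω
      obtain ⟨n, hn⟩ := hω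
      rcases lt_or_gt_of_ne hc0 with h | h
      · refine ⟨-n, ?_⟩
        rw [hn, abs_of_neg h]
        push_cast
        field_simp
      · refine ⟨n, ?_⟩
        rw [hn, abs_of_pos h]
        field_simp
  have hcd := Pool.Agent.H662R3.CD.taskCD (tilt P Z α) g B
    (fun t => by rw [abs_of_nonneg (hg0 t)]; exact hgB t) hguc hR0 hna'
  have hminm : Measurable (fun s : ℝ => min s 0) := measurable_id.min measurable_const
  have hmin : Integrable (fun s : ℝ => min s 0) (tilt P Z α) := by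
    rw [S.tilt_integrable hminm]
    refine Integrable.mono' (integrable_const (1 : ℝ))
      (((S.meas 0).pow_const α).mul (hminm.comp S.meas_log)).aestronglyMeasurable ?_
    filter_upwards [S.pos] with ω hω
    have h1 := zmin_ge S.hα le_rfl hω
    have h2 : (Z 0 ω) ^ α * min (Real.log (Z 0 ω)) 0 ≤ 0 :=
      mul_nonpos_of_nonneg_of_nonpos (Real.rpow_nonneg hω.le _) (min_le_right _ _)
    rw [Real.norm_eq_abs, abs_le]
    constructor <;> linarith
  have hid := Pool.Agent.H594.DHID.taskID (tilt P Z α) g C' δ hδ hguc.continuous hg0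
    (fun t => (hgB t).trans hBC')
    (fun t => (hgd t).trans (mul_le_mul_of_nonneg_right hBC' (Real.exp_pos _).le)) hR hmin hcd
  -- transfer to v
  have htrans : ∀ c, Tendsto g atBot (𝓝 c) →
      Tendsto (fun v => Av P Z Φ v / v ^ α) (𝓝[>] 0) (𝓝 c) := by
    intro c hc
    have h1 := (hc.sub hR0).comp Real.tendsto_log_nhdsGT_zero
    rw [sub_zero] at h1
    refine h1.congr' ?_
    filter_upwards [self_mem_nhdsWithin] with v hv
    have hv : 0 < v := hv
    simp only [Function.comp, sub_sub_cancel]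
    rw [hdef, Real.exp_log hv]
  by_cases hlog : Integrable (fun ω => (Z 0 ω) ^ α * Real.log (Z 0 ω)) P
  · have h1 : Integrable (fun s : ℝ => s) (tilt P Z α) := (S.tilt_integrable measurable_id).2 hlog
    have h2 : 0 < ∫ s : ℝ, s ∂(tilt P Z α) := by
      rw [S.tilt_integral (F := fun s => s) measurable_id]
      exact S.m_pos hlog
    obtain ⟨c, hc⟩ := hid.1 h1 h2
    exact ⟨c, fun h => absurd hlog h, htrans c hc⟩
  · have h1 : ¬ Integrable (fun s : ℝ => s) (tilt P Z α) := fun h =>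
      hlog ((S.tilt_integrable measurable_id).1 h)
    exact ⟨0, fun _ => rfl, htrans 0 (hid.2 h1)⟩

end Setup

end

end Pool.Agent.H741R4.DH
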