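import Pool.Agent.H741R4.DH18
import Pool.Agent.H393R3.DHPos

/-!
Derrida-Hilhorst singularity, part 19: the non-integer expansion.
-/

open MeasureTheory ProbabilityTheory Filter Topology Asymptotics

universe u

namespace Pool.Agent.H741R4.DH

noncomputable section

variable {Ω : Type u} [mΩ : MeasurableSpace Ω] {P : Measure Ω} {Z : ℕ → Ω → ℝ} {α δ : ℝ} {m : ℕ}

lemma rpow_sq {ε : ℝ} (hε : 0 < ε) (α : ℝ) : (ε ^ 2) ^ α = ε ^ (2 * α) := by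
  rw [← Real.rpow_natCast, ← Real.rpow_mul hε.le]
  norm_num

namespace Setup

/-- The expansion in `a`. -/
theorem main_an (S : Setup P Z α) (hm1 : 1 ≤ m) (hmα : (m : ℝ) < α) (hαm : α < (m : ℝ) + 1)
    (hna : ¬ ∃ c : ℝ, 0 < c ∧ ∀ᵐ ω ∂P, ∃ n : ℤ, c * Real.log (Z 0 ω) = n) :
    ∃ l : ℕ → ℝ, (∀ k, 1 ≤ k → k ≤ m → 0 < l k) ∧ ∃ C, 0 ≤ C ∧
      (0 < C ↔ Integrable (fun ω => (Z 0 ω) ^ α * Real.log (Z 0 ω)) P) ∧
      (fun a => Lf P Z a - ∑ k ∈ Finset.Icc 1 m, (-1) ^ (k + 1) * l k * a ^ k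
        - (-1) ^ m * C * a ^ α) =o[𝓝[>] 0] (fun a => a ^ α) := by
  obtain ⟨ψ, hψ, hψe, l, hl, C, hC, hO⟩ := S.main_n hm1 hmα hαm
    (fun ψ hψ => by
      obtain ⟨c, _, hc⟩ := S.Sg_limit hm1 hmα hαm hna hψ
      exact ⟨c, hc⟩)
  have hC0 : 0 ≤ C := by
    refine ge_of_tendsto hC ?_
    filter_upwards [ev_Ioc] with a ha
    have h1 : 0 ≤ Sg P Z ψ a := S.Lam_nonneg ha.1 ha.2 (hψ.cl hmα.le ha.1)
      fun x hx => hψ.nonneg _ (mul_nonneg ha.1.le hx)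
    exact div_nonneg h1 (Real.rpow_nonneg ha.1.le _)
  refine ⟨l, hl, C, hC0, ⟨?_, ?_⟩, hO⟩
  · intro hpos
    by_contra hni
    obtain ⟨c, hc, hct⟩ := S.Sg_limit hm1 hmα hαm hna hψ
    have h1 := tendsto_nhds_unique hC hct
    rw [h1, hc hni] at hpos
    exact lt_irrefl _ hpos
  · intro hi
    obtain ⟨κ, hκ, hev⟩ := Pool.Agent.H393R3.DHPos.taskPos Ω mΩ P Z α m S hm1 hmα hαm hi
    have hm0 : (0 : ℝ) < (m : ℝ) + 1 := by positivity
    have h1 : κ / ((m : ℝ) + 1) ≤ C := by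
      refine ge_of_tendsto hC ?_
      filter_upwards [ev_Ioc, hev] with a ha hh
      have hcl : Cl α (fun x => ((m : ℝ) + 1) * ψ (a * x)) :=
        (hψ.cl hmα.le ha.1).const_mul _
      have hclb : Cl α (fun x => (a * x) ^ (m + 1) / (1 + a * x)) := by
        have h := (NN.basic (m := m) (i := 0) (by omega)).cl hmα.le ha.1
        simpa only [zero_add, pow_one, ← div_eq_mul_inv] using h
      have h2 : Lam P Z a (fun x => (a * x) ^ (m + 1) / (1 + a * x))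
          ≤ Lam P Z a (fun x => ((m : ℝ) + 1) * ψ (a * x)) := by
        refine S.Lam_mono ha.1 ha.2 hclb hcl fun x hx => ?_
        have hax : 0 ≤ a * x := mul_nonneg ha.1.le hx
        exact (ee_ge hax).trans (mul_le_mul_of_nonneg_left (hψe _ hax) hm0.le)
      rw [S.Lam_const_mul ha.1 ha.2 (hψ.cl hmα.le ha.1)] at h2
      have haα := Real.rpow_pos_of_pos ha.1 α
      rw [div_le_div_iff₀ hm0 haα]
      have h3 : κ * a ^ α ≤ ((m : ℝ) + 1) * Sg P Z ψ a := hh.trans h2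
      linarith
    exact lt_of_lt_of_le (div_pos hκ hm0) h1

/-- The expansion in `ε`. -/
theorem main_eps_n (S : Setup P Z α) (hm1 : 1 ≤ m) (hmα : (m : ℝ) < α) (hαm : α < (m : ℝ) + 1)
    (hna : ¬ ∃ c : ℝ, 0 < c ∧ ∀ᵐ ω ∂P, ∃ n : ℤ, c * Real.log (Z 0 ω) = n) :
    ∃ l : ℕ → ℝ, (∀ k, 1 ≤ k → k ≤ m → 0 < l k) ∧ ∃ C, 0 ≤ C ∧
      (0 < C ↔ Integrable (fun ω => (Z 0 ω) ^ α * Real.log (Z 0 ω)) P) ∧
      (fun ε : ℝ => Lf P Z (ε ^ 2) - ∑ k ∈ Finset.Icc 1 m, (-1) ^ (k + 1) * l k * ε ^ (2 * k)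
        - (-1) ^ m * C * ε ^ (2 * α)) =o[𝓝[>] 0] (fun ε => ε ^ (2 * α)) := by
  obtain ⟨l, hl, C, hC, hiff, h⟩ := S.main_an hm1 hmα hαm hna
  refine ⟨l, hl, C, hC, hiff, ?_⟩
  have ht : Tendsto (fun ε : ℝ => ε ^ 2) (𝓝[>] 0) (𝓝[>] 0) := by
    apply tendsto_nhdsWithin_iff.2
    constructor
    · exact tendsto_pow_zero 1
    · filter_upwards [self_mem_nhdsWithin] with ε hε
      exact pow_pos (Set.mem_Ioi.1 hε) 2
  have h1 := h.comp_tendsto ht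
  refine h1.congr' ?_ ?_
  · filter_upwards [self_mem_nhdsWithin] with ε hε
    have hε : 0 < ε := hε
    simp only [Function.comp, rpow_sq hε, ← pow_mul]
  · filter_upwards [self_mem_nhdsWithin] with ε hε
    have hε : 0 < ε := hε
    simp only [Function.comp, rpow_sq hε]

end Setup

end

end Pool.Agent.H741R4.DH
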