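import Pool.Agent.H741R4.DH1
import Pool.Agent.H741R4.DH2

/-!
Derrida-Hilhorst singularity, part 3: the chain and the invariant functional.
-/

open MeasureTheory ProbabilityTheory Filter Topology

namespace Pool.Agent.H741R4.DH

noncomputable section

variable {Ω : Type*} [mΩ : MeasurableSpace Ω] {P : Measure Ω} {Z : ℕ → Ω → ℝ} {α : ℝ}

/-- `W(x) = (1 + x) / (1 + a x)`. -/
def W (a x : ℝ) : ℝ := (1 + x) / (1 + a * x)

/-- The chain. -/
def X (Z : ℕ → Ω → ℝ) (a : ℝ) : ℕ → Ω → ℝ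
  | 0, _ => 0
  | n + 1, ω => Z n ω * W a (X Z a n ω)

lemma measurable_W (a : ℝ) : Measurable (W a) := by
  unfold W
  exact (measurable_const.add measurable_id).div
    (measurable_const.add (measurable_const.mul measurable_id))

lemma H_pos {a x : ℝ} (ha : 0 < a) (hx : 0 ≤ x) : 0 < 1 + a * x := by positivity

lemma W_pos {a x : ℝ} (ha : 0 < a) (hx : 0 ≤ x) : 0 < W a x :=
  div_pos (by linarith) (H_pos ha hx)

lemma one_le_W {a x : ℝ} (ha : 0 < a) (ha1 : a ≤ 1) (hx : 0 ≤ x) : 1 ≤ W a x := by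
  unfold W
  rw [le_div_iff₀ (H_pos ha hx)]
  nlinarith

lemma W_le {a x : ℝ} (ha : 0 < a) (hx : 0 ≤ x) : W a x ≤ 1 + x := by
  unfold W
  rw [div_le_iff₀ (H_pos ha hx)]
  nlinarith [mul_nonneg (mul_nonneg ha.le hx) (by linarith : 0 ≤ 1 + x)]

lemma W_le_inv {a x : ℝ} (ha : 0 < a) (ha1 : a ≤ 1) (hx : 0 ≤ x) : W a x ≤ 1 / a := by
  unfold W
  rw [div_le_div_iff₀ (H_pos ha hx) ha]
  nlinarith

lemma w_mono {α x y : ℝ} (hα : 0 ≤ α) (hx : 0 ≤ x) (hxy : x ≤ y) : w α x ≤ w α y := by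
  unfold w
  exact Real.rpow_le_rpow (by linarith) (by linarith) hα

lemma w_ge_one {α x : ℝ} (hα : 0 ≤ α) (hx : 0 ≤ x) : 1 ≤ w α x :=
  Real.one_le_rpow (by linarith) hα

lemma w_scale {α a z : ℝ} (hα : 0 ≤ α) (ha : 0 < a) (ha1 : a ≤ 1) (hz : 0 ≤ z) :
    w α (z / a) ≤ a⁻¹ ^ α * w α z := by
  have hinv : 1 ≤ a⁻¹ := (one_le_inv₀ ha).2 ha1
  have h1 : 1 + z / a ≤ a⁻¹ * (1 + z) := by
    rw [div_eq_inv_mul]; nlinarith
  have hz1 : 0 ≤ z / a := div_nonneg hz ha.le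
  unfold w
  rw [← Real.mul_rpow (by positivity) (by linarith)]
  exact Real.rpow_le_rpow (by linarith) h1 hα

/-- The class of functions with the right growth. -/
structure Cl (α : ℝ) (f : ℝ → ℝ) : Prop where
  meas : Measurable f
  bd : ∃ C, ∀ x, 0 ≤ x → |f x| ≤ C * w α x

lemma Cl.nonneg_bd {f : ℝ → ℝ} (h : Cl α f) (hα : 0 ≤ α) :
    ∃ C, 0 ≤ C ∧ ∀ x, 0 ≤ x → |f x| ≤ C * w α x := by
  obtain ⟨C, hC⟩ := h.bd
  refine ⟨C, ?_, hC⟩
  have h0 := hC 0 le_rfl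
  have h1 := w_ge_one hα (le_refl (0 : ℝ))
  by_contra hneg
  push Not at hneg
  have : C * w α 0 < 0 := by nlinarith
  linarith [abs_nonneg (f 0)]

lemma Cl.add {f g : ℝ → ℝ} (hf : Cl α f) (hg : Cl α g) : Cl α (fun x => f x + g x) := by
  obtain ⟨C, hC⟩ := hf.bd
  obtain ⟨D, hD⟩ := hg.bd
  refine ⟨hf.meas.add hg.meas, C + D, fun x hx => ?_⟩
  have := hC x hx
  have := hD x hx
  calc |f x + g x| ≤ |f x| + |g x| := abs_add_le _ _
    _ ≤ (C + D) * w α x := by linarith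

lemma Cl.const_mul {f : ℝ → ℝ} (hf : Cl α f) (r : ℝ) : Cl α (fun x => r * f x) := by
  obtain ⟨C, hC⟩ := hf.bd
  refine ⟨hf.meas.const_mul r, |r| * C, fun x hx => ?_⟩
  rw [abs_mul, mul_assoc]
  exact mul_le_mul_of_nonneg_left (hC x hx) (abs_nonneg _)

lemma Cl.sub {f g : ℝ → ℝ} (hf : Cl α f) (hg : Cl α g) : Cl α (fun x => f x - g x) := by
  have h := hf.add (hg.const_mul (-1))
  have e : (fun x => f x + -1 * g x) = fun x => f x - g x := by funext x; ring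
  rwa [e] at h

lemma Cl.of_le {f g : ℝ → ℝ} (hg : Cl α g) (hf : Measurable f) (h : ∀ x, 0 ≤ x → |f x| ≤ g x) :
    Cl α f := by
  obtain ⟨C, hC⟩ := hg.bd
  exact ⟨hf, C, fun x hx => (h x hx).trans ((le_abs_self _).trans (hC x hx))⟩

lemma Cl.const (hα : 0 ≤ α) (c : ℝ) : Cl α (fun _ => c) :=
  ⟨measurable_const, |c|, fun _ hx => by
    have := w_ge_one hα hx
    nlinarith [abs_nonneg c]⟩

/-- Expectations along the chain. -/
def E (P : Measure Ω) (Z : ℕ → Ω → ℝ) (a : ℝ) (f : ℝ → ℝ) (j : ℕ) : ℝ := ∫ ω, f (X Z a j ω) ∂P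

/-- The invariant functional. -/
def Lam (P : Measure Ω) (Z : ℕ → Ω → ℝ) (a : ℝ) (f : ℝ → ℝ) : ℝ := Lm (E P Z a f)

namespace Setup

variable {a : ℝ}

lemma measurable_X (S : Setup P Z α) (a : ℝ) : ∀ n, Measurable (X Z a n)
  | 0 => measurable_const
  | n + 1 => (S.meas n).mul ((measurable_W a).comp (S.measurable_X a n))

lemma X_nonneg (S : Setup P Z α) (ha : 0 < a) : ∀ᵐ ω ∂P, ∀ n, 0 ≤ X Z a n ω := by
  filter_upwards [S.pos_all] with ω hω n
  induction n with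
  | zero => exact le_rfl
  | succ n ih => exact mul_nonneg (hω n).le (W_pos ha ih).le

lemma w_X_le (S : Setup P Z α) (ha : 0 < a) (ha1 : a ≤ 1) : ∀ᵐ ω ∂P, ∀ n,
    w α (X Z a (n + 1) ω) ≤ (a⁻¹ ^ α) * w α (Z n ω) := by
  filter_upwards [S.pos_all, S.X_nonneg ha] with ω h1 h2 n
  have hα := S.α_pos
  have h3 : X Z a (n + 1) ω ≤ Z n ω / a := by
    change Z n ω * W a (X Z a n ω) ≤ Z n ω / a
    rw [div_eq_mul_one_div]
    exact mul_le_mul_of_nonneg_left (W_le_inv ha ha1 (h2 n)) (h1 n).le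
  exact (w_mono hα.le (h2 (n + 1)) h3).trans (w_scale hα.le ha ha1 (h1 n).le)

lemma int_comp (S : Setup P Z α) {F : ℝ → ℝ} (hF : Measurable F)
    (hint : Integrable (fun ω => F (Z 0 ω)) P) (j : ℕ) :
    Integrable (fun ω => F (Z j ω)) P ∧ ∫ ω, F (Z j ω) ∂P = ∫ ω, F (Z 0 ω) ∂P := by
  have h := (S.ident j).comp hF
  exact ⟨h.integrable_iff.2 hint, h.integral_eq⟩

lemma int_w_all (S : Setup P Z α) (j : ℕ) : Integrable (fun ω => w α (Z j ω)) P :=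
  (S.int_comp (measurable_w α) S.int_w j).1

lemma int_f (S : Setup P Z α) (ha : 0 < a) (ha1 : a ≤ 1) {f : ℝ → ℝ} (hf : Cl α f) (j : ℕ) :
    Integrable (fun ω => f (X Z a j ω)) P := by
  have := S.prob
  obtain ⟨C, hC0, hC⟩ := hf.nonneg_bd S.α_pos.le
  cases j with
  | zero => exact integrable_const (f 0)
  | succ j =>
    refine Integrable.mono' ((S.int_w_all j).const_mul (C * (a⁻¹ ^ α)))
      (hf.meas.comp (S.measurable_X a _)).aestronglyMeasurable ?_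
    filter_upwards [S.X_nonneg ha, S.w_X_le ha ha1] with ω h1 h2
    rw [Real.norm_eq_abs, mul_assoc]
    exact (hC _ (h1 _)).trans (mul_le_mul_of_nonneg_left (h2 j) hC0)

lemma bdd_E (S : Setup P Z α) (ha : 0 < a) (ha1 : a ≤ 1) {f : ℝ → ℝ} (hf : Cl α f) :
    Bdd (E P Z a f) := by
  have := S.prob
  obtain ⟨C, hC0, hC⟩ := hf.nonneg_bd S.α_pos.le
  set K := C * (a⁻¹ ^ α) with hK
  refine ⟨|f 0| + |K * ∫ ω, w α (Z 0 ω) ∂P|, fun j => ?_⟩
  cases j with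
  | zero =>
    have : E P Z a f 0 = f 0 := by
      unfold E; simp [X]
    rw [this]
    linarith [abs_nonneg (K * ∫ ω, w α (Z 0 ω) ∂P)]
  | succ j =>
    have h1 : |E P Z a f (j + 1)| ≤ K * ∫ ω, w α (Z 0 ω) ∂P := by
      rw [← (S.int_comp (measurable_w α) S.int_w j).2, ← integral_const_mul]
      have h2 : ‖∫ ω, f (X Z a (j + 1) ω) ∂P‖ ≤ ∫ ω, K * w α (Z j ω) ∂P := by
        refine norm_integral_le_of_norm_le ((S.int_w_all j).const_mul K) ?_
        filter_upwards [S.X_nonneg ha, S.w_X_le ha ha1] with ω h1 h2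
        rw [Real.norm_eq_abs, hK, mul_assoc]
        exact (hC _ (h1 _)).trans (mul_le_mul_of_nonneg_left (h2 j) hC0)
      exact h2
    linarith [abs_nonneg (f 0), le_abs_self (K * ∫ ω, w α (Z 0 ω) ∂P)]

lemma indep_ZX (S : Setup P Z α) (a : ℝ) (j : ℕ) : IndepFun (Z j) (X Z a j) P := by
  have := S.prob
  cases j with
  | zero => exact indepFun_const_right (Z 0) (0 : ℝ)
  | succ j =>
    have hsm : ∀ i, StronglyMeasurable (Z i) := fun i => (S.meas i).stronglyMeasurable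
    have hmeas : ∀ n, Measurable[Filtration.natural Z hsm n] (X Z a (n + 1)) := by
      intro n
      induction n with
      | zero =>
        have h0 : Measurable[Filtration.natural Z hsm 0] (Z 0) :=
          ((Filtration.stronglyAdapted_natural hsm) 0).measurable
        exact Measurable.mul h0 (measurable_const (a := W a 0))
      | succ n ih =>
        have h0 : Measurable[Filtration.natural Z hsm (n + 1)] (Z (n + 1)) :=
          ((Filtration.stronglyAdapted_natural hsm) (n + 1)).measurable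
        have h1 : Measurable[Filtration.natural Z hsm (n + 1)] (X Z a (n + 1)) :=
          ih.mono ((Filtration.natural Z hsm).mono (Nat.le_succ n)) le_rfl
        exact Measurable.mul h0 ((measurable_W a).comp h1)
    have h1 := S.indep.indep_comap_natural_of_lt hsm (Nat.lt_succ_self j)
    rw [IndepFun_iff_Indep]
    exact indep_of_indep_of_le_right h1 (hmeas j).comap_le

lemma int_prod (S : Setup P Z α) (ha : 0 < a) (ha1 : a ≤ 1) {F G : ℝ → ℝ} (hF : Measurable F)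
    (hFi : Integrable (fun ω => F (Z 0 ω)) P) (hG : Cl α G) (j : ℕ) :
    Integrable (fun ω => F (Z j ω) * G (X Z a j ω)) P ∧
      ∫ ω, F (Z j ω) * G (X Z a j ω) ∂P = (∫ ω, F (Z 0 ω) ∂P) * E P Z a G j := by
  have hind : IndepFun (fun ω => F (Z j ω)) (fun ω => G (X Z a j ω)) P :=
    (S.indep_ZX a j).comp hF hG.meas
  have h1 := S.int_comp hF hFi j
  have h2 := S.int_f ha ha1 hG j
  refine ⟨hind.integrable_mul h1.1 h2, ?_⟩
  rw [← h1.2]
  exact hind.integral_fun_mul_eq_mul_integral h1.1.aestronglyMeasurable h2.aestronglyMeasurable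

lemma Lam_add (S : Setup P Z α) (ha : 0 < a) (ha1 : a ≤ 1) {f g : ℝ → ℝ} (hf : Cl α f)
    (hg : Cl α g) : Lam P Z a (fun x => f x + g x) = Lam P Z a f + Lam P Z a g := by
  unfold Lam
  rw [← Lm_add (S.bdd_E ha ha1 hf) (S.bdd_E ha ha1 hg)]
  congr 1
  funext j
  exact integral_add (S.int_f ha ha1 hf j) (S.int_f ha ha1 hg j)

lemma Lam_const_mul (S : Setup P Z α) (ha : 0 < a) (ha1 : a ≤ 1) {f : ℝ → ℝ} (hf : Cl α f)
    (r : ℝ) : Lam P Z a (fun x => r * f x) = r * Lam P Z a f := by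
  unfold Lam
  rw [← Lm_const_mul (S.bdd_E ha ha1 hf)]
  congr 1
  funext j
  exact integral_const_mul r _

lemma Lam_sub (S : Setup P Z α) (ha : 0 < a) (ha1 : a ≤ 1) {f g : ℝ → ℝ} (hf : Cl α f)
    (hg : Cl α g) : Lam P Z a (fun x => f x - g x) = Lam P Z a f - Lam P Z a g := by
  have h := S.Lam_add ha ha1 hf (hg.const_mul (-1))
  rw [S.Lam_const_mul ha ha1 hg] at h
  have e : (fun x => f x + -1 * g x) = fun x => f x - g x := by funext x; ring
  rw [e] at h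
  rw [h]; ring

lemma Lam_const (S : Setup P Z α) (c : ℝ) : Lam P Z a (fun _ => c) = c := by
  have := S.prob
  unfold Lam
  have : E P Z a (fun _ => c) = fun _ => c := by funext j; unfold E; simp
  rw [this, Lm_const]

lemma Lam_mono (S : Setup P Z α) (ha : 0 < a) (ha1 : a ≤ 1) {f g : ℝ → ℝ} (hf : Cl α f)
    (hg : Cl α g) (h : ∀ x, 0 ≤ x → f x ≤ g x) : Lam P Z a f ≤ Lam P Z a g := by
  apply Lm_mono (S.bdd_E ha ha1 hf) (S.bdd_E ha ha1 hg)
  intro j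
  refine integral_mono_ae (S.int_f ha ha1 hf j) (S.int_f ha ha1 hg j) ?_
  filter_upwards [S.X_nonneg ha] with ω hω using h _ (hω j)

lemma Lam_congr (S : Setup P Z α) (ha : 0 < a) (ha1 : a ≤ 1) {f g : ℝ → ℝ} (hf : Cl α f)
    (hg : Cl α g) (h : ∀ x, 0 ≤ x → f x = g x) : Lam P Z a f = Lam P Z a g :=
  le_antisymm (S.Lam_mono ha ha1 hf hg fun x hx => (h x hx).le)
    (S.Lam_mono ha ha1 hg hf fun x hx => (h x hx).ge)

lemma Lam_nonneg (S : Setup P Z α) (ha : 0 < a) (ha1 : a ≤ 1) {f : ℝ → ℝ} (hf : Cl α f)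
    (h : ∀ x, 0 ≤ x → 0 ≤ f x) : 0 ≤ Lam P Z a f := by
  have := S.Lam_mono ha ha1 (Cl.const S.α_pos.le 0) hf h
  rwa [S.Lam_const] at this

lemma Lam_abs_le (S : Setup P Z α) (ha : 0 < a) (ha1 : a ≤ 1) {f g : ℝ → ℝ} (hf : Cl α f)
    (hg : Cl α g) (h : ∀ x, 0 ≤ x → |f x| ≤ g x) : |Lam P Z a f| ≤ Lam P Z a g := by
  rw [abs_le]
  constructor
  · have h1 := S.Lam_mono ha ha1 (hg.const_mul (-1)) hf
      (fun x hx => by have := (abs_le.1 (h x hx)).1; linarith)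
    rw [S.Lam_const_mul ha ha1 hg] at h1
    linarith
  · exact S.Lam_mono ha ha1 hf hg fun x hx => (le_abs_self _).trans (h x hx)

/-- Invariance, inequality form. -/
lemma Lam_step_le (S : Setup P Z α) (ha : 0 < a) (ha1 : a ≤ 1) {f F₁ G₁ F₂ G₂ : ℝ → ℝ}
    (hf : Cl α f) (hF₁ : Measurable F₁) (hi₁ : Integrable (fun ω => F₁ (Z 0 ω)) P)
    (hG₁ : Cl α G₁) (hF₂ : Measurable F₂) (hi₂ : Integrable (fun ω => F₂ (Z 0 ω)) P)
    (hG₂ : Cl α G₂) (h : ∀ z x, 0 < z → 0 ≤ x → f (z * W a x) ≤ F₁ z * G₁ x + F₂ z * G₂ x) :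
    Lam P Z a f ≤ (∫ ω, F₁ (Z 0 ω) ∂P) * Lam P Z a G₁ + (∫ ω, F₂ (Z 0 ω) ∂P) * Lam P Z a G₂ := by
  unfold Lam
  have b₁ := S.bdd_E ha ha1 hG₁
  have b₂ := S.bdd_E ha ha1 hG₂
  have bf := S.bdd_E ha ha1 hf
  rw [← Lm_shift bf, ← Lm_const_mul b₁, ← Lm_const_mul b₂,
    ← Lm_add (b₁.const_mul _) (b₂.const_mul _)]
  apply Lm_mono
  · obtain ⟨C, hC⟩ := bf
    exact ⟨C, fun j => hC (j + 1)⟩
  · exact (b₁.const_mul _).add (b₂.const_mul _)
  · intro j
    have p₁ := S.int_prod ha ha1 hF₁ hi₁ hG₁ j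
    have p₂ := S.int_prod ha ha1 hF₂ hi₂ hG₂ j
    rw [← p₁.2, ← p₂.2, ← integral_add p₁.1 p₂.1]
    refine integral_mono_ae (S.int_f ha ha1 hf (j + 1)) (p₁.1.add p₂.1) ?_
    filter_upwards [S.X_nonneg ha, S.pos_all] with ω h1 h2
    exact h _ _ (h2 j) (h1 j)

/-- Invariance, equality form. -/
lemma Lam_step_eq (S : Setup P Z α) (ha : 0 < a) (ha1 : a ≤ 1) {f F₁ G₁ F₂ G₂ : ℝ → ℝ}
    (hf : Cl α f) (hF₁ : Measurable F₁) (hi₁ : Integrable (fun ω => F₁ (Z 0 ω)) P)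
    (hG₁ : Cl α G₁) (hF₂ : Measurable F₂) (hi₂ : Integrable (fun ω => F₂ (Z 0 ω)) P)
    (hG₂ : Cl α G₂) (h : ∀ z x, 0 < z → 0 ≤ x → f (z * W a x) = F₁ z * G₁ x + F₂ z * G₂ x) :
    Lam P Z a f = (∫ ω, F₁ (Z 0 ω) ∂P) * Lam P Z a G₁ + (∫ ω, F₂ (Z 0 ω) ∂P) * Lam P Z a G₂ := by
  apply le_antisymm
  · exact S.Lam_step_le ha ha1 hf hF₁ hi₁ hG₁ hF₂ hi₂ hG₂ fun z x hz hx => (h z x hz hx).le
  · have h1 := S.Lam_step_le ha ha1 (hf.const_mul (-1)) hF₁ hi₁ (hG₁.const_mul (-1)) hF₂ hi₂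
      (hG₂.const_mul (-1)) fun z x hz hx => by rw [h z x hz hx]; linarith
    rw [S.Lam_const_mul ha ha1 hf, S.Lam_const_mul ha ha1 hG₁, S.Lam_const_mul ha ha1 hG₂] at h1
    linarith

end Setup

end

end Pool.Agent.H741R4.DH
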