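import Pool.Agent.H741R4.DH3

/-!
Derrida-Hilhorst singularity, part 4: uniform moment bounds and the first identity.
-/

open MeasureTheory ProbabilityTheory Filter Topology

namespace Pool.Agent.H741R4.DH

noncomputable section

variable {Ω : Type*} [mΩ : MeasurableSpace Ω] {P : Measure Ω} {Z : ℕ → Ω → ℝ} {α : ℝ}

lemma cl_V {s : ℝ} (hs : s ≤ α) : Cl α (fun x => (1 + x) ^ s) := by
  refine ⟨(measurable_const.add measurable_id).pow_const s, 1, fun x hx => ?_⟩
  rw [one_mul, abs_of_nonneg (Real.rpow_nonneg (by linarith) _)]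
  exact Real.rpow_le_rpow_of_exponent_le (by linarith) hs

lemma cl_pow {s : ℝ} (hs0 : 0 ≤ s) (hs : s ≤ α) : Cl α (fun x => x ^ s) := by
  refine (cl_V hs).of_le (measurable_id.pow_const s) fun x hx => ?_
  rw [abs_of_nonneg (Real.rpow_nonneg hx _)]
  exact Real.rpow_le_rpow hx (by linarith) hs0

lemma cl_W {a s : ℝ} (ha : 0 < a) (hs0 : 0 ≤ s) (hs : s ≤ α) : Cl α (fun x => W a x ^ s) := by
  refine (cl_V hs).of_le ((measurable_W a).pow_const s) fun x hx => ?_
  rw [abs_of_nonneg (Real.rpow_nonneg (W_pos ha hx).le _)]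
  exact Real.rpow_le_rpow (W_pos ha hx).le (W_le ha hx) hs0

/-- The truncated logarithm. -/
def phi (a c x : ℝ) : ℝ := min (Real.log x) (Real.log (1 / a) + c)

lemma ell_nonneg {a : ℝ} (ha : 0 < a) (ha1 : a ≤ 1) : 0 ≤ Real.log (1 / a) :=
  Real.log_nonneg (by rw [le_div_iff₀ ha]; linarith)

lemma measurable_phi (a c : ℝ) : Measurable (phi a c) :=
  Real.measurable_log.min measurable_const

lemma cl_xphi {a c : ℝ} (ha : 0 < a) (ha1 : a ≤ 1) (hc : 0 ≤ c) (hα : 1 ≤ α) :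
    Cl α (fun x => x ^ α * phi a c x) := by
  have hℓ := ell_nonneg ha ha1
  refine ⟨(measurable_id.pow_const α).mul (measurable_phi a c), 1 + (Real.log (1 / a) + c),
    fun x hx => ?_⟩
  have hw := w_ge_one (by linarith : 0 ≤ α) hx
  have hxw : x ^ α ≤ w α x := Real.rpow_le_rpow hx (by linarith) (by linarith)
  have hx0 : 0 ≤ x ^ α := Real.rpow_nonneg hx _
  rcases hx.eq_or_lt with rfl | hx'
  · rw [Real.zero_rpow (by linarith), zero_mul, abs_zero]
    positivity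
  rw [abs_le]
  constructor
  · have h1 := rpow_mul_log_ge hα hx'
    have h2 : -1 ≤ x ^ α * phi a c x := by
      unfold phi
      rcases min_cases (Real.log x) (Real.log (1 / a) + c) with ⟨h, _⟩ | ⟨h, _⟩
      · rw [h]; exact h1
      · rw [h]
        have : 0 ≤ x ^ α * (Real.log (1 / a) + c) := by positivity
        linarith
    have h3 : 0 ≤ (Real.log (1 / a) + c) * w α x := by positivity
    nlinarith
  · have h1 : phi a c x ≤ Real.log (1 / a) + c := min_le_right _ _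
    have h2 := mul_le_mul_of_nonneg_left h1 hx0
    have h3 := mul_le_mul_of_nonneg_right hxw (by positivity : 0 ≤ Real.log (1 / a) + c)
    nlinarith

lemma logW_le {a x : ℝ} (ha : 0 < a) (ha1 : a ≤ 1) (hx : 0 ≤ x) :
    Real.log (W a x) ≤ Real.log (1 / a) := by
  have h1 := one_le_W ha ha1 hx
  exact Real.log_le_log (by linarith) (W_le_inv ha ha1 hx)

lemma cl_WlogW {a : ℝ} (ha : 0 < a) (ha1 : a ≤ 1) (hα : 0 ≤ α) :
    Cl α (fun x => W a x ^ α * Real.log (W a x)) := by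
  have hℓ := ell_nonneg ha ha1
  refine ((cl_V (α := α) le_rfl).const_mul (Real.log (1 / a))).of_le
    (((measurable_W a).pow_const α).mul
    (Real.measurable_log.comp (measurable_W a))) fun x hx => ?_
  have h1 := one_le_W ha ha1 hx
  have h2 := W_le ha hx
  have h3 : 0 ≤ Real.log (W a x) := Real.log_nonneg h1
  rw [abs_of_nonneg (mul_nonneg (Real.rpow_nonneg (by linarith) _) h3), mul_comm]
  exact mul_le_mul (logW_le ha ha1 hx) (Real.rpow_le_rpow (by linarith) h2 hα)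
    (Real.rpow_nonneg (by linarith) _) hℓ

/-- `κ(x) = a x / (1 + a x)`. -/
def kap (a x : ℝ) : ℝ := a * x / (1 + a * x)

lemma measurable_kap (a : ℝ) : Measurable (kap a) := by
  unfold kap
  exact (measurable_const.mul measurable_id).div
    (measurable_const.add (measurable_const.mul measurable_id))

lemma kap_nonneg {a x : ℝ} (ha : 0 < a) (hx : 0 ≤ x) : 0 ≤ kap a x :=
  div_nonneg (by positivity) (H_pos ha hx).le

lemma kap_le_one {a x : ℝ} (ha : 0 < a) (hx : 0 ≤ x) : kap a x ≤ 1 := by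
  unfold kap
  rw [div_le_one (H_pos ha hx)]
  linarith

lemma cl_Vkap {a s : ℝ} (ha : 0 < a) (hs : s ≤ α) :
    Cl α (fun x => (1 + x) ^ s * kap a x) := by
  refine (cl_V hs).of_le (((measurable_const.add measurable_id).pow_const s).mul
    (measurable_kap a)) fun x hx => ?_
  have h1 : 0 ≤ (1 + x) ^ s := Real.rpow_nonneg (by linarith) _
  rw [abs_of_nonneg (mul_nonneg h1 (kap_nonneg ha hx))]
  nlinarith [kap_le_one ha hx]

/-- `B = V^α - W^α`. -/
def Bf (α a x : ℝ) : ℝ := (1 + x) ^ α - W a x ^ α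

lemma cl_B {a : ℝ} (ha : 0 < a) (hα : 0 ≤ α) : Cl α (Bf α a) :=
  (cl_V le_rfl).sub (cl_W ha hα le_rfl)

lemma B_eq {a x : ℝ} (ha : 0 < a) (hx : 0 ≤ x) :
    Bf α a x = (1 + x) ^ α * (1 - (1 + a * x) ^ (-α)) := by
  unfold Bf W
  rw [Real.div_rpow (by linarith) (H_pos ha hx).le, Real.rpow_neg (H_pos ha hx).le]
  ring

lemma B_ge {a x : ℝ} (ha : 0 < a) (hα : 1 ≤ α) (hx : 0 ≤ x) :
    (1 + x) ^ α * kap a x ≤ Bf α a x := by
  rw [B_eq ha hx]
  apply mul_le_mul_of_nonneg_left _ (Real.rpow_nonneg (by linarith) _)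
  have hH : 1 ≤ 1 + a * x := by nlinarith
  have h1 : (1 + a * x) ^ (-α) ≤ (1 + a * x) ^ (-1 : ℝ) :=
    Real.rpow_le_rpow_of_exponent_le hH (by linarith)
  rw [Real.rpow_neg_one] at h1
  have h2 : kap a x = 1 - (1 + a * x)⁻¹ := by
    unfold kap; have := (H_pos ha hx).ne'; field_simp; ring
  rw [h2]; linarith

lemma B_nonneg {a x : ℝ} (ha : 0 < a) (hα : 1 ≤ α) (hx : 0 ≤ x) : 0 ≤ Bf α a x :=
  (mul_nonneg (Real.rpow_nonneg (by linarith) _) (kap_nonneg ha hx)).trans (B_ge ha hα hx)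

lemma B_le_V {a x : ℝ} (ha : 0 < a) (hx : 0 ≤ x) : Bf α a x ≤ (1 + x) ^ α := by
  unfold Bf
  have := Real.rpow_nonneg (W_pos ha hx).le α
  linarith

/-- Bernoulli: `B ≤ α V^α (a V)`. -/
lemma B_le {a x : ℝ} (ha : 0 < a) (hα : 1 ≤ α) (hx : 0 ≤ x) :
    Bf α a x ≤ α * (1 + x) ^ α * (a * (1 + x)) := by
  rw [B_eq ha hx]
  have hH : 1 ≤ 1 + a * x := by nlinarith
  have hH0 : 0 < 1 + a * x := by linarith
  -- 1 - H^{-α} ≤ α (1 - 1/H) ≤ α a x
  have h1 : 1 + α * (-(kap a x)) ≤ (1 + -(kap a x)) ^ α :=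
    one_add_mul_self_le_rpow_one_add (by have := kap_le_one ha hx; linarith) hα
  have h2 : 1 + -(kap a x) = (1 + a * x)⁻¹ := by
    unfold kap; have := (H_pos ha hx).ne'; field_simp; ring
  rw [h2, Real.inv_rpow hH0.le, ← Real.rpow_neg hH0.le] at h1
  have h3 : kap a x ≤ a * (1 + x) := by
    unfold kap
    rw [div_le_iff₀ hH0]
    nlinarith [mul_nonneg (mul_nonneg ha.le hx) (mul_nonneg ha.le hx),
      mul_nonneg ha.le hx, mul_nonneg (mul_nonneg ha.le hx) ha.le]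
  have h4 : 1 - (1 + a * x) ^ (-α) ≤ α * (a * (1 + x)) := by nlinarith
  have h5 : 0 ≤ (1 + x) ^ α := Real.rpow_nonneg (by linarith) _
  calc (1 + x) ^ α * (1 - (1 + a * x) ^ (-α)) ≤ (1 + x) ^ α * (α * (a * (1 + x))) :=
        mul_le_mul_of_nonneg_left h4 h5
    _ = _ := by ring

/-- `V^α - x^α ≤ α V^(α-1)`. -/
lemma V_sub_x_le {x : ℝ} (hα : 1 ≤ α) (hx : 0 ≤ x) :
    (1 + x) ^ α - x ^ α ≤ α * (1 + x) ^ (α - 1) := by
  have hV : 0 < 1 + x := by linarith
  have h1 : 1 + α * (-(1 + x)⁻¹) ≤ (1 + -(1 + x)⁻¹) ^ α :=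
    one_add_mul_self_le_rpow_one_add
      (by have : (1 + x)⁻¹ ≤ 1 := inv_le_one_of_one_le₀ (by linarith); linarith) hα
  have h2 : 1 + -(1 + x)⁻¹ = x / (1 + x) := by field_simp; ring
  rw [h2, Real.div_rpow hx hV.le] at h1
  have h3 : 0 < (1 + x) ^ α := Real.rpow_pos_of_pos hV _
  rw [le_div_iff₀ h3] at h1
  have h4 : (1 + x) ^ (α - 1) = (1 + x) ^ α * (1 + x)⁻¹ := by
    rw [Real.rpow_sub_one hV.ne', div_eq_mul_inv]
  rw [h4]
  nlinarith

lemma one_le_V_sub_x {x : ℝ} (hα : 1 ≤ α) (hx : 0 ≤ x) : 1 ≤ (1 + x) ^ α - x ^ α := by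
  have h := Real.add_rpow_le_rpow_add (zero_le_one) hx hα
  rw [Real.one_rpow] at h
  linarith

namespace Setup

/-- Uniform bound for the moments of order `< α`. -/
lemma V_bound (S : Setup P Z α) {s : ℝ} (hs0 : 0 < s) (hs : s < α) :
    ∃ C, 0 ≤ C ∧ ∀ a, 0 < a → a ≤ 1 → Lam P Z a (fun x => (1 + x) ^ s) ≤ C := by
  have hα := S.α_pos.le
  have hprob := S.prob
  set q := ∫ ω, (Z 0 ω) ^ s ∂P with hq
  have hq1 : q < 1 := S.q_lt_one hs0 hs
  have hq0 : 0 ≤ q := by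
    apply integral_nonneg_of_ae
    filter_upwards [S.pos] with ω hω using Real.rpow_nonneg hω.le _
  -- choose δ
  set δ := (1 - q) / 2 with hδ
  have hδ0 : 0 < δ := by rw [hδ]; linarith
  have hδq : (1 + δ) * q < 1 := by rw [hδ]; nlinarith
  -- choose t₀
  have hlim : Tendsto (fun t : ℝ => (1 + t⁻¹) ^ s) atTop (𝓝 ((1 + 0) ^ s)) := by
    apply Tendsto.rpow_const
    · exact tendsto_const_nhds.add tendsto_inv_atTop_zero
    · right; exact hs0.le
  rw [add_zero, Real.one_rpow] at hlim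
  obtain ⟨t₀, ht₀⟩ := (eventually_atTop.1 ((hlim.eventually_lt_const
    (by linarith : (1 : ℝ) < 1 + δ)).and (eventually_gt_atTop (0 : ℝ))))
  have ht₀pos : 0 < t₀ := (ht₀ t₀ le_rfl).2
  set K := (1 + t₀) ^ s with hK
  have hK0 : 0 ≤ K := Real.rpow_nonneg (by linarith) _
  have hD : 0 < 1 - (1 + δ) * q := by linarith
  refine ⟨K / (1 - (1 + δ) * q), div_nonneg hK0 hD.le, fun a ha ha1 => ?_⟩
  have hfc := cl_V hs.le
  have h := S.Lam_step_le ha ha1 hfc (F₁ := fun z => (1 + δ) * z ^ s)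
    ((measurable_id.pow_const s).const_mul _) ((S.int_rpow hs0.le hs.le).const_mul _) hfc
    (F₂ := fun _ => (1 : ℝ)) measurable_const (integrable_const _) (Cl.const hα K) (by
      intro z x hz hx
      have hW := W_pos ha hx
      set t := z * W a x with ht
      have ht0 : 0 < t := mul_pos hz hW
      rw [one_mul]
      rcases le_total t₀ t with h | h
      · have h1 := (ht₀ t h).1.le
        have h2 : 1 + t = t * (1 + t⁻¹) := by rw [mul_add, mul_inv_cancel₀ ht0.ne']; ring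
        have h3 : (1 + t) ^ s = t ^ s * (1 + t⁻¹) ^ s := by
          rw [h2, Real.mul_rpow ht0.le (by positivity)]
        have h4 : t ^ s ≤ z ^ s * (1 + x) ^ s := by
          rw [ht, Real.mul_rpow hz.le hW.le]
          exact mul_le_mul_of_nonneg_left (Real.rpow_le_rpow hW.le (W_le ha hx) hs0.le)
            (Real.rpow_nonneg hz.le _)
        have h5 : 0 ≤ t ^ s := Real.rpow_nonneg ht0.le _
        rw [h3]
        calc t ^ s * (1 + t⁻¹) ^ s ≤ t ^ s * (1 + δ) := mul_le_mul_of_nonneg_left h1 h5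
          _ ≤ z ^ s * (1 + x) ^ s * (1 + δ) := mul_le_mul_of_nonneg_right h4 (by linarith)
          _ ≤ (1 + δ) * z ^ s * (1 + x) ^ s + K := by nlinarith
      · have h1 : (1 + t) ^ s ≤ K := Real.rpow_le_rpow (by linarith) (by linarith) hs0.le
        have h2 : 0 ≤ (1 + δ) * z ^ s * (1 + x) ^ s := by
          have := Real.rpow_nonneg hz.le s
          have := Real.rpow_nonneg (by linarith : 0 ≤ 1 + x) s
          positivity
        linarith)
  rw [integral_const_mul, integral_const, S.Lam_const] at h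
  simp only [probReal_univ, smul_eq_mul, one_mul, mul_one] at h
  rw [le_div_iff₀ hD]
  rw [← hq] at h
  nlinarith

/-- `M(a) = Λ(x^α)`. -/
lemma M_eq (S : Setup P Z α) {a : ℝ} (ha : 0 < a) (ha1 : a ≤ 1) :
    Lam P Z a (fun x => W a x ^ α) = Lam P Z a (fun x => x ^ α) := by
  have hα := S.α_pos.le
  have hprob := S.prob
  have h := S.Lam_step_eq ha ha1 (cl_pow hα le_rfl) (F₁ := fun z => z ^ α)
    (measurable_id.pow_const α) S.int_α (cl_W ha hα le_rfl) (F₂ := fun _ => (0 : ℝ))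
    measurable_const (integrable_const _) (Cl.const hα (0 : ℝ)) (by
      intro z x hz hx
      rw [Real.mul_rpow hz.le (W_pos ha hx).le]; ring)
  rw [S.one] at h
  simp only [integral_const, smul_eq_mul, mul_zero, zero_mul, add_zero, one_mul] at h
  exact h.symm

/-- `G(a) = Λ(V^α - x^α)`. -/
def G (P : Measure Ω) (Z : ℕ → Ω → ℝ) (α a : ℝ) : ℝ :=
  Lam P Z a (fun x => (1 + x) ^ α - x ^ α)

lemma Lam_B (S : Setup P Z α) {a : ℝ} (ha : 0 < a) (ha1 : a ≤ 1) :
    Lam P Z a (Bf α a) = G P Z α a := by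
  have hα := S.α_pos.le
  unfold Bf G
  rw [S.Lam_sub ha ha1 (cl_V le_rfl) (cl_W ha hα le_rfl),
    S.Lam_sub ha ha1 (cl_V le_rfl) (cl_pow hα le_rfl), S.M_eq ha ha1]

lemma G_bound (S : Setup P Z α) : ∃ C, 0 ≤ C ∧ ∀ a, 0 < a → a ≤ 1 → G P Z α a ≤ C := by
  have hα := S.α_pos.le
  obtain ⟨C, hC0, hC⟩ := S.V_bound (s := α - 1 / 2) (by have := S.hα; linarith) (by linarith)
  refine ⟨α * C, by positivity, fun a ha ha1 => ?_⟩
  have h1 : G P Z α a ≤ Lam P Z a (fun x => α * (1 + x) ^ (α - 1 / 2)) := by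
    unfold G
    apply S.Lam_mono ha ha1 ((cl_V le_rfl).sub (cl_pow hα le_rfl))
      ((cl_V (by linarith)).const_mul _)
    intro x hx
    refine (V_sub_x_le S.hα hx).trans (mul_le_mul_of_nonneg_left ?_ hα)
    exact Real.rpow_le_rpow_of_exponent_le (by linarith) (by linarith)
  rw [S.Lam_const_mul ha ha1 (cl_V (by linarith))] at h1
  exact h1.trans (mul_le_mul_of_nonneg_left (hC a ha ha1) hα)

lemma one_le_G (S : Setup P Z α) {a : ℝ} (ha : 0 < a) (ha1 : a ≤ 1) : 1 ≤ G P Z α a := by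
  have hα := S.α_pos.le
  have h := S.Lam_mono ha ha1 (Cl.const hα 1) ((cl_V le_rfl).sub (cl_pow hα le_rfl))
    (fun x hx => one_le_V_sub_x S.hα hx)
  rwa [S.Lam_const] at h

/-- The key bound `Λ(V^α κ) = O(1)`. -/
lemma Vkap_bound (S : Setup P Z α) : ∃ C, 0 ≤ C ∧ ∀ a, 0 < a → a ≤ 1 →
    Lam P Z a (fun x => (1 + x) ^ α * kap a x) ≤ C := by
  obtain ⟨C, hC0, hC⟩ := S.G_bound
  refine ⟨C, hC0, fun a ha ha1 => le_trans ?_ (hC a ha ha1)⟩
  rw [← S.Lam_B ha ha1]
  exact S.Lam_mono ha ha1 (cl_Vkap ha le_rfl) (cl_B ha S.α_pos.le)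
    fun x hx => B_ge ha S.hα hx

end Setup

end

end Pool.Agent.H741R4.DH
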