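import Pool.Agent.H741R4.DH4

/-!
Derrida-Hilhorst singularity, part 5: the logarithmic identity and the growth of `Λ(x^α)`.
-/

open MeasureTheory ProbabilityTheory Filter Topology

namespace Pool.Agent.H741R4.DH

noncomputable section

variable {Ω : Type*} [mΩ : MeasurableSpace Ω] {P : Measure Ω} {Z : ℕ → Ω → ℝ} {α : ℝ}

lemma phi_nonneg {a c x : ℝ} (ha : 0 < a) (ha1 : a ≤ 1) (hc : 0 ≤ c) (hx : 1 ≤ x) :
    0 ≤ phi a c x := le_min (Real.log_nonneg hx) (add_nonneg (ell_nonneg ha ha1) hc)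

lemma phi_mono {a c x y : ℝ} (hx : 0 < x) (hxy : x ≤ y) : phi a c x ≤ phi a c y :=
  min_le_min_right _ (Real.log_le_log hx hxy)

lemma U1_le {a c x : ℝ} (ha : 0 < a) (ha1 : a ≤ 1) (hc : 0 ≤ c) (hα : 1 ≤ α) (hx : 0 ≤ x) :
    x ^ α * phi a c x ≤ (1 + x) ^ α * phi a c (1 + x) := by
  have h3 : 0 ≤ (1 + x) ^ α := Real.rpow_nonneg (by linarith) _
  have h2 : 0 ≤ phi a c (1 + x) := phi_nonneg ha ha1 hc (by linarith)
  have h4 := mul_nonneg h3 h2
  rcases hx.eq_or_lt with rfl | hx'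
  · rw [Real.zero_rpow (by linarith), zero_mul]; exact h4
  rcases le_total x 1 with h | h
  · have h5 : phi a c x ≤ 0 := (min_le_left _ _).trans (Real.log_nonpos hx h)
    have := mul_nonpos_of_nonneg_of_nonpos (Real.rpow_nonneg hx α) h5
    linarith
  · exact mul_le_mul (Real.rpow_le_rpow hx (by linarith) (by linarith))
      (phi_mono hx' (by linarith)) (phi_nonneg ha ha1 hc h) h3

/-- Pointwise upper bound. -/
lemma U_le {a c x : ℝ} (ha : 0 < a) (ha1 : a ≤ 1) (hc : 0 ≤ c) (hα : 1 ≤ α) (hx : 0 ≤ x) :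
    x ^ α * phi a c x - W a x ^ α * Real.log (W a x)
      ≤ (Real.log (1 / a) + c) * Bf α a x + W a x ^ α * Real.log (1 + a * x) := by
  have hV : 0 < 1 + x := by linarith
  have h0 := U1_le (α := α) ha ha1 hc hα hx
  have hlW : Real.log (W a x) = Real.log (1 + x) - Real.log (1 + a * x) := by
    unfold W; exact Real.log_div hV.ne' (H_pos ha hx).ne'
  have hW0 : 0 ≤ W a x ^ α := Real.rpow_nonneg (W_pos ha hx).le _
  have hB := B_nonneg (α := α) ha hα hx
  have h1 : phi a c (1 + x) ≤ Real.log (1 / a) + c := min_le_right _ _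
  have h2 : phi a c (1 + x) ≤ Real.log (1 + x) := min_le_left _ _
  have e : (1 + x) ^ α * phi a c (1 + x)
      = Bf α a x * phi a c (1 + x) + W a x ^ α * phi a c (1 + x) := by unfold Bf; ring
  have h3 := mul_le_mul_of_nonneg_left h1 hB
  have h4 := mul_le_mul_of_nonneg_left h2 hW0
  rw [hlW]
  nlinarith

/-- Pointwise lower bound. -/
lemma L_ge {a x : ℝ} (ha : 0 < a) (ha1 : a ≤ 1) (hα : 1 ≤ α) (hx : 0 ≤ x)
    (hT : (1 + x) ^ α * Real.log (1 + x) - x ^ α * Real.log x
      ≤ (2 * α + 1) * (1 + x) ^ (α - 1 / 2)) :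
    Bf α a x * phi a 0 (1 + x) - (2 * α + 1) * (1 + x) ^ (α - 1 / 2)
      ≤ x ^ α * phi a 0 x - W a x ^ α * Real.log (W a x) := by
  have hV : 0 < 1 + x := by linarith
  have hℓ := ell_nonneg ha ha1
  have hW0 : 0 ≤ W a x ^ α := Real.rpow_nonneg (W_pos ha hx).le _
  have hlW1 : Real.log (W a x) ≤ Real.log (1 + x) := Real.log_le_log (W_pos ha hx) (W_le ha hx)
  have hlW2 : Real.log (W a x) ≤ phi a 0 (1 + x) := by
    unfold phi; rw [add_zero]; exact le_min hlW1 (logW_le ha ha1 hx)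
  have e : (1 + x) ^ α * phi a 0 (1 + x)
      = Bf α a x * phi a 0 (1 + x) + W a x ^ α * phi a 0 (1 + x) := by unfold Bf; ring
  have h4 := mul_le_mul_of_nonneg_left hlW2 hW0
  have key : (1 + x) ^ α * phi a 0 (1 + x) - x ^ α * phi a 0 x
      ≤ (2 * α + 1) * (1 + x) ^ (α - 1 / 2) := by
    have hVα : 0 ≤ (1 + x) ^ α := Real.rpow_nonneg hV.le _
    have h5 : phi a 0 (1 + x) ≤ Real.log (1 + x) := min_le_left _ _
    have h5' := mul_le_mul_of_nonneg_left h5 hVα
    rcases hx.eq_or_lt with rfl | hx'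
    · rw [Real.zero_rpow (by linarith), zero_mul, sub_zero] at hT ⊢
      exact h5'.trans hT
    rcases le_total (Real.log x) (Real.log (1 / a)) with h | h
    · have h6 : phi a 0 x = Real.log x := by unfold phi; rw [add_zero]; exact min_eq_left h
      rw [h6]
      linarith
    · have h6 : phi a 0 x = Real.log (1 / a) := by unfold phi; rw [add_zero]; exact min_eq_right h
      have hlx : Real.log x ≤ Real.log (1 + x) := Real.log_le_log hx' (by linarith)
      have h7 : phi a 0 (1 + x) = Real.log (1 / a) := by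
        unfold phi; rw [add_zero]; exact min_eq_right (h.trans hlx)
      rw [h6, h7]
      have h8 := V_sub_x_le hα hx
      have h9 : 0 ≤ (1 + x) ^ α - x ^ α := by
        have := one_le_V_sub_x hα hx; linarith
      have h10 : Real.log (1 / a) ≤ Real.log (1 + x) := h.trans hlx
      have h11 : Real.log (1 + x) ≤ 2 * (1 + x) ^ (1 / 2 : ℝ) := by
        have := Real.log_le_rpow_div hV.le (by norm_num : (0 : ℝ) < 1 / 2)
        linarith
      have h12 : (1 + x) ^ (α - 1 / 2) = (1 + x) ^ (α - 1) * (1 + x) ^ (1 / 2 : ℝ) := by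
        rw [← Real.rpow_add hV]; congr 1; ring
      have hVm : 0 < (1 + x) ^ (α - 1) := Real.rpow_pos_of_pos hV _
      have hVh : 0 < (1 + x) ^ (1 / 2 : ℝ) := Real.rpow_pos_of_pos hV _
      calc (1 + x) ^ α * Real.log (1 / a) - x ^ α * Real.log (1 / a)
          = ((1 + x) ^ α - x ^ α) * Real.log (1 / a) := by ring
        _ ≤ (α * (1 + x) ^ (α - 1)) * (2 * (1 + x) ^ (1 / 2 : ℝ)) :=
            mul_le_mul h8 (h10.trans h11) hℓ (by positivity)
        _ = 2 * α * ((1 + x) ^ (α - 1) * (1 + x) ^ (1 / 2 : ℝ)) := by ring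
        _ ≤ (2 * α + 1) * ((1 + x) ^ (α - 1) * (1 + x) ^ (1 / 2 : ℝ)) := by
            apply mul_le_mul_of_nonneg_right _ (by positivity); linarith
        _ = _ := by rw [h12]
  linarith

lemma T1_ge {x : ℝ} (hα : 1 ≤ α) (hx : 0 ≤ x) :
    -((2 * α + 1) * (1 + x) ^ (α - 1 / 2))
      ≤ x ^ α * Real.log x - (1 + x) ^ α * Real.log (1 + x) := by
  have hV : 0 < 1 + x := by linarith
  have hV1 : 1 ≤ 1 + x := by linarith
  have hlog : 0 ≤ Real.log (1 + x) := Real.log_nonneg hV1
  have hVα : 0 < (1 + x) ^ α := Real.rpow_pos_of_pos hV _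
  have hVhalf : 0 < (1 + x) ^ (α - 1 / 2) := Real.rpow_pos_of_pos hV _
  have hVm : 0 < (1 + x) ^ (α - 1) := Real.rpow_pos_of_pos hV _
  have h4 : (1 + x) ^ (α - 1) = (1 + x) ^ α * (1 + x)⁻¹ := by
    rw [Real.rpow_sub_one hV.ne', div_eq_mul_inv]
  -- main: V^α log V - x^α log x ≤ V^(α-1) (α log V + 1)
  have hmain : (1 + x) ^ α * Real.log (1 + x) - x ^ α * Real.log x
      ≤ (1 + x) ^ (α - 1) * (α * Real.log (1 + x) + 1) := by
    rcases hx.eq_or_lt with rfl | hx'
    · simp only [add_zero, Real.log_one, mul_zero, Real.log_zero, sub_self, zero_add, mul_one]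
      exact (Real.rpow_pos_of_pos one_pos _).le
    · set r := x / (1 + x) with hr
      have hr0 : 0 < r := div_pos hx' hV
      have hr1 : r ≤ 1 := (div_le_one hV).2 (by linarith)
      have hr2 : 1 - r = (1 + x)⁻¹ := by rw [hr]; field_simp; ring
      have hxr : x = (1 + x) * r := by rw [hr]; field_simp
      have e1 : x ^ α = (1 + x) ^ α * r ^ α := by
        conv_lhs => rw [hxr]
        rw [Real.mul_rpow hV.le hr0.le]
      have e2 : Real.log x = Real.log (1 + x) + Real.log r := by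
        conv_lhs => rw [hxr]
        rw [Real.log_mul hV.ne' hr0.ne']
      have h1 : 1 - r ^ α ≤ α * (1 + x)⁻¹ := by
        have h := one_add_mul_self_le_rpow_one_add (s := r - 1) (by linarith) hα
        rw [add_sub_cancel] at h
        rw [← hr2]; linarith
      have h2 : -(r ^ α * Real.log r) ≤ (1 + x)⁻¹ := by
        have h5 : r ^ α ≤ r := by
          have := Real.rpow_le_rpow_of_exponent_ge hr0 hr1 hα
          rwa [Real.rpow_one] at this
        have h6 : Real.log r ≤ 0 := Real.log_nonpos hr0.le hr1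
        have h7 := Real.log_le_sub_one_of_pos (inv_pos.2 hr0)
        rw [Real.log_inv] at h7
        have h8 : r * (-Real.log r) ≤ r * (r⁻¹ - 1) := mul_le_mul_of_nonneg_left h7 hr0.le
        have h9 : r * (r⁻¹ - 1) = 1 - r := by field_simp
        have h10 : r * Real.log r ≤ r ^ α * Real.log r := mul_le_mul_of_nonpos_right h5 h6
        rw [← hr2]; linarith
      rw [e1, e2, h4]
      have e3 : (1 + x) ^ α * Real.log (1 + x)
            - (1 + x) ^ α * r ^ α * (Real.log (1 + x) + Real.log r)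
          = (1 + x) ^ α * ((1 - r ^ α) * Real.log (1 + x) + -(r ^ α * Real.log r)) := by ring
      rw [e3]
      have e4 : (1 + x) ^ α * (1 + x)⁻¹ * (α * Real.log (1 + x) + 1)
          = (1 + x) ^ α * (α * (1 + x)⁻¹ * Real.log (1 + x) + (1 + x)⁻¹) := by ring
      rw [e4]
      apply mul_le_mul_of_nonneg_left _ hVα.le
      have := mul_le_mul_of_nonneg_right h1 hlog
      linarith
  have h5 : Real.log (1 + x) ≤ 2 * (1 + x) ^ (1 / 2 : ℝ) := by
    have := Real.log_le_rpow_div hV.le (by norm_num : (0 : ℝ) < 1 / 2)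
    linarith
  have h6 : 1 ≤ (1 + x) ^ (1 / 2 : ℝ) := Real.one_le_rpow hV1 (by norm_num)
  have h7 : (1 + x) ^ (α - 1 / 2) = (1 + x) ^ (α - 1) * (1 + x) ^ (1 / 2 : ℝ) := by
    rw [← Real.rpow_add hV]; congr 1; ring
  have h8 : (1 + x) ^ (α - 1) * (α * Real.log (1 + x) + 1)
      ≤ (2 * α + 1) * (1 + x) ^ (α - 1 / 2) := by
    rw [h7]
    have h9 : α * Real.log (1 + x) + 1 ≤ (2 * α + 1) * (1 + x) ^ (1 / 2 : ℝ) := by
      have := mul_le_mul_of_nonneg_left h5 (by linarith : 0 ≤ α)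
      nlinarith
    have := mul_le_mul_of_nonneg_left h9 hVm.le
    linarith
  linarith

lemma T2_le {a x : ℝ} (ha : 0 < a) (hα : 0 < α) (hx : 0 ≤ x) :
    W a x ^ α * Real.log (1 + a * x) ≤ (1 / α) * Bf α a x := by
  have hH := H_pos ha hx
  have hu : 0 < (1 + a * x) ^ α := Real.rpow_pos_of_pos hH _
  have h1 : Real.log ((1 + a * x) ^ α) ≤ (1 + a * x) ^ α - 1 := Real.log_le_sub_one_of_pos hu
  rw [Real.log_rpow hH] at h1
  have hWV : W a x ^ α * (1 + a * x) ^ α = (1 + x) ^ α := by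
    unfold W
    rw [Real.div_rpow (by linarith) hH.le]; field_simp
  have hW : 0 ≤ W a x ^ α := Real.rpow_nonneg (W_pos ha hx).le _
  have h2 := mul_le_mul_of_nonneg_left h1 hW
  have h3 : W a x ^ α * ((1 + a * x) ^ α - 1) = Bf α a x := by
    unfold Bf; rw [mul_sub, hWV, mul_one]
  rw [h3] at h2
  rw [one_div, ← div_eq_inv_mul, le_div_iff₀ hα]
  linarith

/-- `M(a) = Λ(x^α)`. -/
def Mf (P : Measure Ω) (Z : ℕ → Ω → ℝ) (α a : ℝ) : ℝ := Lam P Z a (fun x => x ^ α)

/-- `m = E[Z^α log Z]`. -/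
def mm (P : Measure Ω) (Z : ℕ → Ω → ℝ) (α : ℝ) : ℝ := ∫ ω, (Z 0 ω) ^ α * Real.log (Z 0 ω) ∂P

/-- `m_c = E[Z^α min(log Z, c)]`. -/
def mc (P : Measure Ω) (Z : ℕ → Ω → ℝ) (α c : ℝ) : ℝ :=
  ∫ ω, (Z 0 ω) ^ α * min (Real.log (Z 0 ω)) c ∂P

namespace Setup

lemma zmin_ge {z c : ℝ} (hα : 1 ≤ α) (hc : 0 ≤ c) (hz : 0 < z) :
    -1 ≤ z ^ α * min (Real.log z) c := by
  have h1 := rpow_mul_log_ge hα hz
  rcases min_cases (Real.log z) c with ⟨h, _⟩ | ⟨h, _⟩
  · rw [h]; exact h1
  · rw [h]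
    have : 0 ≤ z ^ α * c := mul_nonneg (Real.rpow_nonneg hz.le _) hc
    linarith

lemma meas_mc (S : Setup P Z α) (c : ℝ) :
    Measurable (fun ω => (Z 0 ω) ^ α * min (Real.log (Z 0 ω)) c) :=
  ((S.meas 0).pow_const α).mul ((Real.measurable_log.comp (S.meas 0)).min measurable_const)

lemma int_mc (S : Setup P Z α) {c : ℝ} (hc : 0 ≤ c) :
    Integrable (fun ω => (Z 0 ω) ^ α * min (Real.log (Z 0 ω)) c) P := by
  have := S.prob
  refine Integrable.mono' ((integrable_const (1 : ℝ)).add (S.int_α.const_mul c))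
    (S.meas_mc c).aestronglyMeasurable ?_
  filter_upwards [S.pos] with ω hω
  have h1 := zmin_ge S.hα hc hω
  have h2 : (Z 0 ω) ^ α * min (Real.log (Z 0 ω)) c ≤ c * (Z 0 ω) ^ α := by
    rw [mul_comm c]
    exact mul_le_mul_of_nonneg_left (min_le_right _ _) (Real.rpow_nonneg hω.le _)
  have h3 : 0 ≤ c * (Z 0 ω) ^ α := mul_nonneg hc (Real.rpow_nonneg hω.le _)
  rw [Real.norm_eq_abs]
  simp only [Pi.add_apply]
  rw [abs_le]
  constructor <;> linarith

lemma mc_tendsto (S : Setup P Z α)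
    (hlog : Integrable (fun ω => (Z 0 ω) ^ α * Real.log (Z 0 ω)) P) :
    Tendsto (mc P Z α) atTop (𝓝 (mm P Z α)) := by
  have hprob := S.prob
  refine tendsto_integral_filter_of_dominated_convergence
    (fun ω => 1 + |(Z 0 ω) ^ α * Real.log (Z 0 ω)|)
    (Eventually.of_forall fun c => (S.meas_mc c).aestronglyMeasurable)
    ?_ ((integrable_const (1 : ℝ)).add hlog.abs) (Eventually.of_forall fun ω => ?_)
  · filter_upwards [eventually_ge_atTop 0] with c hc
    filter_upwards [S.pos] with ω hω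
    have h1 := zmin_ge S.hα hc hω
    have h2 : (Z 0 ω) ^ α * min (Real.log (Z 0 ω)) c ≤ (Z 0 ω) ^ α * Real.log (Z 0 ω) :=
      mul_le_mul_of_nonneg_left (min_le_left _ _) (Real.rpow_nonneg hω.le _)
    have h3 := le_abs_self ((Z 0 ω) ^ α * Real.log (Z 0 ω))
    have h4 := abs_nonneg ((Z 0 ω) ^ α * Real.log (Z 0 ω))
    rw [Real.norm_eq_abs, abs_le]
    constructor <;> linarith
  · refine tendsto_const_nhds.congr' ?_
    filter_upwards [eventually_ge_atTop (Real.log (Z 0 ω))] with c hc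
    rw [min_eq_left hc]

/-- If `Z^α log Z` is not integrable then the truncated means are unbounded. -/
lemma mc_unbdd (S : Setup P Z α)
    (hlog : ¬ Integrable (fun ω => (Z 0 ω) ^ α * Real.log (Z 0 ω)) P) (K : ℝ) :
    ∃ c, 0 ≤ c ∧ K < mc P Z α c := by
  by_contra hcon
  push Not at hcon
  apply hlog
  have hprob := S.prob
  -- nonnegative versions
  have hmeas : Measurable (fun ω => (Z 0 ω) ^ α * Real.log (Z 0 ω)) :=
    ((S.meas 0).pow_const α).mul (Real.measurable_log.comp (S.meas 0))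
  have key : Integrable (fun ω => (Z 0 ω) ^ α * Real.log (Z 0 ω) + 1) P := by
    refine ⟨(hmeas.add measurable_const).aestronglyMeasurable, ?_⟩
    rw [hasFiniteIntegral_iff_ofReal]
    · have hlim : Tendsto (fun n : ℕ => ∫⁻ ω, ENNReal.ofReal
          ((Z 0 ω) ^ α * min (Real.log (Z 0 ω)) n + 1) ∂P) atTop
          (𝓝 (∫⁻ ω, ENNReal.ofReal ((Z 0 ω) ^ α * Real.log (Z 0 ω) + 1) ∂P)) := by
        apply lintegral_tendsto_of_tendsto_of_monotone
        · intro n
          exact ((S.meas_mc n).add measurable_const).ennreal_ofReal.aemeasurable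
        · filter_upwards [S.pos] with ω hω
          intro n n' hn
          apply ENNReal.ofReal_le_ofReal
          have : min (Real.log (Z 0 ω)) (n : ℝ) ≤ min (Real.log (Z 0 ω)) (n' : ℝ) :=
            min_le_min_left _ (by exact_mod_cast hn)
          have := mul_le_mul_of_nonneg_left this (Real.rpow_nonneg hω.le α)
          linarith
        · refine Eventually.of_forall fun ω => ?_
          refine tendsto_const_nhds.congr' ?_
          filter_upwards [tendsto_natCast_atTop_atTop.eventually_ge_atTop (Real.log (Z 0 ω))]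
            with n hn
          rw [min_eq_left hn]
      refine lt_of_le_of_lt (le_of_tendsto' hlim fun n => ?_) (ENNReal.ofReal_lt_top (r := K + 1))
      have hint : Integrable (fun ω => (Z 0 ω) ^ α * min (Real.log (Z 0 ω)) (n : ℝ) + 1) P :=
        (S.int_mc (Nat.cast_nonneg n)).add (integrable_const _)
      rw [← ofReal_integral_eq_lintegral_ofReal hint]
      · apply ENNReal.ofReal_le_ofReal
        rw [integral_add (S.int_mc (Nat.cast_nonneg n)) (integrable_const _), integral_const,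
          probReal_univ, one_smul]
        have := hcon n (Nat.cast_nonneg n)
        unfold mc at this
        linarith
      · filter_upwards [S.pos] with ω hω
        have := zmin_ge S.hα (Nat.cast_nonneg n) hω
        simp only [Pi.zero_apply]
        linarith
    · filter_upwards [S.pos] with ω hω
      have := rpow_mul_log_ge S.hα hω
      simp only [Pi.zero_apply]
      linarith
  have := key.sub (integrable_const (1 : ℝ))
  refine this.congr (Eventually.of_forall fun ω => ?_)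
  simp

/-- There is always a truncation level with positive truncated mean. -/
lemma exists_mc_pos (S : Setup P Z α) : ∃ c, 0 ≤ c ∧ 0 < mc P Z α c := by
  by_cases hlog : Integrable (fun ω => (Z 0 ω) ^ α * Real.log (Z 0 ω)) P
  · obtain ⟨c, hc⟩ := (((S.mc_tendsto hlog).eventually_const_lt (S.m_pos hlog)).and
      (eventually_ge_atTop 0)).exists
    exact ⟨c, hc.2, hc.1⟩
  · exact S.mc_unbdd hlog 0

/-- The truncated identity, lower half. -/
lemma id_ge (S : Setup P Z α) {a c : ℝ} (ha : 0 < a) (ha1 : a ≤ 1) (hc : 0 ≤ c) :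
    mc P Z α c * Mf P Z α a
      ≤ Lam P Z a (fun x => x ^ α * phi a c x - W a x ^ α * Real.log (W a x)) := by
  have hα := S.α_pos.le
  have hf := cl_xphi ha ha1 hc S.hα
  have h := S.Lam_step_le ha ha1 (hf.const_mul (-1))
    (F₁ := fun z => -(z ^ α * min (Real.log z) c))
    ((measurable_id.pow_const α).mul (Real.measurable_log.min measurable_const)).neg
    (S.int_mc hc).neg (cl_W ha hα le_rfl)
    (F₂ := fun z => -z ^ α) (measurable_id.pow_const α).neg S.int_α.neg (cl_WlogW ha ha1 hα) (by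
      intro z x hz hx
      have hW := W_pos ha hx
      have h1 : Real.log (W a x) + min (Real.log z) c ≤ phi a c (z * W a x) := by
        unfold phi
        rw [Real.log_mul hz.ne' hW.ne']
        apply le_min
        · have := min_le_left (Real.log z) c
          linarith
        · have := min_le_right (Real.log z) c
          have := logW_le ha ha1 hx
          linarith
      have h2 : 0 ≤ z ^ α * W a x ^ α :=
        mul_nonneg (Real.rpow_nonneg hz.le _) (Real.rpow_nonneg hW.le _)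
      have h3 := mul_le_mul_of_nonneg_left h1 h2
      rw [Real.mul_rpow hz.le hW.le]
      linarith)
  rw [integral_neg, integral_neg, S.one, S.M_eq ha ha1, S.Lam_const_mul ha ha1 hf] at h
  rw [S.Lam_sub ha ha1 hf (cl_WlogW ha ha1 hα)]
  unfold mc Mf
  linarith

/-- The truncated identity, upper half. -/
lemma id_le (S : Setup P Z α)
    (hlog : Integrable (fun ω => (Z 0 ω) ^ α * Real.log (Z 0 ω)) P)
    {a : ℝ} (ha : 0 < a) (ha1 : a ≤ 1) :
    Lam P Z a (fun x => x ^ α * phi a 0 x - W a x ^ α * Real.log (W a x))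
      ≤ mm P Z α * Mf P Z α a := by
  have hα := S.α_pos.le
  have hf := cl_xphi ha ha1 le_rfl S.hα
  have h := S.Lam_step_le ha ha1 hf
    (F₁ := fun z => z ^ α * Real.log z)
    ((measurable_id.pow_const α).mul Real.measurable_log) hlog (cl_W ha hα le_rfl)
    (F₂ := fun z => z ^ α) (measurable_id.pow_const α) S.int_α (cl_WlogW ha ha1 hα) (by
      intro z x hz hx
      have hW := W_pos ha hx
      have h1 : phi a 0 (z * W a x) ≤ Real.log z + Real.log (W a x) := by
        rw [← Real.log_mul hz.ne' hW.ne']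
        exact min_le_left _ _
      have h2 : 0 ≤ z ^ α * W a x ^ α :=
        mul_nonneg (Real.rpow_nonneg hz.le _) (Real.rpow_nonneg hW.le _)
      have h3 := mul_le_mul_of_nonneg_left h1 h2
      rw [Real.mul_rpow hz.le hW.le]
      linarith)
  rw [S.one, S.M_eq ha ha1] at h
  rw [S.Lam_sub ha ha1 hf (cl_WlogW ha ha1 hα)]
  unfold mm Mf
  linarith

lemma Mf_nonneg (S : Setup P Z α) {a : ℝ} (ha : 0 < a) (ha1 : a ≤ 1) : 0 ≤ Mf P Z α a :=
  S.Lam_nonneg ha ha1 (cl_pow S.α_pos.le le_rfl) fun x hx => Real.rpow_nonneg hx _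

lemma upper (S : Setup P Z α) {a c : ℝ} (ha : 0 < a) (ha1 : a ≤ 1) (hc : 0 ≤ c) :
    mc P Z α c * Mf P Z α a ≤ (Real.log (1 / a) + c + 1 / α) * G P Z α a := by
  have hα := S.α_pos.le
  refine (S.id_ge ha ha1 hc).trans ?_
  have hB := cl_B ha hα
  have h1 : Lam P Z a (fun x => x ^ α * phi a c x - W a x ^ α * Real.log (W a x))
      ≤ Lam P Z a (fun x => (Real.log (1 / a) + c + 1 / α) * Bf α a x) := by
    apply S.Lam_mono ha ha1 ((cl_xphi ha ha1 hc S.hα).sub (cl_WlogW ha ha1 hα)) (hB.const_mul _)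
    intro x hx
    have t1 := U_le ha ha1 hc S.hα hx
    have t2 := T2_le (α := α) ha S.α_pos hx
    linarith
  rw [S.Lam_const_mul ha ha1 hB, S.Lam_B ha ha1] at h1
  exact h1

lemma T3_ge {a δ x : ℝ} (ha : 0 < a) (ha1 : a ≤ 1) (hδ : 0 < δ) (hδ1 : δ < 1) (hα : 1 ≤ α)
    (hx : 0 ≤ x) : (Real.log (1 / a) - δ * Real.log (1 / a)) * Bf α a x
      - (α * Real.log (1 / a) * a ^ (δ / 2)) * (1 + x) ^ (α - δ / 2)
      ≤ Bf α a x * phi a 0 (1 + x) := by
  have hB := B_nonneg (α := α) ha hα hx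
  have hV : 0 < 1 + x := by linarith
  have hl := ell_nonneg ha ha1
  have hla : Real.log (1 / a) = - Real.log a := by
    rw [Real.log_div one_ne_zero ha.ne', Real.log_one, zero_sub]
  have hVe : 0 < (1 + x) ^ (α - δ / 2) := Real.rpow_pos_of_pos hV _
  have haδ : 0 < a ^ (δ / 2) := Real.rpow_pos_of_pos ha _
  rcases le_total (a ^ δ) (a * (1 + x)) with h | h
  · have h1 : Real.log (a ^ δ) ≤ Real.log (a * (1 + x)) :=
      Real.log_le_log (Real.rpow_pos_of_pos ha _) h
    rw [Real.log_rpow ha, Real.log_mul ha.ne' hV.ne'] at h1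
    have h2 : Real.log (1 / a) - δ * Real.log (1 / a) ≤ phi a 0 (1 + x) := by
      unfold phi
      rw [add_zero]
      apply le_min
      · rw [hla]; linarith
      · nlinarith
    have h3 := mul_le_mul_of_nonneg_left h2 hB
    have h4 : 0 ≤ (α * Real.log (1 / a) * a ^ (δ / 2)) * (1 + x) ^ (α - δ / 2) := by positivity
    linarith
  · have h1 : 0 ≤ phi a 0 (1 + x) := phi_nonneg ha ha1 le_rfl (by linarith)
    have h2 := mul_nonneg hB h1
    have h3 : Bf α a x ≤ α * a ^ (δ / 2) * (1 + x) ^ (α - δ / 2) := by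
      have h4 := B_le (α := α) ha hα hx
      have haV : 0 < a * (1 + x) := by positivity
      have h5 : a * (1 + x) ≤ 1 := h.trans (Real.rpow_le_one ha.le ha1 hδ.le)
      have h6 : (1 + x) ^ α = (1 + x) ^ (α - δ / 2) * (1 + x) ^ (δ / 2) := by
        rw [← Real.rpow_add hV]; congr 1; ring
      have h7 : a ^ (δ / 2) * (1 + x) ^ (δ / 2) ≤ 1 := by
        rw [← Real.mul_rpow ha.le hV.le]
        exact Real.rpow_le_one haV.le h5 (by linarith)
      have h8 : a ^ δ = a ^ (δ / 2) * a ^ (δ / 2) := by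
        rw [← Real.rpow_add ha]; congr 1; ring
      have h9 : (1 + x) ^ (δ / 2) * (a * (1 + x)) ≤ a ^ (δ / 2) := by
        have hVd : 0 ≤ (1 + x) ^ (δ / 2) := Real.rpow_nonneg hV.le _
        calc (1 + x) ^ (δ / 2) * (a * (1 + x)) ≤ (1 + x) ^ (δ / 2) * a ^ δ :=
              mul_le_mul_of_nonneg_left h hVd
          _ = (a ^ (δ / 2) * (1 + x) ^ (δ / 2)) * a ^ (δ / 2) := by rw [h8]; ring
          _ ≤ 1 * a ^ (δ / 2) := mul_le_mul_of_nonneg_right h7 haδ.le
          _ = a ^ (δ / 2) := one_mul _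
      calc Bf α a x ≤ α * (1 + x) ^ α * (a * (1 + x)) := h4
        _ = α * (1 + x) ^ (α - δ / 2) * ((1 + x) ^ (δ / 2) * (a * (1 + x))) := by rw [h6]; ring
        _ ≤ α * (1 + x) ^ (α - δ / 2) * a ^ (δ / 2) :=
            mul_le_mul_of_nonneg_left h9 (by positivity)
        _ = _ := by ring
    have h4 := mul_le_mul_of_nonneg_left h3 hl
    have h5 : 0 ≤ δ * Real.log (1 / a) * Bf α a x := by positivity
    linarith

lemma lower (S : Setup P Z α)
    (hlog : Integrable (fun ω => (Z 0 ω) ^ α * Real.log (Z 0 ω)) P)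
    {δ : ℝ} (hδ : 0 < δ) (hδ1 : δ < 1) :
    ∃ C, 0 ≤ C ∧ ∀ a, 0 < a → a ≤ 1 →
      (Real.log (1 / a) - δ * Real.log (1 / a)) * G P Z α a - C
        - C * (Real.log (1 / a) * a ^ (δ / 2)) ≤ mm P Z α * Mf P Z α a := by
  have hα := S.α_pos.le
  have hα1 := S.hα
  obtain ⟨C₁, hC₁0, hC₁⟩ := S.V_bound (s := α - 1 / 2) (by linarith) (by linarith)
  obtain ⟨C₂, hC₂0, hC₂⟩ := S.V_bound (s := α - δ / 2) (by linarith) (by linarith)
  refine ⟨(2 * α + 1) * C₁ + α * C₂, by positivity, fun a ha ha1 => ?_⟩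
  refine le_trans ?_ (S.id_le hlog ha ha1)
  have hB := cl_B ha hα
  have hc1 := cl_V (by linarith : α - 1 / 2 ≤ α)
  have hc2 := cl_V (by linarith : α - δ / 2 ≤ α)
  have hl := ell_nonneg ha ha1
  have h1 : Lam P Z a (fun x => ((Real.log (1 / a) - δ * Real.log (1 / a)) * Bf α a x
        + (-(2 * α + 1)) * (1 + x) ^ (α - 1 / 2))
        + (-(α * Real.log (1 / a) * a ^ (δ / 2))) * (1 + x) ^ (α - δ / 2))
      ≤ Lam P Z a (fun x => x ^ α * phi a 0 x - W a x ^ α * Real.log (W a x)) := by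
    apply S.Lam_mono ha ha1 (((hB.const_mul _).add (hc1.const_mul _)).add (hc2.const_mul _))
      ((cl_xphi ha ha1 le_rfl S.hα).sub (cl_WlogW ha ha1 hα))
    intro x hx
    have t1 := T1_ge (α := α) hα1 hx
    have t2 := L_ge (α := α) ha ha1 hα1 hx (by linarith)
    have t3 := T3_ge ha ha1 hδ hδ1 hα1 hx
    linarith
  rw [S.Lam_add ha ha1 ((hB.const_mul _).add (hc1.const_mul _)) (hc2.const_mul _),
    S.Lam_add ha ha1 (hB.const_mul _) (hc1.const_mul _),
    S.Lam_const_mul ha ha1 hB, S.Lam_const_mul ha ha1 hc1, S.Lam_const_mul ha ha1 hc2,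
    S.Lam_B ha ha1] at h1
  have h2 := mul_le_mul_of_nonneg_left (hC₁ a ha ha1) (by linarith : 0 ≤ 2 * α + 1)
  have haδ : 0 < a ^ (δ / 2) := Real.rpow_pos_of_pos ha _
  have h3 := mul_le_mul_of_nonneg_left (hC₂ a ha ha1)
    (by positivity : 0 ≤ α * Real.log (1 / a) * a ^ (δ / 2))
  have h4 : 0 ≤ (2 * α + 1) * C₁ * (Real.log (1 / a) * a ^ (δ / 2)) := by positivity
  have h5 : 0 ≤ α * C₂ := by positivity
  nlinarith

lemma tendsto_ell : Tendsto (fun a : ℝ => Real.log (1 / a)) (𝓝[>] 0) atTop := by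
  have h := Real.tendsto_log_atTop.comp (tendsto_inv_nhdsGT_zero (𝕜 := ℝ))
  refine h.congr fun a => ?_
  simp [one_div]

lemma tendsto_rpow_zero {s : ℝ} (hs : 0 < s) : Tendsto (fun a : ℝ => a ^ s) (𝓝[>] 0) (𝓝 0) := by
  have h : Tendsto (fun a : ℝ => a ^ s) (𝓝 0) (𝓝 ((0 : ℝ) ^ s)) :=
    (Real.continuousAt_rpow_const 0 s (Or.inr hs.le)).tendsto
  rw [Real.zero_rpow hs.ne'] at h
  exact h.mono_left nhdsWithin_le_nhds

lemma ev_Ioc : ∀ᶠ a : ℝ in 𝓝[>] 0, 0 < a ∧ a ≤ 1 := by
  filter_upwards [Ioc_mem_nhdsGT (zero_lt_one' ℝ)] with a ha using ⟨ha.1, ha.2⟩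

lemma Mf_bound (S : Setup P Z α) : ∃ C, 0 < C ∧ ∀ᶠ a in 𝓝[>] (0 : ℝ),
    Mf P Z α a ≤ C * Real.log (1 / a) := by
  obtain ⟨CG, hCG0, hCG⟩ := S.G_bound
  have hα := S.α_pos
  obtain ⟨c, hc0, hm⟩ := S.exists_mc_pos
  set d := c + 1 / α with hd
  have hd0 : 0 ≤ d := by positivity
  refine ⟨1 / mc P Z α c * ((1 + d) * CG) + 1, by positivity, ?_⟩
  filter_upwards [ev_Ioc, tendsto_ell.eventually_ge_atTop 1] with a ha hl
  have h1 := S.upper ha.1 ha.2 hc0
  have h3 := hCG a ha.1 ha.2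
  have h4 := S.one_le_G ha.1 ha.2
  set l := Real.log (1 / a) with hl'
  have h5 : (l + c + 1 / α) * G P Z α a ≤ (1 + d) * CG * l := by
    have e : l + c + 1 / α = l + d := by rw [hd]; ring
    rw [e]
    have h6 : l + d ≤ (1 + d) * l := by nlinarith
    calc (l + d) * G P Z α a ≤ ((1 + d) * l) * CG :=
          mul_le_mul h6 h3 (by linarith) (by positivity)
      _ = _ := by ring
  have h8 : Mf P Z α a ≤ 1 / mc P Z α c * ((1 + d) * CG * l) := by
    rw [div_mul_eq_mul_div, le_div_iff₀ hm]; linarith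
  have h9 : 1 / mc P Z α c * ((1 + d) * CG * l) = 1 / mc P Z α c * ((1 + d) * CG) * l := by ring
  rw [h9] at h8
  linarith

/-- Growth of `Λ(x^α)`, finite mean. -/
theorem Mf_growth (S : Setup P Z α)
    (hlog : Integrable (fun ω => (Z 0 ω) ^ α * Real.log (Z 0 ω)) P) :
    Tendsto (fun a => Mf P Z α a / Real.log (1 / a) - G P Z α a / mm P Z α) (𝓝[>] 0) (𝓝 0) := by
  obtain ⟨CG, hCG0, hCG⟩ := S.G_bound
  obtain ⟨C', hC'0, hC'⟩ := S.Mf_bound
  have hα := S.α_pos
  have hm : 0 < mm P Z α := S.m_pos hlog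
  have key : ∀ η : ℝ, 0 < η → ∀ᶠ a in 𝓝[>] (0 : ℝ),
      |mm P Z α * Mf P Z α a - Real.log (1 / a) * G P Z α a| ≤ η * Real.log (1 / a) := by
    intro η hη
    -- upper
    obtain ⟨c, hcm, hc0⟩ := (((S.mc_tendsto hlog).eventually_const_lt
      (by have : 0 < η / 2 / C' := by positivity
          linarith : mm P Z α - η / 2 / C' < mm P Z α)).and
      (eventually_ge_atTop 0)).exists
    set d := c + 1 / α with hd
    have hd0 : 0 ≤ d := by positivity
    -- lower
    set δ := min (1 / 2) (η / 3 / (CG + 1)) with hδ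
    have hδ0 : 0 < δ := lt_min (by norm_num) (by positivity)
    have hδ1 : δ < 1 := lt_of_le_of_lt (min_le_left _ _) (by norm_num)
    have hδC : δ * CG ≤ η / 3 := by
      have h1 : δ ≤ η / 3 / (CG + 1) := min_le_right _ _
      have h2 : δ * (CG + 1) ≤ η / 3 := by rwa [le_div_iff₀ (by positivity)] at h1
      nlinarith
    obtain ⟨C, hC0, hC⟩ := S.lower hlog hδ0 hδ1
    have hsmall : ∀ᶠ a in 𝓝[>] (0 : ℝ), C * a ^ (δ / 2) < η / 3 := by
      have h := (tendsto_rpow_zero (by linarith : 0 < δ / 2)).const_mul C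
      rw [mul_zero] at h
      exact h.eventually_lt_const (by positivity)
    filter_upwards [ev_Ioc, tendsto_ell.eventually_ge_atTop 1,
      tendsto_ell.eventually_ge_atTop (d * CG / (η / 2)),
      tendsto_ell.eventually_ge_atTop (C / (η / 3)), hsmall, hC'] with a ha hl hl2 hl3 hs hM
    have h1 := S.upper ha.1 ha.2 hc0
    have h2 := S.Mf_nonneg ha.1 ha.2
    have h3 := hCG a ha.1 ha.2
    have h4 := S.one_le_G ha.1 ha.2
    have h5 := hC a ha.1 ha.2
    set l := Real.log (1 / a) with hl'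
    rw [div_le_iff₀ (by positivity)] at hl2 hl3
    rw [abs_le]
    constructor
    · have e1 : δ * l * G P Z α a ≤ η / 3 * l := by
        calc δ * l * G P Z α a ≤ δ * l * CG := mul_le_mul_of_nonneg_left h3 (by positivity)
          _ = δ * CG * l := by ring
          _ ≤ η / 3 * l := mul_le_mul_of_nonneg_right hδC (by linarith)
      have e2 : C * (l * a ^ (δ / 2)) ≤ η / 3 * l := by
        have := mul_le_mul_of_nonneg_right hs.le (by linarith : 0 ≤ l)
        linarith
      linarith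
    · have e1 : (mm P Z α - mc P Z α c) * Mf P Z α a ≤ η / 2 * l := by
        have e2 : mm P Z α - mc P Z α c ≤ η / 2 / C' := by linarith
        calc (mm P Z α - mc P Z α c) * Mf P Z α a ≤ (η / 2 / C') * Mf P Z α a :=
              mul_le_mul_of_nonneg_right e2 h2
          _ ≤ (η / 2 / C') * (C' * l) := mul_le_mul_of_nonneg_left hM (by positivity)
          _ = η / 2 * l := by field_simp
      have e2 : (l + c + 1 / α) * G P Z α a ≤ l * G P Z α a + d * CG := by
        have e : l + c + 1 / α = l + d := by rw [hd]; ring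
        rw [e, add_mul]
        have := mul_le_mul_of_nonneg_left h3 hd0
        linarith
      linarith
  rw [Metric.tendsto_nhds]
  intro η hη
  filter_upwards [key (η / 2 * mm P Z α) (by positivity), tendsto_ell.eventually_ge_atTop 1]
    with a h hl
  have hl0 : 0 < Real.log (1 / a) := by linarith
  rw [Real.dist_0_eq_abs]
  have e : Mf P Z α a / Real.log (1 / a) - G P Z α a / mm P Z α
      = (mm P Z α * Mf P Z α a - Real.log (1 / a) * G P Z α a)
        / (mm P Z α * Real.log (1 / a)) := by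
    field_simp
  rw [e, abs_div, abs_of_pos (mul_pos hm hl0), div_lt_iff₀ (mul_pos hm hl0)]
  have : η / 2 * mm P Z α * Real.log (1 / a) < η * (mm P Z α * Real.log (1 / a)) := by
    have := mul_pos hm hl0
    nlinarith
  linarith

/-- Growth of `Λ(x^α)`, infinite mean. -/
theorem Mf_growth_inf (S : Setup P Z α)
    (hlog : ¬ Integrable (fun ω => (Z 0 ω) ^ α * Real.log (Z 0 ω)) P) :
    Tendsto (fun a => Mf P Z α a / Real.log (1 / a)) (𝓝[>] 0) (𝓝 0) := by
  obtain ⟨CG, hCG0, hCG⟩ := S.G_bound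
  have hα := S.α_pos
  rw [Metric.tendsto_nhds]
  intro η hη
  obtain ⟨c, hc0, hcK⟩ := S.mc_unbdd hlog (2 * (CG + 1) / η)
  have hK : 0 < 2 * (CG + 1) / η := by positivity
  have hm : 0 < mc P Z α c := hK.trans hcK
  have hd0 : 0 ≤ c + 1 / α := by positivity
  filter_upwards [ev_Ioc, tendsto_ell.eventually_ge_atTop 1,
    tendsto_ell.eventually_ge_atTop (c + 1 / α)] with a ha hl hl2
  have hl0 : 0 < Real.log (1 / a) := by linarith
  have h1 := S.upper ha.1 ha.2 hc0
  have h2 := S.Mf_nonneg ha.1 ha.2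
  have h3 := hCG a ha.1 ha.2
  have h4 := S.one_le_G ha.1 ha.2
  rw [Real.dist_0_eq_abs, abs_of_nonneg (div_nonneg h2 hl0.le), div_lt_iff₀ hl0]
  set l := Real.log (1 / a) with hl'
  have h5 : (l + c + 1 / α) * G P Z α a ≤ (2 * l) * (CG + 1) :=
    mul_le_mul (by linarith) (by linarith) (by linarith) (by positivity)
  have h6 : mc P Z α c * Mf P Z α a ≤ 2 * l * (CG + 1) := h1.trans h5
  have h7 : 2 * (CG + 1) < mc P Z α c * η := by rwa [div_lt_iff₀ hη] at hcK
  have h8 : mc P Z α c * Mf P Z α a < mc P Z α c * (η * l) := by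
    have := mul_lt_mul_of_pos_right h7 hl0
    linarith
  exact lt_of_mul_lt_mul_left h8 hm.le

end Setup

end

end Pool.Agent.H741R4.DH
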