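import Pool.Agent.H741R4.DH7

/-!
Derrida-Hilhorst singularity, part 8: the expansion in `a = ε²`.
-/

open MeasureTheory ProbabilityTheory Filter Topology Asymptotics

namespace Pool.Agent.H741R4.DH

noncomputable section

variable {Ω : Type*} [mΩ : MeasurableSpace Ω] {P : Measure Ω} {Z : ℕ → Ω → ℝ} {α : ℝ} {p : ℕ}

lemma cl_log {a : ℝ} (ha : 0 < a) (hα : 1 ≤ α) : Cl α (fun x => Real.log (1 + a * x)) := by
  have h1 : Cl α (fun x : ℝ => a * x) := by
    have h := cl_npow (α := α) (k := 1) (by simpa using hα)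
    simpa using h.const_mul a
  refine h1.of_le (Real.measurable_log.comp
    (measurable_const.add (measurable_const.mul measurable_id))) fun x hx => ?_
  have hax : 0 ≤ a * x := by positivity
  rw [abs_of_nonneg (Real.log_nonneg (by linarith))]
  have := Real.log_le_sub_one_of_pos (by linarith : 0 < 1 + a * x)
  linarith

namespace Setup

lemma L_rel (S : Setup P Z (p : ℝ)) (hp : 1 ≤ p) :
    (fun a => -Lf P Z a - ∑ k ∈ Finset.range p,
      (1 / ((k : ℝ) + 1)) * ((-a) ^ (k + 1) * Mk P Z (k + 1) a))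
      =O[𝓝[>] 0] (fun a : ℝ => a ^ p) := by
  obtain ⟨C, hC0, hC⟩ := S.Vkap_nat
  refine IsBigO.of_bound C ?_
  filter_upwards [ev_Ioc] with a ha
  have ha0 := ha.1
  have hcl : ∀ k ∈ Finset.range p, Cl (p : ℝ) (fun x : ℝ => x ^ (k + 1)) := by
    intro k hk
    apply cl_npow
    have := Finset.mem_range.1 hk
    exact_mod_cast (by omega : k + 1 ≤ p)
  have hlog := cl_log (α := (p : ℝ)) ha0 S.hα
  have hclS := cl_sum S.α_pos.le (Finset.range p)
    (fun k hk => (hcl k hk).const_mul ((1 / ((k : ℝ) + 1)) * (-a) ^ (k + 1)))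
  have hsum : ∑ k ∈ Finset.range p, (1 / ((k : ℝ) + 1)) * ((-a) ^ (k + 1) * Mk P Z (k + 1) a)
      = Lam P Z a (fun x => ∑ k ∈ Finset.range p,
          (1 / ((k : ℝ) + 1)) * (-a) ^ (k + 1) * x ^ (k + 1)) := by
    rw [S.Lam_sum ha.1 ha.2 _ (fun k hk => (hcl k hk).const_mul _)]
    apply Finset.sum_congr rfl
    intro k hk
    rw [S.Lam_const_mul ha.1 ha.2 (hcl k hk)]
    unfold Mk
    ring
  have e : -Lf P Z a - ∑ k ∈ Finset.range p,
      (1 / ((k : ℝ) + 1)) * ((-a) ^ (k + 1) * Mk P Z (k + 1) a)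
      = - Lam P Z a (fun x => Real.log (1 + a * x) + ∑ k ∈ Finset.range p,
          (1 / ((k : ℝ) + 1)) * (-a) ^ (k + 1) * x ^ (k + 1)) := by
    rw [S.Lam_add ha.1 ha.2 hlog hclS, hsum]
    unfold Lf
    ring
  rw [e, norm_neg, Real.norm_eq_abs, Real.norm_eq_abs, abs_of_nonneg (by positivity : 0 ≤ a ^ p)]
  have hpt : ∀ x : ℝ, 0 ≤ x → |Real.log (1 + a * x) + ∑ k ∈ Finset.range p,
          (1 / ((k : ℝ) + 1)) * (-a) ^ (k + 1) * x ^ (k + 1)|
      ≤ a ^ p * ((1 + x) ^ p * kap a x) := by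
    intro x hx
    have hax : 0 ≤ a * x := by positivity
    have h1 := logE_le p hp hax
    have e1 : Real.log (1 + a * x) + ∑ k ∈ Finset.range p,
          (1 / ((k : ℝ) + 1)) * (-a) ^ (k + 1) * x ^ (k + 1) = logE p (a * x) := by
      unfold logE
      congr 1
      apply Finset.sum_congr rfl
      intro k _
      have : (-(a * x)) ^ (k + 1) = (-a) ^ (k + 1) * x ^ (k + 1) := by rw [← mul_pow]; ring_nf
      rw [this]
      ring
    rw [e1]
    refine h1.trans ?_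
    have e2 : (a * x) ^ (p + 1) / (1 + a * x) = a ^ p * (x ^ p * kap a x) := by
      unfold kap
      rw [pow_succ, mul_pow]
      ring
    rw [e2]
    apply mul_le_mul_of_nonneg_left _ (by positivity)
    exact mul_le_mul_of_nonneg_right (pow_le_pow_left₀ hx (by linarith) p) (kap_nonneg ha0 hx)
  have hb := S.Lam_abs_le ha.1 ha.2 (hlog.add hclS) ((cl_nVkap ha0 le_rfl).const_mul _) hpt
  rw [S.Lam_const_mul ha.1 ha.2 (cl_nVkap ha0 le_rfl)] at hb
  refine hb.trans ?_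
  have := mul_le_mul_of_nonneg_left (hC a ha.1 ha.2) (by positivity : 0 ≤ a ^ p)
  linarith

/-- `-L` in terms of `M_p`. -/
lemma exp3 (S : Setup P Z (p : ℝ)) (hp : 1 ≤ p) : ∃ s, 0 < s ∧
    AE p (fun a => -Lf P Z a - ∑ k ∈ Finset.range p,
        (rho P Z p (k + 1) / ((k : ℝ) + 1)) * (-a) ^ (k + 1)
      - s * ((-a) ^ p * Mk P Z p a)) := by
  have hc' : ∀ k, ∃ c, 0 ≤ c ∧ (k + 1 = p → c = 1) ∧ (k < p → AE (p - (k + 1)) (fun a =>
      Mk P Z (k + 1) a - rho P Z p (k + 1) - c * ((-a) ^ (p - (k + 1)) * Mk P Z p a))) := by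
    intro k
    by_cases hk : k < p
    · obtain ⟨c, hc0, hc1, hc⟩ := S.exp2 (p - (k + 1)) (k + 1) (by omega) (by omega)
      exact ⟨c, hc0, fun h => hc1 (by omega), fun _ => hc⟩
    · exact ⟨1, zero_le_one, fun _ => rfl, fun h => absurd h hk⟩
  choose c hc0 hc1 hc using hc'
  refine ⟨∑ k ∈ Finset.range p, (1 / ((k : ℝ) + 1)) * c k, ?_, ?_⟩
  · have hmem : p - 1 ∈ Finset.range p := Finset.mem_range.2 (by omega)
    refine Finset.sum_pos' (fun k _ => mul_nonneg (by positivity) (hc0 k)) ⟨p - 1, hmem, ?_⟩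
    rw [hc1 (p - 1) (by omega)]
    positivity
  · have h1 := AE.of_isBigO (S.L_rel hp)
    have h2 : AE p (fun a => ∑ k ∈ Finset.range p, (1 / ((k : ℝ) + 1)) *
        ((-a) ^ (k + 1) * (Mk P Z (k + 1) a - rho P Z p (k + 1)
          - c k * ((-a) ^ (p - (k + 1)) * Mk P Z p a)))) := by
      refine AE.sum _ fun k hk => AE.smul ?_ (by positivity)
      have hk' := Finset.mem_range.1 hk
      have h5 := (hc k hk').shift (k + 1)
      rwa [Nat.sub_add_cancel (by omega : k + 1 ≤ p)] at h5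
    refine (h1.add h2).congr (Eventually.of_forall fun a => ?_)
    have e2 : ∀ k ∈ Finset.range p, (1 / ((k : ℝ) + 1)) *
        ((-a) ^ (k + 1) * (Mk P Z (k + 1) a - rho P Z p (k + 1)
          - c k * ((-a) ^ (p - (k + 1)) * Mk P Z p a)))
        = (1 / ((k : ℝ) + 1)) * ((-a) ^ (k + 1) * Mk P Z (k + 1) a)
          - (rho P Z p (k + 1) / ((k : ℝ) + 1)) * (-a) ^ (k + 1)
          - (1 / ((k : ℝ) + 1)) * c k * ((-a) ^ p * Mk P Z p a) := by
      intro k hk
      have hk' := Finset.mem_range.1 hk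
      have hd' : (-a) ^ p = (-a) ^ (k + 1) * (-a) ^ (p - (k + 1)) := by
        rw [← pow_add]; congr 1; omega
      rw [hd']
      ring
    simp only
    rw [Finset.sum_congr rfl e2, Finset.sum_sub_distrib, Finset.sum_sub_distrib, ← Finset.sum_mul]
    ring

end Setup

lemma tendsto_pow_zero (N : ℕ) : Tendsto (fun a : ℝ => a ^ (N + 1)) (𝓝[>] 0) (𝓝 0) := by
  have h : Tendsto (fun a : ℝ => a ^ (N + 1)) (𝓝 0) (𝓝 ((0 : ℝ) ^ (N + 1))) :=
    (continuous_pow (N + 1)).tendsto 0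
  rw [zero_pow (Nat.succ_ne_zero N)] at h
  exact h.mono_left nhdsWithin_le_nhds

lemma tendsto_poly (μ : ℕ → ℝ) (N : ℕ) :
    Tendsto (fun a : ℝ => ∑ n ∈ Finset.range (N + 1), μ n * (-a) ^ n) (𝓝[>] 0) (𝓝 (μ 0)) := by
  have hc : Continuous (fun a : ℝ => ∑ n ∈ Finset.range (N + 1), μ n * (-a) ^ n) := by fun_prop
  have h := (hc.tendsto 0).mono_left (nhdsWithin_le_nhds (s := Set.Ioi 0))
  have e : ∑ n ∈ Finset.range (N + 1), μ n * (-(0 : ℝ)) ^ n = μ 0 := by
    rw [Finset.sum_range_succ']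
    simp
  rwa [e] at h

lemma AE.tendsto {N : ℕ} {F : ℝ → ℝ} (h : AE (N + 1) F) : ∃ l, Tendsto F (𝓝[>] 0) (𝓝 l) := by
  obtain ⟨μ, _, hF⟩ := h
  refine ⟨μ 0, ?_⟩
  have h1 := hF.trans_tendsto (tendsto_pow_zero N)
  have h2 := h1.add (tendsto_poly μ N)
  rw [zero_add] at h2
  refine h2.congr fun a => ?_
  ring

namespace Setup

lemma aM_tendsto (S : Setup P Z (p : ℝ)) :
    Tendsto (fun a => (-a) * Mk P Z p a) (𝓝[>] 0) (𝓝 0) := by
  obtain ⟨C, hC0, hC⟩ := S.half_bdd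
  have h1 : Tendsto (fun a : ℝ => C * a ^ (1 / 2 : ℝ)) (𝓝[>] 0) (𝓝 0) := by
    have h := (tendsto_rpow_zero (by norm_num : (0 : ℝ) < 1 / 2)).const_mul C
    rwa [mul_zero] at h
  rw [tendsto_zero_iff_norm_tendsto_zero]
  refine squeeze_zero' (Eventually.of_forall fun a => norm_nonneg _) ?_ h1
  filter_upwards [ev_Ioc, hC] with a ha h
  rw [norm_mul, norm_neg, Real.norm_eq_abs, Real.norm_eq_abs, abs_of_pos ha.1,
    abs_of_nonneg (S.Mk_nonneg ha.1 ha.2 le_rfl)]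
  exact h

lemma pM_tendsto (S : Setup P Z (p : ℝ)) (d : ℕ) :
    Tendsto (fun a => (-a) ^ (d + 1) * Mk P Z p a) (𝓝[>] 0) (𝓝 0) := by
  have hc : Tendsto (fun a : ℝ => (-a) ^ d) (𝓝[>] 0) (𝓝 ((-0) ^ d)) := by
    have hc : Continuous (fun a : ℝ => (-a) ^ d) := by fun_prop
    exact (hc.tendsto 0).mono_left nhdsWithin_le_nhds
  have h := hc.mul S.aM_tendsto
  rw [mul_zero] at h
  refine h.congr fun a => ?_
  rw [pow_succ]; ring

lemma Mk_tendsto (S : Setup P Z (p : ℝ)) {k : ℕ} (hk : k < p) :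
    ∃ l, Tendsto (Mk P Z k) (𝓝[>] 0) (𝓝 l) := by
  rcases Nat.eq_zero_or_pos k with rfl | hk0
  · exact ⟨1, tendsto_const_nhds.congr fun a => (S.Mk_zero a).symm⟩
  · obtain ⟨d, hd⟩ : ∃ d, k + (d + 1) = p := ⟨p - k - 1, by omega⟩
    obtain ⟨c, _, _, hc⟩ := S.exp2 (d + 1) k hk0 hd
    obtain ⟨l, hl⟩ := hc.tendsto
    refine ⟨l + rho P Z p k + c * 0, ?_⟩
    have h := (hl.add_const (rho P Z p k)).add ((S.pM_tendsto d).const_mul c)
    refine h.congr fun a => ?_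
    ring

lemma G_tendsto (S : Setup P Z (p : ℝ)) :
    ∃ l, 1 ≤ l ∧ Tendsto (G P Z (p : ℝ)) (𝓝[>] 0) (𝓝 l) := by
  have hl : ∀ k, ∃ l, k < p → Tendsto (Mk P Z k) (𝓝[>] 0) (𝓝 l) := by
    intro k
    by_cases hk : k < p
    · obtain ⟨l, hl⟩ := S.Mk_tendsto hk
      exact ⟨l, fun _ => hl⟩
    · exact ⟨0, fun h => absurd h hk⟩
  choose l hl using hl
  have h1 : Tendsto (fun a => ∑ i ∈ Finset.range p, (p.choose i : ℝ) * Mk P Z i a) (𝓝[>] 0)
      (𝓝 (∑ i ∈ Finset.range p, (p.choose i : ℝ) * l i)) :=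
    tendsto_finset_sum _ fun i hi => (hl i (Finset.mem_range.1 hi)).const_mul _
  have h2 : Tendsto (G P Z (p : ℝ)) (𝓝[>] 0)
      (𝓝 (∑ i ∈ Finset.range p, (p.choose i : ℝ) * l i)) := by
    refine h1.congr' ?_
    filter_upwards [ev_Ioc] with a ha
    have h3 := S.Lam_xV ha.1 ha.2 (j := 0) (k := p) (by simp)
    rw [Finset.sum_range_succ] at h3
    simp only [pow_zero, one_mul, add_zero, Nat.choose_self, Nat.cast_one] at h3
    unfold G
    simp only [Real.rpow_natCast]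
    rw [S.Lam_sub ha.1 ha.2 (cl_nV le_rfl) (cl_npow le_rfl), h3]
    unfold Mk
    ring
  refine ⟨_, ?_, h2⟩
  apply ge_of_tendsto h2
  filter_upwards [ev_Ioc] with a ha using S.one_le_G ha.1 ha.2

lemma Mp_growth (S : Setup P Z (p : ℝ)) : ∃ C, 0 ≤ C ∧
    (0 < C ↔ Integrable (fun ω => (Z 0 ω) ^ (p : ℝ) * Real.log (Z 0 ω)) P) ∧
    Tendsto (fun a => Mk P Z p a / Real.log (1 / a)) (𝓝[>] 0) (𝓝 C) := by
  by_cases hlog : Integrable (fun ω => (Z 0 ω) ^ (p : ℝ) * Real.log (Z 0 ω)) P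
  · obtain ⟨l, hl1, hl⟩ := S.G_tendsto
    have hm : 0 < mm P Z (p : ℝ) := S.m_pos hlog
    have hC : 0 < l / mm P Z (p : ℝ) := div_pos (by linarith) hm
    refine ⟨l / mm P Z (p : ℝ), hC.le, ⟨fun _ => hlog, fun _ => hC⟩, ?_⟩
    have h := (S.Mf_growth hlog).add (hl.div_const (mm P Z (p : ℝ)))
    rw [zero_add] at h
    refine h.congr fun a => ?_
    rw [Mk_p]
    ring
  · refine ⟨0, le_rfl, ⟨fun h => absurd h (lt_irrefl 0), fun h => absurd h hlog⟩, ?_⟩
    refine (S.Mf_growth_inf hlog).congr fun a => ?_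
    rw [Mk_p]

lemma Lf_tendsto (S : Setup P Z (p : ℝ)) (hp : 1 ≤ p) : Tendsto (Lf P Z) (𝓝[>] 0) (𝓝 0) := by
  have h1 : Tendsto (fun a => a * Mk P Z 1 a) (𝓝[>] 0) (𝓝 0) := by
    rcases Nat.lt_or_ge 1 p with h | h
    · obtain ⟨l, hl⟩ := S.Mk_tendsto h
      have h2 : Tendsto (fun a : ℝ => a) (𝓝[>] 0) (𝓝 0) :=
        tendsto_id.mono_left nhdsWithin_le_nhds
      have := h2.mul hl
      rwa [zero_mul] at this
    · have : p = 1 := by omega
      subst this
      have h2 := S.aM_tendsto.neg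
      rw [neg_zero] at h2
      refine h2.congr fun a => ?_
      ring
  refine squeeze_zero' ?_ ?_ h1
  · filter_upwards [ev_Ioc] with a ha
    exact S.Lam_nonneg ha.1 ha.2 (cl_log ha.1 S.hα) fun x hx =>
      Real.log_nonneg (by nlinarith [ha.1])
  · filter_upwards [ev_Ioc] with a ha
    have hcl1 : Cl (p : ℝ) (fun x : ℝ => x ^ 1) := cl_npow (by simpa using S.hα)
    have h := S.Lam_mono ha.1 ha.2 (cl_log ha.1 S.hα) (hcl1.const_mul a) fun x hx => by
      have hax : 0 ≤ a * x := mul_nonneg ha.1.le hx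
      have := Real.log_le_sub_one_of_pos (by linarith : 0 < 1 + a * x)
      rw [pow_one]
      linarith
    rw [S.Lam_const_mul ha.1 ha.2 hcl1] at h
    exact h

end Setup

lemma sum_range_Icc (F : ℕ → ℝ) (q : ℕ) :
    ∑ n ∈ Finset.range q, F (n + 1) = ∑ k ∈ Finset.Icc 1 q, F k := by
  induction q with
  | zero => simp
  | succ q ih => rw [Finset.sum_range_succ, ih, Finset.sum_Icc_succ_top (by omega)]

lemma sum_shift (F : ℕ → ℝ) (p : ℕ) (hp : 1 ≤ p) :
    ∑ n ∈ Finset.range p, F n = F 0 + ∑ k ∈ Finset.Icc 1 (p - 1), F k := by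
  obtain ⟨q, rfl⟩ : ∃ q, p = q + 1 := ⟨p - 1, by omega⟩
  rw [Finset.sum_range_succ', Nat.add_sub_cancel, add_comm, sum_range_Icc]

namespace Setup

/-- The expansion in the variable `a = ε²`. -/
theorem main_a (S : Setup P Z (p : ℝ)) (hp : 1 ≤ p) :
    ∃ l : ℕ → ℝ, (∀ k, 1 ≤ k → k < p → 0 < l k) ∧ ∃ C, 0 ≤ C ∧
      (0 < C ↔ Integrable (fun ω => (Z 0 ω) ^ (p : ℝ) * Real.log (Z 0 ω)) P) ∧
      (fun a => Lf P Z a - ∑ k ∈ Finset.Icc 1 (p - 1), (-1) ^ (k + 1) * l k * a ^ k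
        - (-1) ^ (p - 1) * C * (a ^ p * Real.log (1 / a)))
        =o[𝓝[>] 0] (fun a => a ^ p * Real.log (1 / a)) := by
  obtain ⟨s, hs, μ, hμ, hO⟩ := S.exp3 hp
  obtain ⟨C₀, hC₀, hiff, hM⟩ := S.Mp_growth
  obtain ⟨q, hq⟩ : ∃ q, p = q + 1 := ⟨p - 1, by omega⟩
  -- the constant coefficient vanishes
  have hμ0 : μ 0 = 0 := by
    have t1 : Tendsto (fun a => -Lf P Z a - ∑ k ∈ Finset.range p,
        (rho P Z p (k + 1) / ((k : ℝ) + 1)) * (-a) ^ (k + 1)
        - s * ((-a) ^ p * Mk P Z p a) - ∑ n ∈ Finset.range p, μ n * (-a) ^ n) (𝓝[>] 0) (𝓝 0) := by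
      refine hO.trans_tendsto ?_
      rw [hq]
      exact tendsto_pow_zero q
    have t2 : Tendsto (fun a : ℝ => ∑ k ∈ Finset.range p,
        (rho P Z p (k + 1) / ((k : ℝ) + 1)) * (-a) ^ (k + 1)) (𝓝[>] 0) (𝓝 0) := by
      have hc : Continuous (fun a : ℝ => ∑ k ∈ Finset.range p,
        (rho P Z p (k + 1) / ((k : ℝ) + 1)) * (-a) ^ (k + 1)) := by fun_prop
      have h := (hc.tendsto 0).mono_left (nhdsWithin_le_nhds (s := Set.Ioi 0))
      have e : ∑ k ∈ Finset.range p,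
        (rho P Z p (k + 1) / ((k : ℝ) + 1)) * (-(0 : ℝ)) ^ (k + 1) = 0 := by
        apply Finset.sum_eq_zero
        intro k _
        rw [neg_zero, zero_pow (Nat.succ_ne_zero k), mul_zero]
      rwa [e] at h
    have t3 : Tendsto (fun a => s * ((-a) ^ p * Mk P Z p a)) (𝓝[>] 0) (𝓝 0) := by
      have h := (S.pM_tendsto q).const_mul s
      rw [mul_zero, ← hq] at h
      exact h
    have t4 : Tendsto (fun a : ℝ => ∑ n ∈ Finset.range p, μ n * (-a) ^ n) (𝓝[>] 0) (𝓝 (μ 0)) := by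
      rw [hq]
      exact tendsto_poly μ q
    have t5 := (((S.Lf_tendsto hp).neg.sub t2).sub t3).sub t4
    have h := tendsto_nhds_unique t1 t5
    linarith
  -- combine the two families of coefficients
  have hrho : ∀ a : ℝ, ∑ k ∈ Finset.range p, (rho P Z p (k + 1) / ((k : ℝ) + 1)) * (-a) ^ (k + 1)
      = ∑ k ∈ Finset.Icc 1 (p - 1), (rho P Z p k / (k : ℝ)) * (-a) ^ k := by
    intro a
    have hpq : p - 1 = q := by omega
    have hlast : rho P Z p (q + 1) = 0 := by unfold rho; rw [if_neg (by omega)]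
    rw [hpq, ← sum_range_Icc]
    have : Finset.range p = Finset.range (q + 1) := by rw [hq]
    rw [this, Finset.sum_range_succ, hlast, zero_div, zero_mul, add_zero]
    apply Finset.sum_congr rfl
    intro k _
    push_cast
    ring
  refine ⟨fun k => μ k + rho P Z p k / k, ?_, s * C₀, mul_nonneg hs.le hC₀,
    (mul_pos_iff_of_pos_left hs).trans hiff, ?_⟩
  · intro k hk1 hkp
    have h1 : 0 < rho P Z p k := by
      unfold rho
      rw [if_pos hkp]
      exact S.rk_pos hk1 (by exact_mod_cast hkp)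
    have h2 : (0 : ℝ) < k := by exact_mod_cast hk1
    have := hμ k
    have := div_pos h1 h2
    linarith
  · have h1 : (fun a : ℝ => a ^ p) =o[𝓝[>] 0] (fun a => a ^ p * Real.log (1 / a)) := by
      have h2 : (fun _ : ℝ => (1 : ℝ)) =o[𝓝[>] 0] (fun a => Real.log (1 / a)) := by
        rw [isLittleO_one_left_iff]
        exact tendsto_norm_atTop_atTop.comp tendsto_ell
      have h3 := (isBigO_refl (fun a : ℝ => a ^ p) (𝓝[>] 0)).mul_isLittleO h2
      simpa using h3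
    have h2 := (hO.trans_isLittleO h1).neg_left
    have h3 : (fun a : ℝ => (a ^ p * Real.log (1 / a)) * ((-1) ^ (p - 1) *
        (s * (Mk P Z p a / Real.log (1 / a)) - s * C₀)))
        =o[𝓝[>] 0] (fun a => a ^ p * Real.log (1 / a)) := by
      have h4 : Tendsto (fun a => (-1 : ℝ) ^ (p - 1) *
          (s * (Mk P Z p a / Real.log (1 / a)) - s * C₀)) (𝓝[>] 0) (𝓝 0) := by
        have h := ((hM.const_mul s).sub_const (s * C₀)).const_mul ((-1 : ℝ) ^ (p - 1))
        rwa [sub_self, mul_zero] at h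
      have h5 := (isBigO_refl (fun a : ℝ => a ^ p * Real.log (1 / a)) (𝓝[>] 0)).mul_isLittleO
        ((isLittleO_one_iff ℝ).2 h4)
      simpa using h5
    refine (h2.add h3).congr' ?_ EventuallyEq.rfl
    filter_upwards [tendsto_ell.eventually_gt_atTop 0] with a hl
    have hl0 := hl.ne'
    rw [hrho a, sum_shift (fun n => μ n * (-a) ^ n) p hp, hμ0]
    have e1 : ∑ k ∈ Finset.Icc 1 (p - 1), (-1 : ℝ) ^ (k + 1) * (μ k + rho P Z p k / k) * a ^ k
        = - (∑ k ∈ Finset.Icc 1 (p - 1), (rho P Z p k / (k : ℝ)) * (-a) ^ k)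
          - ∑ k ∈ Finset.Icc 1 (p - 1), μ k * (-a) ^ k := by
      rw [← Finset.sum_neg_distrib, ← Finset.sum_sub_distrib]
      apply Finset.sum_congr rfl
      intro k _
      rw [neg_pow a k, pow_succ]
      ring
    have e2 : (-1 : ℝ) ^ (p - 1) * (a ^ p * Mk P Z p a) = -((-a) ^ p * Mk P Z p a) := by
      rw [neg_pow a p]
      have : (-1 : ℝ) ^ p = (-1) ^ (p - 1) * (-1) := by
        rw [← pow_succ]; congr 1; omega
      rw [this]; ring
    have e3 : (a ^ p * Real.log (1 / a)) * ((-1) ^ (p - 1) *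
        (s * (Mk P Z p a / Real.log (1 / a)) - s * C₀))
        = s * ((-1) ^ (p - 1) * (a ^ p * Mk P Z p a))
          - (-1) ^ (p - 1) * (s * C₀) * (a ^ p * Real.log (1 / a)) := by
      field_simp
    rw [e3, e2, e1]
    ring

/-- The expansion in `ε`. -/
theorem main_eps (S : Setup P Z (p : ℝ)) (hp : 1 ≤ p) :
    ∃ l : ℕ → ℝ, (∀ k, 1 ≤ k → k < p → 0 < l k) ∧ ∃ C, 0 ≤ C ∧
      (0 < C ↔ Integrable (fun ω => (Z 0 ω) ^ (p : ℝ) * Real.log (Z 0 ω)) P) ∧
      (fun ε : ℝ => Lf P Z (ε ^ 2) - ∑ k ∈ Finset.Icc 1 (p - 1), (-1) ^ (k + 1) * l k * ε ^ (2 * k)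
        - (-1) ^ (p - 1) * C * ε ^ (2 * p) * Real.log (1 / ε))
        =o[𝓝[>] 0] (fun ε => ε ^ (2 * p) * Real.log (1 / ε)) := by
  obtain ⟨l, hl, C, hC, hiff, h⟩ := S.main_a hp
  refine ⟨l, hl, 2 * C, by positivity,
    (mul_pos_iff_of_pos_left (by norm_num : (0 : ℝ) < 2)).trans hiff, ?_⟩
  have ht : Tendsto (fun ε : ℝ => ε ^ 2) (𝓝[>] 0) (𝓝[>] 0) := by
    apply tendsto_nhdsWithin_iff.2
    constructor
    · exact tendsto_pow_zero 1
    · filter_upwards [self_mem_nhdsWithin] with ε hε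
      exact pow_pos (Set.mem_Ioi.1 hε) 2
  have h1 := h.comp_tendsto ht
  have h2 : (fun ε : ℝ => Lf P Z (ε ^ 2)
        - ∑ k ∈ Finset.Icc 1 (p - 1), (-1) ^ (k + 1) * l k * ε ^ (2 * k)
        - (-1) ^ (p - 1) * (2 * C) * ε ^ (2 * p) * Real.log (1 / ε))
        =o[𝓝[>] 0] (fun ε => 2 * (ε ^ (2 * p) * Real.log (1 / ε))) := by
    refine h1.congr' ?_ ?_
    · filter_upwards [self_mem_nhdsWithin] with ε hε
      have hε : 0 < ε := hε
      have e : Real.log (1 / ε ^ 2) = 2 * Real.log (1 / ε) := by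
        rw [one_div, one_div, Real.log_inv, Real.log_inv, Real.log_pow]; push_cast; ring
      simp only [Function.comp, e, ← pow_mul]
      ring
    · filter_upwards [self_mem_nhdsWithin] with ε hε
      have hε : 0 < ε := hε
      have e : Real.log (1 / ε ^ 2) = 2 * Real.log (1 / ε) := by
        rw [one_div, one_div, Real.log_inv, Real.log_inv, Real.log_pow]; push_cast; ring
      simp only [Function.comp, e, ← pow_mul]
      ring
  exact h2.of_const_mul_right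

end Setup

end

end Pool.Agent.H741R4.DH
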