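import Pool.Agent.H741R4.DH8

/-!
Derrida-Hilhorst singularity, part 9: the matrix products (deterministic part).
-/

open MeasureTheory ProbabilityTheory Filter Topology Asymptotics

namespace Pool.Agent.H741R4.DH

/-- The matrix `M_ε` for the value `z` of `Z`. -/
def mat (ε z : ℝ) : Matrix (Fin 2) (Fin 2) ℝ := !![1, ε; ε * z, z]

/-- The product `M_{n,ε} ⋯ M_{1,ε}` for the sequence `z` (the `k`-th matrix uses `z (k - 1)`). -/
def matProd (ε : ℝ) (z : ℕ → ℝ) : ℕ → Matrix (Fin 2) (Fin 2) ℝ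
  | 0 => 1
  | n + 1 => mat ε (z n) * matProd ε z n

/-- The entrywise `ℓ¹` norm. -/
def entryNorm (A : Matrix (Fin 2) (Fin 2) ℝ) : ℝ := ∑ i, ∑ j, |A i j|

noncomputable section

lemma matProd_succ (ε : ℝ) (z : ℕ → ℝ) (n : ℕ) :
    matProd ε z (n + 1) = mat ε (z n) * matProd ε z n := rfl

lemma mul00 (ε z : ℝ) (B : Matrix (Fin 2) (Fin 2) ℝ) (j : Fin 2) :
    (mat ε z * B) 0 j = B 0 j + ε * B 1 j := by
  simp [mat, Matrix.mul_apply, Fin.sum_univ_two]

lemma mul10 (ε z : ℝ) (B : Matrix (Fin 2) (Fin 2) ℝ) (j : Fin 2) :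
    (mat ε z * B) 1 j = z * (ε * B 0 j + B 1 j) := by
  simp [mat, Matrix.mul_apply, Fin.sum_univ_two]
  ring

lemma matProd_add (ε : ℝ) (z : ℕ → ℝ) (m n : ℕ) :
    matProd ε z (m + n) = matProd ε (fun k => z (m + k)) n * matProd ε z m := by
  induction n with
  | zero => simp [matProd]
  | succ n ih =>
    rw [← add_assoc, matProd_succ, ih, matProd_succ, Matrix.mul_assoc]

lemma matProd_congr (ε : ℝ) {z z' : ℕ → ℝ} (n : ℕ) (h : ∀ k, k < n → z k = z' k) :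
    matProd ε z n = matProd ε z' n := by
  induction n with
  | zero => rfl
  | succ n ih =>
    rw [matProd_succ, matProd_succ, ih fun k hk => h k (by omega), h n (by omega)]

lemma matProd_nonneg {ε : ℝ} (hε : 0 < ε) {z : ℕ → ℝ} (hz : ∀ k, 0 < z k) (n : ℕ) :
    ∀ i j, 0 ≤ matProd ε z n i j := by
  induction n with
  | zero =>
    intro i j
    simp only [matProd, Matrix.one_apply]
    split_ifs <;> norm_num
  | succ n ih =>
    intro i j
    rw [matProd_succ]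
    have h0 := ih 0 j
    have h1 := ih 1 j
    have hzn := hz n
    fin_cases i
    · change 0 ≤ (mat ε (z n) * matProd ε z n) 0 j
      rw [mul00]; positivity
    · change 0 ≤ (mat ε (z n) * matProd ε z n) 1 j
      rw [mul10]; positivity

lemma mono00 {ε : ℝ} (hε : 0 < ε) {z : ℕ → ℝ} (hz : ∀ k, 0 < z k) (n : ℕ) :
    matProd ε z n 0 0 ≤ matProd ε z (n + 1) 0 0 := by
  rw [matProd_succ, mul00]
  have := matProd_nonneg hε hz n 1 0
  nlinarith

lemma one_le_00 {ε : ℝ} (hε : 0 < ε) {z : ℕ → ℝ} (hz : ∀ k, 0 < z k) (n : ℕ) :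
    1 ≤ matProd ε z n 0 0 := by
  induction n with
  | zero => simp [matProd]
  | succ n ih => exact ih.trans (mono00 hε hz n)

lemma entryNorm_eq (A : Matrix (Fin 2) (Fin 2) ℝ) :
    entryNorm A = (|A 0 0| + |A 0 1|) + (|A 1 0| + |A 1 1|) := by
  simp [entryNorm, Fin.sum_univ_two]

lemma le_entryNorm (A : Matrix (Fin 2) (Fin 2) ℝ) : A 0 0 ≤ entryNorm A := by
  rw [entryNorm_eq]
  have := le_abs_self (A 0 0)
  have := abs_nonneg (A 0 1)
  have := abs_nonneg (A 1 0)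
  have := abs_nonneg (A 1 1)
  linarith

lemma entryNorm_mul_le (A B : Matrix (Fin 2) (Fin 2) ℝ) :
    entryNorm (A * B) ≤ entryNorm A * entryNorm B := by
  have h : ∀ i j, |(A * B) i j| ≤ |A i 0| * |B 0 j| + |A i 1| * |B 1 j| := by
    intro i j
    rw [Matrix.mul_apply, Fin.sum_univ_two, ← abs_mul, ← abs_mul]
    exact abs_add_le _ _
  rw [entryNorm_eq, entryNorm_eq, entryNorm_eq]
  have h00 := h 0 0
  have h01 := h 0 1
  have h10 := h 1 0
  have h11 := h 1 1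
  have a00 := abs_nonneg (A 0 0)
  have a01 := abs_nonneg (A 0 1)
  have a10 := abs_nonneg (A 1 0)
  have a11 := abs_nonneg (A 1 1)
  have b00 := abs_nonneg (B 0 0)
  have b01 := abs_nonneg (B 0 1)
  have b10 := abs_nonneg (B 1 0)
  have b11 := abs_nonneg (B 1 1)
  have p1 := mul_nonneg a00 b10
  have p2 := mul_nonneg a00 b11
  have p3 := mul_nonneg a01 b00
  have p4 := mul_nonneg a01 b01
  have p5 := mul_nonneg a10 b10
  have p6 := mul_nonneg a10 b11
  have p7 := mul_nonneg a11 b00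
  have p8 := mul_nonneg a11 b01
  linarith

lemma super00 {ε : ℝ} (hε : 0 < ε) {z : ℕ → ℝ} (hz : ∀ k, 0 < z k) (m n : ℕ) :
    matProd ε (fun k => z (m + k)) n 0 0 * matProd ε z m 0 0 ≤ matProd ε z (m + n) 0 0 := by
  rw [matProd_add, Matrix.mul_apply, Fin.sum_univ_two]
  have h1 := matProd_nonneg hε (fun k => hz (m + k)) n 0 1
  have h2 := matProd_nonneg hε hz m 1 0
  have := mul_nonneg h1 h2
  linarith

lemma one_le_entryNorm {ε : ℝ} (hε : 0 < ε) {z : ℕ → ℝ} (hz : ∀ k, 0 < z k) (n : ℕ) :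
    1 ≤ entryNorm (matProd ε z n) := (one_le_00 hε hz n).trans (le_entryNorm _)

/-- `log` of the norm. -/
def Ln (ε : ℝ) (n : ℕ) (z : ℕ → ℝ) : ℝ := Real.log (entryNorm (matProd ε z n))

/-- `log` of the corner entry. -/
def ln00 (ε : ℝ) (n : ℕ) (z : ℕ → ℝ) : ℝ := Real.log (matProd ε z n 0 0)

lemma Ln_nonneg {ε : ℝ} (hε : 0 < ε) {z : ℕ → ℝ} (hz : ∀ k, 0 < z k) (n : ℕ) : 0 ≤ Ln ε n z :=
  Real.log_nonneg (one_le_entryNorm hε hz n)

lemma ln00_nonneg {ε : ℝ} (hε : 0 < ε) {z : ℕ → ℝ} (hz : ∀ k, 0 < z k) (n : ℕ) :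
    0 ≤ ln00 ε n z := Real.log_nonneg (one_le_00 hε hz n)

lemma ln00_le_Ln {ε : ℝ} (hε : 0 < ε) {z : ℕ → ℝ} (hz : ∀ k, 0 < z k) (n : ℕ) :
    ln00 ε n z ≤ Ln ε n z :=
  Real.log_le_log (by linarith [one_le_00 hε hz n]) (le_entryNorm _)

lemma ln00_mono {ε : ℝ} (hε : 0 < ε) {z : ℕ → ℝ} (hz : ∀ k, 0 < z k) :
    Monotone fun n => ln00 ε n z :=
  monotone_nat_of_le_succ fun n =>
    Real.log_le_log (by linarith [one_le_00 hε hz n]) (mono00 hε hz n)

lemma Ln_add {ε : ℝ} (hε : 0 < ε) {z : ℕ → ℝ} (hz : ∀ k, 0 < z k) (m n : ℕ) :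
    Ln ε (m + n) z ≤ Ln ε n (fun k => z (m + k)) + Ln ε m z := by
  have h1 := one_le_entryNorm hε hz m
  have h2 := one_le_entryNorm hε (fun k => hz (m + k)) n
  have h3 := one_le_entryNorm hε hz (m + n)
  unfold Ln
  rw [← Real.log_mul (by linarith) (by linarith)]
  apply Real.log_le_log (by linarith)
  rw [matProd_add]
  exact entryNorm_mul_le _ _

lemma ln00_add {ε : ℝ} (hε : 0 < ε) {z : ℕ → ℝ} (hz : ∀ k, 0 < z k) (m n : ℕ) :
    ln00 ε n (fun k => z (m + k)) + ln00 ε m z ≤ ln00 ε (m + n) z := by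
  have h1 := one_le_00 hε hz m
  have h2 := one_le_00 hε (fun k => hz (m + k)) n
  unfold ln00
  rw [← Real.log_mul (by linarith) (by linarith)]
  apply Real.log_le_log (by positivity)
  exact super00 hε hz m n

lemma Ln_blocks {ε : ℝ} (hε : 0 < ε) {z : ℕ → ℝ} (hz : ∀ k, 0 < z k) (m n : ℕ) (hn : 1 ≤ n) :
    Ln ε (n * m) z ≤ ∑ i ∈ Finset.range n, Ln ε m (fun k => z (i * m + k)) := by
  induction n, hn using Nat.le_induction with
  | base => simp
  | succ n hn ih =>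
    rw [Finset.sum_range_succ, Nat.add_mul, Nat.one_mul]
    have := Ln_add hε hz (n * m) m
    linarith

lemma ln00_blocks {ε : ℝ} (hε : 0 < ε) {z : ℕ → ℝ} (hz : ∀ k, 0 < z k) (m n : ℕ) :
    ∑ i ∈ Finset.range n, ln00 ε m (fun k => z (i * m + k)) ≤ ln00 ε (n * m) z := by
  induction n with
  | zero => simp [ln00, matProd]
  | succ n ih =>
    rw [Finset.sum_range_succ, Nat.add_mul, Nat.one_mul]
    have := ln00_add hε hz (n * m) m
    linarith

/-- The second column is controlled by the first one. -/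
lemma col_le {ε : ℝ} (hε : 0 < ε) (hε1 : ε ≤ 1) {z : ℕ → ℝ} (hz : ∀ k, 0 < z k) (n : ℕ) :
    ∀ i, matProd ε z (n + 1) i 1 ≤ ε⁻¹ * matProd ε z (n + 1) i 0 := by
  induction n with
  | zero =>
    intro i
    rw [matProd_succ]
    have hzn := hz 0
    have hi : 1 ≤ ε⁻¹ := (one_le_inv₀ hε).2 hε1
    fin_cases i
    · change (mat ε (z 0) * matProd ε z 0) 0 1 ≤ ε⁻¹ * (mat ε (z 0) * matProd ε z 0) 0 0
      rw [mul00, mul00]
      simp [matProd]
      linarith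
    · change (mat ε (z 0) * matProd ε z 0) 1 1 ≤ ε⁻¹ * (mat ε (z 0) * matProd ε z 0) 1 0
      rw [mul10, mul10]
      simp [matProd]
      have : ε⁻¹ * (z 0 * ε) = z 0 := by field_simp
      linarith
  | succ n ih =>
    intro i
    rw [matProd_succ]
    have h0 := ih 0
    have h1 := ih 1
    have hzn := hz (n + 1)
    fin_cases i
    · change (mat ε (z (n + 1)) * matProd ε z (n + 1)) 0 1
        ≤ ε⁻¹ * (mat ε (z (n + 1)) * matProd ε z (n + 1)) 0 0
      rw [mul00, mul00]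
      have := mul_le_mul_of_nonneg_left h1 hε.le
      linarith
    · change (mat ε (z (n + 1)) * matProd ε z (n + 1)) 1 1
        ≤ ε⁻¹ * (mat ε (z (n + 1)) * matProd ε z (n + 1)) 1 0
      rw [mul10, mul10]
      have e1 := mul_le_mul_of_nonneg_left h0 hε.le
      have e2 : ε * matProd ε z (n + 1) 0 1 + matProd ε z (n + 1) 1 1
          ≤ ε⁻¹ * (ε * matProd ε z (n + 1) 0 0 + matProd ε z (n + 1) 1 0) := by
        linarith
      have := mul_le_mul_of_nonneg_left e2 hzn.le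
      linarith

variable {Ω : Type*} {Z : ℕ → Ω → ℝ}

/-- First column in terms of the chain. -/
lemma col_eq {ε : ℝ} (hε : 0 < ε) {ω : Ω} (hz : ∀ k, 0 < Z k ω)
    (hX : ∀ n, 0 ≤ X Z (ε ^ 2) n ω) (n : ℕ) :
    matProd ε (fun k => Z k ω) n 1 0
      = ε * matProd ε (fun k => Z k ω) n 0 0 * X Z (ε ^ 2) n ω := by
  induction n with
  | zero => simp [matProd, X]
  | succ n ih =>
    rw [matProd_succ, mul10, mul00, ih]
    change _ = ε * _ * (Z n ω * W (ε ^ 2) (X Z (ε ^ 2) n ω))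
    have h1 := hX n
    have h2 : 0 < 1 + ε ^ 2 * X Z (ε ^ 2) n ω := by positivity
    unfold W
    field_simp

lemma step00 {ε : ℝ} (hε : 0 < ε) {ω : Ω} (hz : ∀ k, 0 < Z k ω)
    (hX : ∀ n, 0 ≤ X Z (ε ^ 2) n ω) (n : ℕ) :
    matProd ε (fun k => Z k ω) (n + 1) 0 0
      = matProd ε (fun k => Z k ω) n 0 0 * (1 + ε ^ 2 * X Z (ε ^ 2) n ω) := by
  rw [matProd_succ, mul00, col_eq hε hz hX]
  ring

lemma ln00_eq {ε : ℝ} (hε : 0 < ε) {ω : Ω} (hz : ∀ k, 0 < Z k ω)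
    (hX : ∀ n, 0 ≤ X Z (ε ^ 2) n ω) (n : ℕ) :
    ln00 ε n (fun k => Z k ω)
      = ∑ k ∈ Finset.range n, Real.log (1 + ε ^ 2 * X Z (ε ^ 2) k ω) := by
  induction n with
  | zero => simp [ln00, matProd]
  | succ n ih =>
    rw [Finset.sum_range_succ, ← ih]
    unfold ln00
    have h1 := hX n
    have h2 : 0 < 1 + ε ^ 2 * X Z (ε ^ 2) n ω := by positivity
    have h3 := one_le_00 hε hz n
    rw [step00 hε hz hX, Real.log_mul (by linarith) h2.ne']

lemma Ln_le {ε : ℝ} (hε : 0 < ε) (hε1 : ε ≤ 1) {ω : Ω} (hz : ∀ k, 0 < Z k ω)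
    (hX : ∀ n, 0 ≤ X Z (ε ^ 2) n ω) (n : ℕ) (hn : 1 ≤ n) :
    Ln ε n (fun k => Z k ω) ≤ ln00 ε n (fun k => Z k ω) + Real.log (1 + ε⁻¹)
      + Real.log (1 + X Z (ε ^ 2) n ω) := by
  obtain ⟨n, rfl⟩ : ∃ k, n = k + 1 := ⟨n - 1, by omega⟩
  have h1 := hX (n + 1)
  have h3 := one_le_00 hε hz (n + 1)
  have hnn := matProd_nonneg hε hz (n + 1)
  have hc := col_le hε hε1 hz n
  have hi : 0 < ε⁻¹ := inv_pos.2 hε
  unfold Ln ln00
  rw [← Real.log_mul (by linarith) (by linarith), ← Real.log_mul (by positivity) (by linarith)]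
  have hle : entryNorm (matProd ε (fun k => Z k ω) (n + 1))
      ≤ matProd ε (fun k => Z k ω) (n + 1) 0 0 * (1 + ε⁻¹) * (1 + X Z (ε ^ 2) (n + 1) ω) := by
    rw [entryNorm_eq, abs_of_nonneg (hnn 0 0), abs_of_nonneg (hnn 0 1), abs_of_nonneg (hnn 1 0),
      abs_of_nonneg (hnn 1 1)]
    have e0 := hc 0
    have e1 := hc 1
    have e2 := col_eq hε hz hX (n + 1)
    set u := matProd ε (fun k => Z k ω) (n + 1) 0 0 with hu
    set v := matProd ε (fun k => Z k ω) (n + 1) 1 0 with hv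
    set x := X Z (ε ^ 2) (n + 1) ω with hx
    have hu0 : 0 ≤ u := by linarith
    have hvx : v ≤ u * x := by
      rw [e2]
      have : 0 ≤ u * x := mul_nonneg hu0 h1
      nlinarith
    have e3 : v + matProd ε (fun k => Z k ω) (n + 1) 1 1 ≤ (1 + ε⁻¹) * v := by linarith
    have e4 : (1 + ε⁻¹) * v ≤ (1 + ε⁻¹) * (u * x) :=
      mul_le_mul_of_nonneg_left hvx (by linarith)
    have e5 : u + matProd ε (fun k => Z k ω) (n + 1) 0 1 ≤ (1 + ε⁻¹) * u := by linarith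
    nlinarith
  exact Real.log_le_log (by linarith [one_le_entryNorm hε hz (n + 1)]) hle

end

end Pool.Agent.H741R4.DH
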