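import Mathlib

/-!
Tasks for the Derrida-Hilhorst problem MP_132c94_pr, Q1 (non-integer exponent).
-/

open MeasureTheory Filter Topology

namespace Pool.Agent.H741R4.Q

/-- Choquet-Deny at minus infinity. -/
def TaskCD : Prop := ∀ (μ : Measure ℝ) [IsProbabilityMeasure μ] (g : ℝ → ℝ) (C : ℝ),
  (∀ t, |g t| ≤ C) → UniformContinuous g →
  Tendsto (fun t => g t - ∫ s, g (t + s) ∂μ) atBot (𝓝 0) →
  (¬ ∃ c : ℝ, ∀ᵐ s ∂μ, ∃ n : ℤ, s = n * c) →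
  ∀ s, Tendsto (fun t => g (t + s) - g t) atBot (𝓝 0)

/-- The integral identity, finite and infinite mean. -/
def TaskID : Prop := ∀ (μ : Measure ℝ) [IsProbabilityMeasure μ] (g : ℝ → ℝ) (C δ : ℝ),
  0 < δ → Continuous g → (∀ t, 0 ≤ g t) → (∀ t, g t ≤ C) →
  (∀ t, g t ≤ C * Real.exp (-δ * t)) →
  (∀ t, |g t - ∫ s, g (t + s) ∂μ| ≤ C * Real.exp (-δ * |t|)) →
  Integrable (fun s => min s 0) μ →
  (∀ s, Tendsto (fun t => g (t + s) - g t) atBot (𝓝 0)) →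
  (Integrable (fun s => s) μ → 0 < ∫ s, s ∂μ → ∃ c, Tendsto g atBot (𝓝 c)) ∧
  (¬ Integrable (fun s => s) μ → Tendsto g atBot (𝓝 0))

end Pool.Agent.H741R4.Q
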