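import Pool.Agent.H741R4.DH12

/-!
Task for the Derrida-Hilhorst problem MP_132c94_pr, Q1: positivity.
-/

open MeasureTheory ProbabilityTheory Filter Topology

universe u

namespace Pool.Agent.H741R4.DH

/-- Positivity of the singular part. -/
def TaskPos : Prop := ∀ (Ω : Type u) (_ : MeasurableSpace Ω) (P : Measure Ω) (Z : ℕ → Ω → ℝ)
  (α : ℝ) (m : ℕ), Setup P Z α → 1 ≤ m → (m : ℝ) < α → α < (m : ℝ) + 1 →
  Integrable (fun ω => (Z 0 ω) ^ α * Real.log (Z 0 ω)) P →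
  ∃ κ : ℝ, 0 < κ ∧ ∀ᶠ a in 𝓝[>] (0 : ℝ),
    κ * a ^ α ≤ Lam P Z a (fun x => (a * x) ^ (m + 1) / (1 + a * x))

end Pool.Agent.H741R4.DH
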